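import Pool.Agent.L5helper74.LR.Wey3

/-!
# Level repulsion: the volume of the set of symmetric matrices with given eigenvalues, conclusion
-/

set_option autoImplicit false
set_option linter.unusedSectionVars false

open Set Filter Topology MeasureTheory
open scoped ENNReal

noncomputable section

namespace Pool.Agent.L5helper74.LR

lemma Ort_compact (n : ℕ) : IsCompact {V : Fin n → Fin n → ℝ | Ort V} := by
  refine Metric.isCompact_of_isClosed_isBounded ?_ ?_
  · have h1 : {V : Fin n → Fin n → ℝ | Ort V} =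
        ⋂ i, ⋂ k, {V | ∑ j, V j i * V j k = if i = k then 1 else 0} := by
      ext V
      simp only [mem_iInter, mem_ofPred_eq, Ort]
    rw [h1]
    refine isClosed_iInter fun i => isClosed_iInter fun k => ?_
    exact isClosed_eq (by fun_prop) continuous_const
  · refine (Metric.isBounded_closedBall (x := (0 : Fin n → Fin n → ℝ)) (r := 1)).subset ?_
    intro V hV
    rw [mem_closedBall_zero_iff]
    refine (pi_norm_le_iff_of_nonneg zero_le_one).2 fun i => ?_
    exact (pi_norm_le_iff_of_nonneg zero_le_one).2 fun j => Ort_le hV i j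

theorem weyl (m : ℕ) : ∃ C : ℝ≥0∞, C ≠ ⊤ ∧ ∀ Ω : Set (Fin m → ℝ), MeasurableSet Ω →
    volume {u : Ix m → ℝ | ∃ y ∈ Ω, ∃ V, Ort V ∧ u = cI (Tc (Fin.cons 0 y) V)} ≤
      C * ∫⁻ y in Ω, ENNReal.ofReal (Vd m y) := by
  obtain ⟨s, r, B, δ, hr, hδ, h1, h2, h3, -⟩ := chart (m + 1)
  obtain ⟨C₁, hC₁, hC⟩ := one_chart m hr h1 h2
  obtain ⟨n, hn⟩ : ∃ n : ℝ, n = ((m + 1 : ℕ) : ℝ) := ⟨_, rfl⟩
  have hn0 : 0 < n := by rw [hn]; positivity
  obtain ⟨t, ht1, ht2, ht3⟩ := (Ort_compact (m + 1)).finite_cover_balls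
    (show 0 < δ / n by positivity)
  refine ⟨ht2.toFinset.card * C₁, ENNReal.mul_ne_top (ENNReal.natCast_ne_top _) hC₁,
    fun Ω hΩ => ?_⟩
  have hsub : {u : Ix m → ℝ | ∃ y ∈ Ω, ∃ V, Ort V ∧ u = cI (Tc (Fin.cons 0 y) V)} ⊆
      ⋃ U ∈ ht2.toFinset, ((fun z : Ix m → ℝ => cI (Tc (Lz z) fun i j =>
        ∑ l, s (Xz z) i l * U l j)) ''
        {z | (fun i => z (Sum.inl i)) ∈ Ω ∧ ‖fun q => z (Sum.inr q)‖ ≤ r / 2}) := by
    rintro u ⟨y, hy, V, hV, rfl⟩
    obtain ⟨U, hU, hUV⟩ := mem_iUnion₂.1 (ht3 hV)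
    rw [mem_ball_iff_norm] at hUV
    have hUo : Ort U := ht1 hU
    rw [mem_iUnion₂]
    refine ⟨U, (Set.Finite.mem_toFinset _).2 hU, ?_⟩
    obtain ⟨A, hA⟩ : ∃ A : Fin (m + 1) → Fin (m + 1) → ℝ, A = fun i j => ∑ l, V i l * U j l :=
      ⟨_, rfl⟩
    have hUt : Ort (fun i j => U j i) := fun i k => V_row hUo i k
    have hAo : Ort A := by
      rw [hA]
      exact Ort_mul hV hUt
    have hAd : ‖A - I1‖ < δ := by
      have h4 : ∀ i j, |(A - (I1 : Fin (m + 1) → Fin (m + 1) → ℝ)) i j| ≤ n * ‖V - U‖ := by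
        intro i j
        have h5 : (A - (I1 : Fin (m + 1) → Fin (m + 1) → ℝ)) i j =
            ∑ l, (V - U) i l * U j l := by
          have h6 := V_row hUo i j
          simp only [Pi.sub_apply, hA, I1, sub_mul, Finset.sum_sub_distrib, h6]
        rw [h5]
        refine (Finset.abs_sum_le_sum_abs _ _).trans ?_
        have h7 : ∀ l ∈ (Finset.univ : Finset (Fin (m + 1))), |(V - U) i l * U j l| ≤ ‖V - U‖ := by
          intro l _
          rw [abs_mul]
          have h8 : |(V - U) i l| ≤ ‖V - U‖ := by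
            rw [← Real.norm_eq_abs]
            exact (norm_le_pi_norm ((V - U) i) l).trans (norm_le_pi_norm (V - U) i)
          exact (mul_le_mul h8 (Ort_le hUo j l) (abs_nonneg _) (norm_nonneg _)).trans
            (by rw [mul_one])
        refine (Finset.sum_le_sum h7).trans ?_
        simp [hn]
      have h5 : ‖A - I1‖ ≤ n * ‖V - U‖ := by
        refine (pi_norm_le_iff_of_nonneg (by positivity)).2 fun i => ?_
        exact (pi_norm_le_iff_of_nonneg (by positivity)).2 fun j => h4 i j
      refine h5.trans_lt ?_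
      rw [lt_div_iff₀ hn0] at hUV
      linarith
    obtain ⟨h4, h5⟩ := h3 A hAo hAd
    refine ⟨Sum.elim y fun q => A q.1.1 q.1.2 - A q.1.2 q.1.1, ⟨hy, ?_⟩, ?_⟩
    · simp only [Sum.elim_inr]
      refine (pi_norm_le_iff_of_nonneg (by positivity)).2 fun q => ?_
      refine le_trans ?_ h4
      exact (norm_le_pi_norm (fun j => A q.1.1 j - A j q.1.1) q.1.2).trans
        (norm_le_pi_norm (fun i j => A i j - A j i) q.1.1)
    · have h6 : Xz (Sum.elim y fun q : Off m => A q.1.1 q.1.2 - A q.1.2 q.1.1) =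
          fun i j => A i j - A j i := by
        funext i j
        unfold Xz
        rcases lt_trichotomy i j with h | h | h
        · rw [dif_pos h]
          rfl
        · subst h
          simp
        · rw [dif_neg h.not_gt, dif_pos h]
          simp only [Sum.elim_inr]
          ring
      have h7 : Lz (Sum.elim y fun q : Off m => A q.1.1 q.1.2 - A q.1.2 q.1.1) = Fin.cons 0 y :=
        rfl
      simp only [h6, h7, h5]
      congr 2
      funext i j
      rw [hA]
      calc ∑ l, (∑ p, V i p * U l p) * U l j = ∑ p, V i p * ∑ l, U l p * U l j := by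
            simp only [Finset.sum_mul, Finset.mul_sum]
            rw [Finset.sum_comm]
            exact Finset.sum_congr rfl fun p _ => Finset.sum_congr rfl fun l _ => by ring
        _ = V i j := by simp [hUo _ _]
  refine (measure_mono hsub).trans ((measure_biUnion_finset_le _ _).trans ?_)
  refine (Finset.sum_le_sum fun U hU => hC U (ht1 ((Set.Finite.mem_toFinset _).1 hU)) Ω hΩ).trans ?_
  rw [Finset.sum_const, nsmul_eq_mul, mul_assoc]

end Pool.Agent.L5helper74.LR
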