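import Pool.Agent.L5helper74.LR.Ex
import Pool.Agent.L5helper74.LR.Wey4
import Pool.Agent.L5helper74.RJ.Core

/-!
# Level repulsion: the effective matrix of a cluster of levels of a surface
-/

set_option autoImplicit false
set_option linter.unusedSectionVars false
set_option synthInstance.maxHeartbeats 400000

open Set Filter Topology MeasureTheory
open scoped Real
open Pool.Agent.Y262.QE Pool.Agent.Y264.QR Pool.Agent.Q233.GLV

noncomputable section

namespace Pool.Agent.L5helper74.LR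

lemma cI_shift {m : ℕ} {V : Fin (m + 1) → Fin (m + 1) → ℝ} (hV : Ort V) (L : Fin (m + 1) → ℝ)
    (c : ℝ) : cI (Tc (fun j => L j - c) V) = cI (Tc L V) := by
  have h1 : ∀ i j, Tc (fun j => L j - c) V i j = Tc L V i j - c * if i = j then 1 else 0 := by
    intro i j
    unfold Tc
    rw [← hV i j, Finset.mul_sum, ← Finset.sum_sub_distrib]
    exact Finset.sum_congr rfl fun k _ => by ring
  funext q
  rcases q with q | q
  · simp only [cI, Sum.elim_inl, h1, if_true]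
    ring
  · simp only [cI, Sum.elim_inr, h1, if_neg q.2.ne]
    ring

lemma cI_mul {m : ℕ} (N : Fin (m + 1) → Fin (m + 1) → ℝ) (s : ℝ) :
    cI (fun i j => s * N i j) = s • cI N := by
  funext q
  rcases q with q | q
  · simp only [cI, Sum.elim_inl, Pi.smul_apply, smul_eq_mul]
    ring
  · simp only [cI, Sum.elim_inr, Pi.smul_apply, smul_eq_mul]

lemma cI_one {m : ℕ} (c : ℝ) :
    cI (fun i j : Fin (m + 1) => if i = j then c else 0) = 0 := by
  funext q
  rcases q with q | q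
  · simp [cI]
  · simp [cI, q.2.ne]

lemma smul_strict {Y F : Type} [NormedAddCommGroup Y] [NormedSpace ℝ Y] [NormedAddCommGroup F]
    [NormedSpace ℝ F] {c : Y → ℝ} {c' : Y →L[ℝ] ℝ} {f : Y → F} {f' : Y →L[ℝ] F} {y : Y}
    (hc : HasStrictFDerivAt c c' y) (hf : HasStrictFDerivAt f f' y) (h0 : f y = 0) :
    ∃ D : Y →L[ℝ] F, HasStrictFDerivAt (fun y => c y • f y) D y ∧ ∀ h, D h = c y • f' h := by
  refine ⟨_, hc.fun_smul hf, fun h => ?_⟩
  simp only [_root_.add_apply, _root_.smul_apply, ContinuousLinearMap.smulRight_apply, h0,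
    smul_zero, add_zero]

variable {M : Type} [MetricSpace M] [CompactSpace M] [MeasurableSpace M] [BorelSpace M]
  {μ : Measure M} [IsFiniteMeasure μ] {H : Type} [NormedAddCommGroup H]
  [InnerProductSpace ℝ H] [CompleteSpace H] {i : H →L[ℝ] Lp ℝ 2 μ} {a : H →L[ℝ] H →L[ℝ] ℝ}
  {b : C(M, ℝ) → H →L[ℝ] H →L[ℝ] ℝ}

/-- the unfolded levels -/
def Xl (μ : Measure M) (a : H →L[ℝ] H →L[ℝ] ℝ) (b : C(M, ℝ) → H →L[ℝ] H →L[ℝ] ℝ)
    (φ : C(M, ℝ)) (j : ℕ) : ℝ :=
  (∫ x, Real.exp (φ x) ∂μ) / (4 * π) * Ev a (b φ) j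

theorem core0 (hS : Sf μ i a) (hB : IsB μ i b) (hF : ∀ φ, Fm a (b φ))
    (hcont : ∀ j, Continuous fun φ => Ev a (b φ) j)
    (hmono : ∀ φ i j, i ≤ j → Ev a (b φ) i ≤ Ev a (b φ) j)
    (hex : ∀ φ, ∃ e E, Eg a (b φ) e E) (φ₀ : C(M, ℝ))
    (hA : 0 < ∫ x, Real.exp (φ₀ x) ∂μ) {e : ℕ → H} {E : ℕ → ℝ} (hE : Eg a (b φ₀) e E)
    (l m : ℕ) (hpos : 0 < E l) (hcl : ∀ j, E j = E l ↔ l ≤ j ∧ j ≤ l + m) :
    ∃ (Mf : C(M, ℝ) → Ix m → ℝ) (M' : C(M, ℝ) →L[ℝ] (Ix m → ℝ)) (s₀ : ℝ),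
      HasStrictFDerivAt Mf M' φ₀ ∧ Mf φ₀ = 0 ∧ s₀ ≠ 0 ∧
      (∀ h, M' h = s₀ • cI (fun i j : Fin (m + 1) =>
        kf b (Pool.Agent.Q233.GLV.ex φ₀ * h) (e (l + i)) (e (l + j)))) ∧
      ∀ᶠ φ in 𝓝 φ₀, ∃ V, Ort V ∧
        Mf φ = cI (Tc (Fin.cons 0 fun i : Fin m => Xl μ a b φ (l + (i + 1)) - Xl μ a b φ l) V) := by
  have hmm : ∀ φ e E, Eg a (b φ) e E → ∀ j, Ev a (b φ) j = E j :=
    fun φ e E hE j => Pool.Agent.Y592.QE.mm _ a (b φ) (hF φ) e E hE j
  obtain ⟨p, hp⟩ : ∃ p : Fin (m + 1) → ℕ, p = fun i : Fin (m + 1) => l + (i : ℕ) := ⟨_, rfl⟩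
  have hC : Cl a (b φ₀) e E p (E l) := by
    refine ⟨hF φ₀, hE, hpos.le, fun x y h => ?_, fun j => ?_⟩
    · rw [hp] at h
      simp only [add_right_inj] at h
      exact Fin.ext h
    · rw [hcl, hp]
      constructor
      · rintro ⟨h1, h2⟩
        exact ⟨⟨j - l, by omega⟩, by simp only; omega⟩
      · rintro ⟨q, rfl⟩
        have := q.2
        show l ≤ l + (q : ℕ) ∧ l + (q : ℕ) ≤ l + m
        constructor <;> omega
  obtain ⟨g', hg', hg'f⟩ := ex_strict φ₀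
  obtain ⟨K, hK⟩ := kf_clm hS hB
  have hKb : ∀ φ, K (Pool.Agent.Q233.GLV.ex φ) = b φ := by
    intro φ
    rw [hK]
    ext u w
    exact kf_ex hB φ u w
  obtain ⟨w, N, N', hN, hN'f, hN0, hev⟩ := eff hC hg' (hKb φ₀)
    (fun φ u v => by rw [hKb]; exact (hF φ).sb u v)
  obtain ⟨A', hA'⟩ := area_strict μ φ₀
  obtain ⟨Q, hQ⟩ := cI_lin (m := m)
  obtain ⟨Mf, hMf⟩ : ∃ Mf : C(M, ℝ) → Ix m → ℝ, Mf = fun φ =>
      ((∫ x, Real.exp (φ x) ∂μ) * (4 * π)⁻¹) • Q (N φ) := ⟨_, rfl⟩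
  have hQ0 : Q (N φ₀) = 0 := by
    rw [hQ, hN0]
    exact cI_one _
  obtain ⟨M', hM', hM'f⟩ : ∃ M' : C(M, ℝ) →L[ℝ] (Ix m → ℝ), HasStrictFDerivAt Mf M' φ₀ ∧
      ∀ h, M' h = ((∫ x, Real.exp (φ₀ x) ∂μ) * (4 * π)⁻¹) • Q (N' h) := by
    rw [hMf]
    exact smul_strict (hA'.mul_const (4 * π)⁻¹) (Q.hasStrictFDerivAt.comp φ₀ hN) hQ0
  have hs : 0 < (∫ x, Real.exp (φ₀ x) ∂μ) * (4 * π)⁻¹ := by
    have := Real.pi_pos
    positivity
  refine ⟨Mf, M', ((∫ x, Real.exp (φ₀ x) ∂μ) * (4 * π)⁻¹) * (-E l), hM', ?_,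
    mul_ne_zero hs.ne' (neg_ne_zero.2 hpos.ne'), fun h => ?_, ?_⟩
  · rw [hMf]
    simp only [hQ0, smul_zero]
  · have h2 : N' h = fun i j : Fin (m + 1) => -E l * kf b (Pool.Agent.Q233.GLV.ex φ₀ * h)
        (e (l + (i : ℕ))) (e (l + (j : ℕ))) := by
      funext i j
      rw [hN'f, hg'f, hK, hp]
      ring
    rw [hM'f, hQ, h2, cI_mul, smul_smul]
  · obtain ⟨γ, hγ, hgap⟩ := gap2 hE.tt (E l)
    have hlow : ∀ᶠ φ in 𝓝 φ₀, ∀ j, j < l → Ev a (b φ) j ≤ E l - γ / 2 := by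
      rcases Nat.eq_zero_or_pos l with h0 | h0
      · exact Eventually.of_forall fun φ j hj => by omega
      · have h1 : E (l - 1) ≤ E l - γ := by
          have h2 : E (l - 1) ≤ E l := hE.mono (Nat.sub_le _ _)
          have h3 : E (l - 1) ≠ E l := fun h => by
            have := (hcl (l - 1)).1 h
            omega
          have h4 := hgap _ h3
          rw [abs_of_nonpos (by linarith)] at h4
          linarith
        have h2 : Ev a (b φ₀) (l - 1) < E l - γ / 2 := by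
          rw [hmm φ₀ e E hE]
          linarith
        filter_upwards [(hcont (l - 1)).continuousAt.eventually_lt continuousAt_const h2]
          with φ hφ j hj
        exact (hmono φ j (l - 1) (by omega)).trans hφ.le
    have hhigh : ∀ᶠ φ in 𝓝 φ₀, ∀ j, l + m < j → E l + γ / 2 ≤ Ev a (b φ) j := by
      have h1 : E l + γ ≤ E (l + m + 1) := by
        have h2 : E l ≤ E (l + m + 1) := hE.mono (by omega)
        have h3 : E (l + m + 1) ≠ E l := fun h => by
          have := (hcl (l + m + 1)).1 h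
          omega
        have h4 := hgap _ h3
        rw [abs_of_nonneg (by linarith)] at h4
        linarith
      have h2 : E l + γ / 2 < Ev a (b φ₀) (l + m + 1) := by
        rw [hmm φ₀ e E hE]
        linarith
      filter_upwards [continuousAt_const.eventually_lt (hcont (l + m + 1)).continuousAt h2]
        with φ hφ j hj
      exact hφ.le.trans (hmono φ (l + m + 1) j (by omega))
    have hNs : ∀ᶠ φ in 𝓝 φ₀, ∀ i, ∑ j, |N φ i j - if i = j then E l else 0| ≤ γ / 4 := by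
      rw [eventually_all]
      intro i
      have h1 : ContinuousAt (fun φ => ∑ j, |N φ i j - if i = j then E l else 0|) φ₀ := by
        refine tendsto_finsetSum _ fun j _ => ?_
        refine ContinuousAt.abs (ContinuousAt.sub ?_ continuousAt_const)
        have h2 := hN.continuousAt
        exact (continuousAt_pi.1 (continuousAt_pi.1 h2 i) j)
      have h2 : ∑ j, |N φ₀ i j - if i = j then E l else 0| < γ / 4 := by
        rw [hN0]
        simp only [sub_self, abs_zero, Finset.sum_const_zero]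
        positivity
      exact (h1.eventually_lt continuousAt_const h2).mono fun φ hφ => hφ.le
    filter_upwards [hev, hlow, hhigh, hNs] with φ h1 h2 h3 h4
    obtain ⟨e', E', hE'⟩ := hex φ
    rw [hKb] at h1
    have hE'm := hmm φ e' E' hE'
    obtain ⟨V, hV, hVN⟩ := conj (hF φ) hE' hC.inj h1.1 h1.2 (show γ / 4 < γ / 2 by linarith) h4
      (fun j hj => by
        rcases lt_or_ge j l with h5 | h5
        · have := h2 j h5
          rw [hE'm] at this
          rw [abs_of_nonpos (by linarith)]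
          linarith
        · rcases lt_or_ge (l + m) j with h6 | h6
          · have := h3 j h6
            rw [hE'm] at this
            rw [abs_of_nonneg (by linarith)]
            linarith
          · exact absurd ((hC.p j).1 ((hcl j).2 ⟨h5, h6⟩)) (by
              rintro ⟨q, hq⟩
              exact hj q hq))
    refine ⟨V, hV, ?_⟩
    have h5 : N φ = Tc (fun j => E' (p j)) V := funext fun i => funext fun k => hVN i k
    have h6 : (Fin.cons 0 fun i : Fin m => Xl μ a b φ (l + (i + 1)) - Xl μ a b φ l :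
        Fin (m + 1) → ℝ) = fun j => Xl μ a b φ (p j) - Xl μ a b φ l := by
      funext j
      refine Fin.cases ?_ (fun j => ?_) j
      · rw [hp]
        simp
      · rw [hp]
        simp
    have hV' : Ort V := hV
    rw [hMf, h6, cI_shift hV']
    simp only [hQ, h5]
    rw [← cI_mul]
    congr 1
    funext i k
    unfold Tc
    rw [Finset.mul_sum]
    refine Finset.sum_congr rfl fun j _ => ?_
    simp only [Xl, hE'm, div_eq_mul_inv]
    ring

theorem core (hS : Sf μ i a) (hB : IsB μ i b) (hF : ∀ φ, Fm a (b φ))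
    (hcont : ∀ j, Continuous fun φ => Ev a (b φ) j)
    (hmono : ∀ φ i j, i ≤ j → Ev a (b φ) i ≤ Ev a (b φ) j)
    (hex : ∀ φ, ∃ e E, Eg a (b φ) e E) (φ₀ : C(M, ℝ))
    (hA : 0 < ∫ x, Real.exp (φ₀ x) ∂μ) {e : ℕ → H} {E : ℕ → ℝ} (hE : Eg a (b φ₀) e E)
    (l m : ℕ) (hpos : 0 < E l) (hcl : ∀ j, E j = E l ↔ l ≤ j ∧ j ≤ l + m)
    (hind : ∀ c : Ix m → ℝ, (∀ h : C(M, ℝ), ∑ q, c q * cI (fun i j : Fin (m + 1) =>
      kf b (Pool.Agent.Q233.GLV.ex φ₀ * h) (e (l + i)) (e (l + j))) q = 0) → c = 0) :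
    ∃ (Mf : C(M, ℝ) → Ix m → ℝ) (M' : C(M, ℝ) →L[ℝ] (Ix m → ℝ)),
      HasStrictFDerivAt Mf M' φ₀ ∧ Mf φ₀ = 0 ∧
      (∀ c : Ix m → ℝ, (∀ h, ∑ q, c q * M' h q = 0) → c = 0) ∧
      ∀ᶠ φ in 𝓝 φ₀, ∃ V, Ort V ∧
        Mf φ = cI (Tc (Fin.cons 0 fun i : Fin m => Xl μ a b φ (l + (i + 1)) - Xl μ a b φ l) V) := by
  obtain ⟨Mf, M', s₀, h1, h2, h3, h4, h5⟩ := core0 hS hB hF hcont hmono hex φ₀ hA hE l m hpos hcl
  refine ⟨Mf, M', h1, h2, fun c hc => hind c fun h => ?_, h5⟩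
  have h6 := hc h
  rw [h4] at h6
  have h7 : s₀ * ∑ q, c q * cI (fun i j : Fin (m + 1) =>
      kf b (Pool.Agent.Q233.GLV.ex φ₀ * h) (e (l + i)) (e (l + j))) q = 0 := by
    rw [← h6, Finset.mul_sum]
    refine Finset.sum_congr rfl fun q _ => ?_
    simp only [Pi.smul_apply, smul_eq_mul]
    ring
  exact (mul_eq_zero.1 h7).resolve_left h3

end Pool.Agent.L5helper74.LR
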