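import Pool.Agent.L5helper74.LR.Wey6

/-!
# Level repulsion: compact sets, exponents
-/

set_option autoImplicit false
set_option linter.unusedSectionVars false

open Set Filter Topology MeasureTheory
open scoped ENNReal

noncomputable section

namespace Pool.Agent.L5helper74.LR

variable {m : ℕ}

/-- local bounds for the law of the gaps on a compact set -/
lemma compact_bound {X : Type} [TopologicalSpace X] [T2Space X] [MeasurableSpace X]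
    (P : Measure X) {gp : X → Fin m → ℝ} (hgc : Continuous gp) {K : Set X} (hK : IsCompact K)
    (h : ∀ x ∈ K, gp x = 0 → ∃ U, IsOpen U ∧ x ∈ U ∧ ∃ C : ℝ≥0∞, C ≠ ⊤ ∧
      ∀ Ω : Set (Fin m → ℝ), MeasurableSet Ω →
        P {b | b ∈ U ∧ gp b ∈ Ω} ≤ C * ∫⁻ y in Ω, ENNReal.ofReal (Vd m y)) :
    ∃ s₀ : ℝ, 0 < s₀ ∧ ∃ C : ℝ≥0∞, C ≠ ⊤ ∧ ∀ Ω : Set (Fin m → ℝ), MeasurableSet Ω →
      (∀ y ∈ Ω, ‖y‖ < s₀) →
        P {b | b ∈ K ∧ gp b ∈ Ω} ≤ C * ∫⁻ y in Ω, ENNReal.ofReal (Vd m y) := by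
  have hcl : IsClosed {x | gp x = 0} := isClosed_eq hgc continuous_const
  have hK₀ : IsCompact (K ∩ {x | gp x = 0}) := hK.inter_right hcl
  obtain ⟨V, hVo, hKV, C, hC, hCV⟩ : ∃ V, IsOpen V ∧ K ∩ {x | gp x = 0} ⊆ V ∧ ∃ C : ℝ≥0∞, C ≠ ⊤ ∧
      ∀ Ω : Set (Fin m → ℝ), MeasurableSet Ω →
        P {b | b ∈ V ∧ gp b ∈ Ω} ≤ C * ∫⁻ y in Ω, ENNReal.ofReal (Vd m y) := by
    refine hK₀.induction_on (p := fun S => ∃ V, IsOpen V ∧ S ⊆ V ∧ ∃ C : ℝ≥0∞, C ≠ ⊤ ∧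
      ∀ Ω : Set (Fin m → ℝ), MeasurableSet Ω →
        P {b | b ∈ V ∧ gp b ∈ Ω} ≤ C * ∫⁻ y in Ω, ENNReal.ofReal (Vd m y)) ?_ ?_ ?_ ?_
    · refine ⟨∅, isOpen_empty, subset_rfl, 0, by norm_num, fun Ω _ => ?_⟩
      simp
    · rintro s t hst ⟨V, h1, h2, h3⟩
      exact ⟨V, h1, hst.trans h2, h3⟩
    · rintro s t ⟨V, h1, h2, C, h3, h4⟩ ⟨V', h1', h2', C', h3', h4'⟩
      refine ⟨V ∪ V', h1.union h1', union_subset_union h2 h2', C + C',
        ENNReal.add_ne_top.2 ⟨h3, h3'⟩, fun Ω hΩ => ?_⟩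
      calc P {b | b ∈ V ∪ V' ∧ gp b ∈ Ω} ≤
          P ({b | b ∈ V ∧ gp b ∈ Ω} ∪ {b | b ∈ V' ∧ gp b ∈ Ω}) := by
            refine measure_mono ?_
            rintro b ⟨hb | hb, hb2⟩
            · exact Or.inl ⟨hb, hb2⟩
            · exact Or.inr ⟨hb, hb2⟩
        _ ≤ _ := (measure_union_le _ _).trans (by
          rw [add_mul]
          exact add_le_add (h4 Ω hΩ) (h4' Ω hΩ))
    · rintro x ⟨hx, hx2⟩
      obtain ⟨U, h1, h2, h3⟩ := h x hx hx2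
      exact ⟨U, mem_nhdsWithin_of_mem_nhds (h1.mem_nhds h2), U, h1, subset_rfl, h3⟩
  have hK₁ : IsCompact (K \ V) := hK.diff hVo
  obtain ⟨s₀, hs₀, hs⟩ : ∃ s₀ : ℝ, 0 < s₀ ∧ ∀ b ∈ K \ V, s₀ ≤ ‖gp b‖ := by
    rcases (K \ V).eq_empty_or_nonempty with he | hne
    · exact ⟨1, one_pos, fun b hb => by rw [he] at hb; exact absurd hb (notMem_empty b)⟩
    · obtain ⟨b₀, hb₀, hmin⟩ := hK₁.exists_isMinOn hne hgc.norm.continuousOn
      refine ⟨‖gp b₀‖, norm_pos_iff.2 fun h0 => hb₀.2 (hKV ⟨hb₀.1, h0⟩), fun b hb => hmin hb⟩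
  refine ⟨s₀, hs₀, C, hC, fun Ω hΩ hsm => (measure_mono ?_).trans (hCV Ω hΩ)⟩
  rintro b ⟨hb, hb2⟩
  refine ⟨?_, hb2⟩
  by_contra hV
  exact absurd (hsm _ hb2) (not_lt.2 (hs b ⟨hb, hV⟩))

lemma card_off (m : ℕ) : m + Fintype.card (Off m) = m * (m + 3) / 2 := by
  have h1 : Fintype.card (Off m) = ∑ j : Fin (m + 1), (j : ℕ) := by
    have h2 : Fintype.card (Off m) = Fintype.card (Σ j : Fin (m + 1), Fin (j : ℕ)) := by
      refine Fintype.card_congr ⟨fun q => ⟨q.1.2, ⟨q.1.1, q.2⟩⟩,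
        fun s => ⟨(⟨s.2, s.2.2.trans s.1.2⟩, s.1), s.2.2⟩, fun q => ?_, fun s => ?_⟩
      · rfl
      · rfl
    rw [h2, Fintype.card_sigma]
    simp
  have h2 : (∑ j : Fin (m + 1), (j : ℕ)) * 2 = (m + 1) * m := by
    rw [Fin.sum_univ_eq_sum_range fun i => i, Finset.sum_range_id_mul_two]
    simp
  rw [h1]
  have h3 : m * (m + 3) = 2 * (m + ∑ j : Fin (m + 1), (j : ℕ)) := by
    have : m * (m + 3) = 2 * m + (m + 1) * m := by ring
    rw [this, ← h2]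
    ring
  rw [h3, Nat.mul_div_cancel_left _ (by norm_num)]

lemma cons_bd {y : Fin m → ℝ} {s : ℝ} (hs : 0 ≤ s) (h : ∀ i, 0 ≤ y i ∧ y i ≤ s)
    (k : Fin (m + 1)) : 0 ≤ (Fin.cons 0 y : Fin (m + 1) → ℝ) k ∧
      (Fin.cons 0 y : Fin (m + 1) → ℝ) k ≤ s := by
  refine Fin.cases ?_ (fun k => ?_) k
  · rw [Fin.cons_zero]
    exact ⟨le_rfl, hs⟩
  · rw [Fin.cons_succ]
    exact h k

lemma up_pow (m : ℕ) {s : ℝ} (hs : 0 ≤ s) :
    ∫⁻ y in Icc (0 : Fin m → ℝ) (fun _ => s), ENNReal.ofReal (Vd m y) ≤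
      ENNReal.ofReal (s ^ (m * (m + 3) / 2)) := by
  have h1 : ∀ y ∈ Icc (0 : Fin m → ℝ) (fun _ => s), ENNReal.ofReal (Vd m y) ≤
      ENNReal.ofReal (s ^ Fintype.card (Off m)) := by
    intro y hy
    refine ENNReal.ofReal_le_ofReal ?_
    have h2 : ∀ i, 0 ≤ y i ∧ y i ≤ s := fun i => ⟨hy.1 i, hy.2 i⟩
    unfold Vd
    refine (Finset.prod_le_prod (fun q _ => abs_nonneg _) (fun q _ => ?_)).trans_eq
      (Finset.prod_const s)
    obtain ⟨h3, h4⟩ := cons_bd hs h2 q.1.1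
    obtain ⟨h5, h6⟩ := cons_bd hs h2 q.1.2
    exact abs_le.2 ⟨by linarith, by linarith⟩
  calc ∫⁻ y in Icc (0 : Fin m → ℝ) (fun _ => s), ENNReal.ofReal (Vd m y)
      ≤ ∫⁻ y in Icc (0 : Fin m → ℝ) (fun _ => s), ENNReal.ofReal (s ^ Fintype.card (Off m)) :=
        setLIntegral_mono' measurableSet_Icc h1
    _ = ENNReal.ofReal (s ^ (m * (m + 3) / 2)) := by
        rw [setLIntegral_const, Real.volume_Icc_pi]
        simp only [Pi.zero_apply, sub_zero, Finset.prod_const, Finset.card_univ, Fintype.card_fin]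
        rw [← ENNReal.ofReal_pow hs, ← ENNReal.ofReal_mul (by positivity), ← pow_add, add_comm,
          card_off]

lemma low_pow (m : ℕ) : ∃ c : ℝ, 0 < c ∧ ∀ s : ℝ, 0 < s → ∃ Ω : Set (Fin m → ℝ),
    MeasurableSet Ω ∧ (∀ y ∈ Ω, ‖y‖ < s ∧ StrictMono (Fin.cons 0 y : Fin (m + 1) → ℝ)) ∧
      ENNReal.ofReal (c * s ^ (m * (m + 3) / 2)) ≤ ∫⁻ y in Ω, ENNReal.ofReal (Vd m y) := by
  refine ⟨(1 / (2 * (m + 1) : ℝ)) ^ (m * (m + 3) / 2), by positivity, fun s hs => ?_⟩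
  obtain ⟨a, ha⟩ : ∃ a : ℝ, a = s / (2 * (m + 1)) := ⟨_, rfl⟩
  have ha0 : 0 < a := by rw [ha]; positivity
  have has : 2 * ((m : ℝ) + 1) * a = s := by
    rw [ha]
    field_simp
  obtain ⟨Ω, hΩ⟩ : ∃ Ω : Set (Fin m → ℝ), Ω = Set.pi univ fun i : Fin m =>
    Ioo ((2 * (i : ℝ) + 1) * a) ((2 * (i : ℝ) + 2) * a) := ⟨_, rfl⟩
  have hmem : ∀ y ∈ Ω, ∀ i : Fin m, (2 * (i : ℝ) + 1) * a < y i ∧ y i < (2 * (i : ℝ) + 2) * a := by
    intro y hy i
    rw [hΩ] at hy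
    exact hy i (mem_univ i)
  -- the bounds in terms of the extended sequence
  have hc : ∀ y ∈ Ω, ∀ k : Fin (m + 1), (2 * (k : ℝ) - 1) * a ≤
      (Fin.cons 0 y : Fin (m + 1) → ℝ) k ∧ (Fin.cons 0 y : Fin (m + 1) → ℝ) k ≤ 2 * (k : ℝ) * a := by
    intro y hy k
    refine Fin.cases ?_ (fun k => ?_) k
    · rw [Fin.cons_zero]
      simp only [Fin.val_zero, Nat.cast_zero, mul_zero, zero_mul, le_refl, and_true]
      nlinarith
    · rw [Fin.cons_succ]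
      obtain ⟨h1, h2⟩ := hmem y hy k
      rw [Fin.val_succ]
      push_cast
      constructor <;> nlinarith
  have hgap : ∀ y ∈ Ω, ∀ k k' : Fin (m + 1), k < k' → a ≤
      (Fin.cons 0 y : Fin (m + 1) → ℝ) k' - (Fin.cons 0 y : Fin (m + 1) → ℝ) k := by
    intro y hy k k' hk
    obtain ⟨h1, -⟩ := hc y hy k'
    obtain ⟨-, h2⟩ := hc y hy k
    have h3 : ((k : ℕ) : ℝ) + 1 ≤ ((k' : ℕ) : ℝ) := by
      have : (k : ℕ) + 1 ≤ (k' : ℕ) := hk
      exact_mod_cast this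
    nlinarith
  refine ⟨Ω, ?_, fun y hy => ⟨?_, ?_⟩, ?_⟩
  · rw [hΩ]
    exact MeasurableSet.univ_pi fun _ => measurableSet_Ioo
  · refine (pi_norm_lt_iff hs).2 fun i => ?_
    obtain ⟨h1, h2⟩ := hmem y hy i
    have h3 : ((i : ℕ) : ℝ) + 1 ≤ m := by exact_mod_cast i.2
    have h4 : (0 : ℝ) ≤ ((i : ℕ) : ℝ) := Nat.cast_nonneg _
    rw [Real.norm_eq_abs, abs_of_pos (lt_of_le_of_lt (by positivity) h1)]
    nlinarith
  · intro k k' hk
    have := hgap y hy k k' hk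
    linarith
  · have h1 : ∀ y ∈ Ω, ENNReal.ofReal (a ^ Fintype.card (Off m)) ≤ ENNReal.ofReal (Vd m y) := by
      intro y hy
      refine ENNReal.ofReal_le_ofReal ?_
      unfold Vd
      rw [← Finset.card_univ, ← Finset.prod_const]
      refine Finset.prod_le_prod (fun q _ => ha0.le) fun q _ => ?_
      have := hgap y hy _ _ q.2
      rw [abs_sub_comm]
      exact this.trans (le_abs_self _)
    have hm : MeasurableSet Ω := by
      rw [hΩ]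
      exact MeasurableSet.univ_pi fun _ => measurableSet_Ioo
    have hv : volume Ω = ENNReal.ofReal (a ^ m) := by
      rw [hΩ, Real.volume_pi_Ioo]
      have h2 : ∀ i : Fin m, ENNReal.ofReal ((2 * (i : ℝ) + 2) * a - (2 * (i : ℝ) + 1) * a) =
          ENNReal.ofReal a := fun i => by
        congr 1
        ring
      simp only [h2, Finset.prod_const, Finset.card_univ, Fintype.card_fin]
      rw [ENNReal.ofReal_pow ha0.le]
    calc ENNReal.ofReal ((1 / (2 * (m + 1) : ℝ)) ^ (m * (m + 3) / 2) * s ^ (m * (m + 3) / 2))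
        = ENNReal.ofReal (a ^ Fintype.card (Off m)) * volume Ω := by
          rw [hv, ← ENNReal.ofReal_mul (by positivity), ← pow_add,
            add_comm (Fintype.card (Off m)) m, card_off, ← mul_pow, ha]
          congr 2
          ring
      _ = ∫⁻ y in Ω, ENNReal.ofReal (a ^ Fintype.card (Off m)) := (setLIntegral_const _ _).symm
      _ ≤ _ := setLIntegral_mono' hm h1

/-- the Vandermonde determinant -/
lemma Vd_det (m : ℕ) (y : Fin m → ℝ) :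
    Vd m y = |(Matrix.vandermonde (Fin.cons 0 y : Fin (m + 1) → ℝ)).det| := by
  rw [Matrix.det_vandermonde, Finset.abs_prod]
  simp only [Finset.abs_prod]
  unfold Vd
  rw [Finset.prod_sigma']
  symm
  refine Finset.prod_bij (fun s hs => ⟨(s.1, s.2), Finset.mem_Ioi.1 (Finset.mem_sigma.1 hs).2⟩)
    (fun _ _ => Finset.mem_univ _) ?_ ?_ ?_
  · rintro ⟨i, j⟩ _ ⟨i', j'⟩ _ h
    simp only [Subtype.mk.injEq, Prod.mk.injEq] at h
    rw [h.1, h.2]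
  · rintro ⟨⟨i, j⟩, h⟩ _
    exact ⟨⟨i, j⟩, Finset.mem_sigma.2 ⟨Finset.mem_univ _, Finset.mem_Ioi.2 h⟩, rfl⟩
  · rintro ⟨i, j⟩ _
    simp only
    rw [abs_sub_comm]

end Pool.Agent.L5helper74.LR
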