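import Mathlib

/-!
# Level repulsion: derivatives of inverses, general facts
-/

set_option autoImplicit false
set_option linter.unusedSectionVars false

open Set Filter Topology

noncomputable section

namespace Pool.Agent.L5helper74.LR

variable {X Y H F : Type} [NormedAddCommGroup X] [NormedSpace ℝ X] [NormedAddCommGroup Y]
  [NormedSpace ℝ Y] [NormedAddCommGroup H] [NormedSpace ℝ H] [CompleteSpace H]
  [NormedAddCommGroup F] [NormedSpace ℝ F]

theorem gen_inv_ev {A : X → H →L[ℝ] F} {x₀ : X} (h : ContinuousAt A x₀)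
    (hi : (A x₀).IsInvertible) : (∀ᶠ x in 𝓝 x₀, (A x).IsInvertible) ∧
      ContinuousAt (fun x => (A x).inverse) x₀ := by
  constructor
  · have h1 : IsOpen (range ((↑) : (H ≃L[ℝ] F) → H →L[ℝ] F)) := ContinuousLinearEquiv.isOpen
    obtain ⟨M, hM⟩ := hi
    exact h.eventually_mem (h1.mem_nhds ⟨M, hM⟩)
  · exact (hi.contDiffAt_map_inverse (n := 1)).continuousAt.comp h

theorem gen_strict {A : X → H →L[ℝ] F} {A' : X →L[ℝ] H →L[ℝ] F} {x₀ : X}
    (h : HasStrictFDerivAt A A' x₀) (hi : (A x₀).IsInvertible) (f : F) :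
    ∃ U : X →L[ℝ] H, HasStrictFDerivAt (fun x => (A x).inverse f) U x₀ ∧
      ∀ δ, A x₀ (U δ) = -(A' δ ((A x₀).inverse f)) := by
  obtain ⟨R, hR⟩ : ∃ R : (H →L[ℝ] F) →L[ℝ] (F →L[ℝ] H),
      HasStrictFDerivAt ContinuousLinearMap.inverse R (A x₀) :=
    ⟨_, (hi.contDiffAt_map_inverse (n := 1)).hasStrictFDerivAt one_ne_zero⟩
  have h1 : HasStrictFDerivAt (fun x => (A x).inverse) (R.comp A') x₀ := hR.comp x₀ h
  have h2 := h1.clm_apply (hasStrictFDerivAt_const f x₀)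
  refine ⟨_, h2, fun δ => ?_⟩
  have h3 := h.hasFDerivAt.clm_apply h2.hasFDerivAt
  have h4 : (fun x => (A x) ((A x).inverse f)) =ᶠ[𝓝 x₀] fun _ => f := by
    filter_upwards [(gen_inv_ev h.continuousAt hi).1] with x hx
    exact hx.self_apply_inverse _
  have h5 := h3.unique ((hasFDerivAt_const f x₀).congr_of_eventuallyEq h4)
  have h6 := DFunLike.congr_fun h5 δ
  rw [_root_.add_apply, ContinuousLinearMap.comp_apply,
    ContinuousLinearMap.flip_apply, _root_.zero_apply] at h6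
  exact eq_neg_of_add_eq_zero_left h6

theorem gen_A (K : Y →L[ℝ] H →L[ℝ] F) {g : Y → Y} {g' : Y →L[ℝ] Y} {y₀ : Y}
    (hg : HasStrictFDerivAt g g' y₀) (a₀ c₀ : H →L[ℝ] F) (l₀ : ℝ) :
    ∃ A' : (Y × ℝ) →L[ℝ] (H →L[ℝ] F),
      HasStrictFDerivAt (fun q : Y × ℝ => a₀ - q.2 • K (g q.1) + c₀) A' (y₀, l₀) ∧
      ∀ δ v, A' δ v = -(l₀ • K (g' δ.1) v + δ.2 • K (g y₀) v) := by
  have h1 : HasStrictFDerivAt (fun q : Y × ℝ => K (g q.1))
      (K.comp (g'.comp (ContinuousLinearMap.fst ℝ Y ℝ))) (y₀, l₀) :=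
    K.hasStrictFDerivAt.comp _ (hg.comp (y₀, l₀) hasStrictFDerivAt_fst)
  have h2 : HasStrictFDerivAt (fun q : Y × ℝ => q.2) (ContinuousLinearMap.snd ℝ Y ℝ) (y₀, l₀) :=
    hasStrictFDerivAt_snd
  have h3 := ((h2.smul h1).const_sub a₀).add_const c₀
  refine ⟨_, h3, fun δ v => ?_⟩
  simp only [_root_.neg_apply, _root_.add_apply, _root_.smul_apply,
    ContinuousLinearMap.smulRight_apply, ContinuousLinearMap.comp_apply,
    ContinuousLinearMap.coe_fst', ContinuousLinearMap.coe_snd']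

end Pool.Agent.L5helper74.LR
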