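import Pool.Agent.L5helper74.LR.Sch
import Pool.Agent.L5helper74.LR.Gen

/-!
# Level repulsion: the Schur complement and its derivative
-/

set_option autoImplicit false
set_option linter.unusedSectionVars false
set_option synthInstance.maxHeartbeats 400000

open Set Filter Topology
open Pool.Agent.Y262.QE
open Pool.Agent.Q233.GLV (E_nonneg)

noncomputable section

namespace Pool.Agent.L5helper74.LR

variable {H : Type} [NormedAddCommGroup H] [InnerProductSpace ℝ H] [CompleteSpace H]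
  {a b : H →L[ℝ] H →L[ℝ] ℝ} {e : ℕ → H} {E : ℕ → ℝ} {n : ℕ} {p : Fin n → ℕ} {lam : ℝ}

/-- the solutions of the bordered equation -/
def um (a b : H →L[ℝ] H →L[ℝ] ℝ) (e : ℕ → H) (p : Fin n → ℕ)
    (q : (H →L[ℝ] H →L[ℝ] ℝ) × ℝ) (i : Fin n) : H :=
  (Af a b e p q).inverse (b (e (p i)))

/-- the Schur complement -/
def Sm (a b : H →L[ℝ] H →L[ℝ] ℝ) (e : ℕ → H) (p : Fin n → ℕ)
    (q : (H →L[ℝ] H →L[ℝ] ℝ) × ℝ) (i j : Fin n) : ℝ :=
  (if i = j then 1 else 0) - b (e (p i)) (um a b e p q j)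

/-- the eigenvectors `e (p i)` are the ones for the eigenvalue `lam` -/
structure Cl (a b : H →L[ℝ] H →L[ℝ] ℝ) (e : ℕ → H) (E : ℕ → ℝ) (p : Fin n → ℕ) (lam : ℝ) :
    Prop where
  F : Fm a b
  g : Eg a b e E
  l0 : 0 ≤ lam
  inj : Function.Injective p
  p : ∀ j, E j = lam ↔ ∃ i, p i = j

lemma Af_symm (hF : Fm a b) {q : (H →L[ℝ] H →L[ℝ] ℝ) × ℝ} (hq : ∀ u v, q.1 u v = q.1 v u)
    (u v : H) : Af a b e p q u v = Af a b e p q v u := by
  rw [Af_apply, Af_apply, hF.sa u v, hq u v]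
  congr 1
  exact Finset.sum_congr rfl fun i _ => mul_comm _ _

lemma Af_inv (hC : Cl a b e E p lam) : (Af a b e p (b, lam)).IsInvertible := by
  obtain ⟨C, hC0, h⟩ := inv2 hC.F hC.g hC.l0 hC.inj hC.p
  refine isInv _ (Af_symm hC.F (q := (b, lam)) hC.F.sb) (C := C) fun g => ?_
  refine h g _ (norm_nonneg _) fun ψ => ?_
  rw [← Real.norm_eq_abs]
  exact (Af a b e p (b, lam) g).le_opNorm ψ

lemma um_at (hC : Cl a b e E p lam) (i : Fin n) : um a b e p (b, lam) i = e (p i) := by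
  unfold um
  rw [(Af_inv hC).inverse_apply_eq]
  ext ψ
  rw [Af_apply]
  simp only [hC.g.eig, hC.g.orth, hC.inj.eq_iff]
  rw [(hC.p (p i)).2 ⟨i, rfl⟩]
  simp

lemma Sm_at (hC : Cl a b e E p lam) (i j : Fin n) : Sm a b e p (b, lam) i j = 0 := by
  unfold Sm
  rw [um_at hC, hC.g.orth]
  simp [hC.inj.eq_iff]

lemma Sm_symm (hC : Cl a b e E p lam) {q : (H →L[ℝ] H →L[ℝ] ℝ) × ℝ}
    (hq : ∀ u v, q.1 u v = q.1 v u) (hi : (Af a b e p q).IsInvertible) (i j : Fin n) :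
    Sm a b e p q i j = Sm a b e p q j i := by
  unfold Sm um
  rw [if_congr (eq_comm (a := i) (b := j)) rfl rfl]
  congr 1
  have h1 : ∀ i j, b (e (p i)) ((Af a b e p q).inverse (b (e (p j)))) =
      Af a b e p q ((Af a b e p q).inverse (b (e (p i))))
        ((Af a b e p q).inverse (b (e (p j)))) := by
    intro i j
    rw [hi.self_apply_inverse]
  rw [h1, h1 j i, Af_symm hC.F hq]

variable {Y : Type} [NormedAddCommGroup Y] [NormedSpace ℝ Y] {K : Y →L[ℝ] H →L[ℝ] H →L[ℝ] ℝ}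
  {g : Y → Y} {g' : Y →L[ℝ] Y} {φ₀ : Y}

/-- the derivative of the Schur complement -/
theorem Sm_strict (hC : Cl a b e E p lam) (hg : HasStrictFDerivAt g g' φ₀)
    (hb : K (g φ₀) = b) (i j : Fin n) :
    ∃ D : (Y × ℝ) →L[ℝ] ℝ,
      HasStrictFDerivAt (fun q : Y × ℝ => Sm a b e p (K (g q.1), q.2) i j) D (φ₀, lam) ∧
      ∀ δ, D δ = -(lam * K (g' δ.1) (e (p j)) (e (p i)) + δ.2 * if i = j then 1 else 0) := by
  obtain ⟨A', hA', hA'2⟩ := gen_A K hg a (Pj b e p) lam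
  have h0 : (fun q : Y × ℝ => a - q.2 • K (g q.1) + Pj b e p) =
      fun q : Y × ℝ => Af a b e p (K (g q.1), q.2) := rfl
  rw [h0] at hA'
  have hi : (Af a b e p (K (g (φ₀, lam).1), (φ₀, lam).2)).IsInvertible := by
    simp only [hb]
    exact Af_inv hC
  obtain ⟨U, hU, hU2⟩ := gen_strict hA' hi (b (e (p j)))
  refine ⟨-((b (e (p i))).comp U), ?_, fun δ => ?_⟩
  · unfold Sm um
    exact (((b (e (p i))).hasStrictFDerivAt.comp _ hU).const_sub _)
  · have h7 := DFunLike.congr_fun (hU2 δ) (e (p i))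
    simp only [hb] at h7
    have h8 : (Af a b e p (b, lam)).inverse (b (e (p j))) = e (p j) := um_at hC j
    rw [h8, Af_symm hC.F (q := (b, lam)) hC.F.sb,
      ← (Af_inv hC).inverse_apply_eq.1 (um_at hC i)] at h7
    have h9 : b (e (p i)) (U δ) = -(A' δ (e (p j)) (e (p i))) := h7
    rw [_root_.neg_apply, ContinuousLinearMap.comp_apply, h9, hA'2, hb]
    simp only [_root_.neg_apply, _root_.add_apply, _root_.smul_apply, smul_eq_mul,
      hC.g.orth, hC.inj.eq_iff]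
    rw [if_congr (eq_comm (a := j) (b := i)) rfl rfl, neg_neg]

end Pool.Agent.L5helper74.LR
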