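import Pool.Agent.L5helper74.LR.Ift

/-!
# Level repulsion: the effective matrix of a cluster
-/

set_option autoImplicit false
set_option linter.unusedSectionVars false
set_option synthInstance.maxHeartbeats 400000

open Set Filter Topology
open Pool.Agent.Y262.QE

noncomputable section

namespace Pool.Agent.L5helper74.LR

variable {H : Type} [NormedAddCommGroup H] [InnerProductSpace ℝ H] [CompleteSpace H]
  {a b : H →L[ℝ] H →L[ℝ] ℝ} {e : ℕ → H} {E : ℕ → ℝ} {n : ℕ} {p : Fin n → ℕ} {lam : ℝ}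
  {Y : Type} [NormedAddCommGroup Y] [NormedSpace ℝ Y] [CompleteSpace Y]
  {K : Y →L[ℝ] H →L[ℝ] H →L[ℝ] ℝ} {g : Y → Y} {g' : Y →L[ℝ] Y} {φ₀ : Y}

theorem eff (hC : Cl a b e E p lam) (hg : HasStrictFDerivAt g g' φ₀) (hb : K (g φ₀) = b)
    (hs : ∀ φ u v, K (g φ) u v = K (g φ) v u) :
    ∃ (w : Y → Fin n → H) (N : Y → Fin n → Fin n → ℝ) (N' : Y →L[ℝ] (Fin n → Fin n → ℝ)),
      HasStrictFDerivAt N N' φ₀ ∧
      (∀ h i j, N' h i j = -(lam * K (g' h) (e (p i)) (e (p j)))) ∧
      (N φ₀ = fun i j => if i = j then lam else 0) ∧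
      ∀ᶠ φ in 𝓝 φ₀, (∀ i v, a (w φ i) v = ∑ j, N φ i j * K (g φ) (w φ j) v) ∧
        ∀ i j, K (g φ) (w φ i) (w φ j) = if i = j then 1 else 0 := by
  obtain ⟨w₀, hw₀⟩ : ∃ w₀ : Fin n → H, w₀ = fun i => e (p i) := ⟨_, rfl⟩
  obtain ⟨N₀, hN₀⟩ : ∃ N₀ : Fin n → Fin n → ℝ, N₀ = fun i j => if i = j then lam else 0 :=
    ⟨_, rfl⟩
  obtain ⟨D1, hD1, hD1f⟩ := gen_e1 (F := H →L[ℝ] ℝ) K hg a w₀ N₀
  obtain ⟨D2, hD2, hD2f⟩ := gen_e2 K hg (fun i => b (e (p i))) w₀ N₀
  have hf := hD1.prodMk hD2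
  obtain ⟨f, hfdef⟩ : ∃ f : Y × ((Fin n → H) × (Fin n → Fin n → ℝ)) →
      (Fin n → H →L[ℝ] ℝ) × (Fin n → Fin n → ℝ), f = fun q =>
      ((fun i => a (q.2.1 i) - ∑ j, q.2.2 i j • K (g q.1) (q.2.1 j)),
        fun i j => K (g q.1) (q.2.1 i) (q.2.1 j) - (if i = j then 1 else 0) +
          (b (e (p j)) (q.2.1 i) - b (e (p i)) (q.2.1 j))) := ⟨_, rfl⟩
  have hf' : HasStrictFDerivAt f (D1.prod D2) (φ₀, (w₀, N₀)) := by
    rw [hfdef]
    exact hf
  have hlam : ∀ l, E (p l) = lam := fun l => (hC.p (p l)).2 ⟨l, rfl⟩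
  have hbe : ∀ i j, b (e (p i)) (e (p j)) = if i = j then 1 else 0 := by
    intro i j
    rw [hC.g.orth]
    simp [hC.inj.eq_iff]
  have hf0 : f (φ₀, (w₀, N₀)) = 0 := by
    rw [hfdef]
    refine Prod.ext ?_ ?_
    · funext i
      ext v
      simp only [hw₀, hN₀, hb, _root_.sub_apply, sum_apply, _root_.smul_apply, smul_eq_mul,
        ite_mul, zero_mul, Finset.sum_ite_eq, Finset.mem_univ, if_true, hC.g.eig, hlam,
        Prod.fst_zero, Pi.zero_apply, _root_.zero_apply, sub_self]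
    · funext i j
      simp only [hw₀, hb, hbe, Prod.snd_zero, Pi.zero_apply, sub_self, zero_add]
      rw [if_congr (eq_comm (a := j) (b := i)) rfl rfl, sub_self]
  -- the partial derivative
  obtain ⟨P, hP⟩ : ∃ P : ((Fin n → H) × (Fin n → Fin n → ℝ)) →L[ℝ]
      ((Fin n → H →L[ℝ] ℝ) × (Fin n → Fin n → ℝ)),
      P = (D1.prod D2) ∘L ContinuousLinearMap.inr ℝ Y ((Fin n → H) × (Fin n → Fin n → ℝ)) :=
    ⟨_, rfl⟩
  have hP1 : ∀ d i, (P d).1 i = a (d.1 i) - lam • b (d.1 i) - ∑ j, d.2 i j • b (e (p j)) := by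
    intro d i
    have h1 : (P d).1 i = D1 (0, d) i := by rw [hP]; rfl
    rw [h1, hD1f]
    simp only [hN₀, hb, hw₀, map_zero, _root_.zero_apply, add_zero, Finset.sum_add_distrib,
      ite_smul, zero_smul, Finset.sum_ite_eq, Finset.mem_univ, if_true]
    abel
  have hP2 : ∀ d i j, (P d).2 i j = 2 * b (e (p j)) (d.1 i) := by
    intro d i j
    have h1 : (P d).2 i j = D2 (0, d) i j := by rw [hP]; rfl
    rw [h1, hD2f]
    simp only [hb, hw₀, map_zero, _root_.zero_apply, add_zero]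
    rw [hC.F.sb (d.1 i)]
    ring
  have hA := Af_inv hC
  have hAe : ∀ u l, Af a b e p (b, lam) u (e (p l)) = b (e (p l)) u := by
    intro u l
    rw [Af_e hC.F hC.g hC.inj hC.p, if_pos (hlam l), one_mul, hC.F.sb]
  have hAf : ∀ u, Af a b e p (b, lam) u = a u - lam • b u + ∑ i, (b (e (p i)) u) • b (e (p i)) := by
    intro u
    ext v
    rw [Af_apply]
    simp only [_root_.add_apply, _root_.sub_apply, _root_.smul_apply, smul_eq_mul, sum_apply]
  have hPinv : P.IsInvertible := by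
    have hinj : Function.Injective P := by
      refine (injective_iff_map_eq_zero P).2 fun d hd => ?_
      have h1 : ∀ i j, b (e (p j)) (d.1 i) = 0 := by
        intro i j
        have := hP2 d i j
        rw [hd] at this
        simp only [Prod.snd_zero, Pi.zero_apply] at this
        linarith
      have h2 : ∀ i l, d.2 i l = 0 := by
        intro i l
        have := DFunLike.congr_fun (hP1 d i) (e (p l))
        rw [hd] at this
        simp only [Prod.fst_zero, Pi.zero_apply, _root_.zero_apply, _root_.sub_apply,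
          _root_.smul_apply, smul_eq_mul, sum_apply, hbe, mul_ite, mul_one, mul_zero,
          Finset.sum_ite_eq', Finset.mem_univ, if_true] at this
        rw [hC.F.sa, hC.g.eig, hlam, hC.F.sb (d.1 i)] at this
        linarith
      have h3 : ∀ i, d.1 i = 0 := by
        intro i
        refine hA.injective ?_
        rw [map_zero, hAf]
        have := hP1 d i
        rw [hd] at this
        simp only [h2, zero_smul, Finset.sum_const_zero, sub_zero] at this
        rw [← this]
        simp [h1]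
      exact Prod.ext (funext h3) (funext fun i => funext (h2 i))
    have hsurj : Function.Surjective P := by
      intro y
      obtain ⟨d, hd⟩ : ∃ d : Fin n → H, ∀ i, Af a b e p (b, lam) (d i) =
          y.1 i + ∑ j, (-(y.1 i (e (p j))) + y.2 i j / 2) • b (e (p j)) := by
        choose d hd using fun i => hA.surjective
          (y.1 i + ∑ j, (-(y.1 i (e (p j))) + y.2 i j / 2) • b (e (p j)))
        exact ⟨d, hd⟩
      have h1 : ∀ i l, b (e (p l)) (d i) = y.2 i l / 2 := by
        intro i l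
        rw [← hAe, hd]
        simp only [_root_.add_apply, sum_apply, _root_.smul_apply, smul_eq_mul, hbe, mul_ite,
          mul_one, mul_zero, Finset.sum_ite_eq', Finset.mem_univ, if_true]
        ring
      refine ⟨(d, fun i j => -(y.1 i (e (p j)))), Prod.ext (funext fun i => ?_)
        (funext fun i => funext fun j => ?_)⟩
      · rw [hP1]
        have h2 := hd i
        rw [hAf] at h2
        simp only [h1] at h2
        have h3 : a (d i) - lam • b (d i) = y.1 i +
            (∑ j, (-(y.1 i (e (p j))) + y.2 i j / 2) • b (e (p j)) -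
              ∑ j, (y.2 i j / 2) • b (e (p j))) := by
          rw [← add_sub_assoc, ← h2]
          abel
        rw [h3, ← Finset.sum_sub_distrib, add_sub_assoc, ← Finset.sum_sub_distrib]
        have h4 : ∑ j, ((-(y.1 i (e (p j))) + y.2 i j / 2) • b (e (p j)) -
            (y.2 i j / 2) • b (e (p j)) - (-(y.1 i (e (p j)))) • b (e (p j))) = 0 :=
          Finset.sum_eq_zero fun j _ => by rw [add_smul]; abel
        rw [h4, add_zero]
      · rw [hP2, h1]
        ring
    exact ⟨ContinuousLinearEquiv.ofBijective P (LinearMap.ker_eq_bot.2 hinj)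
      (LinearMap.range_eq_top.2 hsurj), ContinuousLinearEquiv.coe_ofBijective _ _ _⟩
  rw [hP] at hPinv
  obtain ⟨ψ, hψ⟩ : ∃ ψ, ψ = hf'.implicitFunctionOfProdDomain hPinv := ⟨_, rfl⟩
  have h1 := hf'.hasStrictFDerivAt_implicitFunctionOfProdDomain hPinv
  have h2 := hf'.eventually_apply_implicitFunctionOfProdDomain hPinv
  have h3 := (hf'.eventually_apply_eq_iff_implicitFunctionOfProdDomain hPinv).self_of_nhds.1 rfl
  rw [← hψ] at h1 h2 h3
  rw [← hP] at h1 hPinv
  obtain ⟨Ψ, hΨ, hΨP⟩ : ∃ Ψ : Y →L[ℝ] ((Fin n → H) × (Fin n → Fin n → ℝ)),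
      HasStrictFDerivAt ψ Ψ φ₀ ∧ ∀ h, P (Ψ h) = -((D1.prod D2) (h, 0)) := by
    refine ⟨_, h1, fun h => ?_⟩
    simp only [_root_.neg_apply, ContinuousLinearMap.comp_apply, map_neg,
      hPinv.self_apply_inverse, ContinuousLinearMap.inl_apply]
  refine ⟨fun φ => (ψ φ).1, fun φ => (ψ φ).2,
    (ContinuousLinearMap.snd ℝ (Fin n → H) (Fin n → Fin n → ℝ)).comp Ψ, hΨ.snd, ?_, ?_, ?_⟩
  · intro h i l
    have h4 := DFunLike.congr_fun (congrFun (congrArg Prod.fst (hΨP h)) i) (e (p l))
    rw [hP1] at h4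
    have h5 : (-((D1.prod D2) (h, 0))).1 i = -(D1 (h, 0) i) := rfl
    rw [h5, hD1f] at h4
    simp only [hN₀, hw₀, hb, _root_.sub_apply, _root_.smul_apply, smul_eq_mul,
      sum_apply, hbe, mul_ite, mul_one, mul_zero, Finset.sum_ite_eq', Finset.mem_univ, if_true,
      Prod.fst_zero, Prod.snd_zero, Pi.zero_apply, map_zero, zero_add,
      ite_smul, zero_smul, Finset.sum_ite_eq, add_zero, zero_sub, neg_neg] at h4
    rw [hC.F.sa, hC.g.eig, hlam, hC.F.sb (_ : H) (e (p l))] at h4
    have h6 : ((ContinuousLinearMap.snd ℝ (Fin n → H) (Fin n → Fin n → ℝ)).comp Ψ) h i l =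
        (Ψ h).2 i l := rfl
    rw [h6]
    linarith
  · show (ψ φ₀).2 = _
    have h4 : ψ φ₀ = (w₀, N₀) := h3
    rw [h4, hN₀]
  · filter_upwards [h2] with φ hφ
    have h4 : f (φ, ψ φ) = 0 := by
      rw [hφ]
      exact hf0
    rw [hfdef] at h4
    constructor
    · intro i v
      have h5 := DFunLike.congr_fun (congrFun (congrArg Prod.fst h4) i) v
      simp only [_root_.sub_apply, sum_apply, _root_.smul_apply, smul_eq_mul, Prod.fst_zero,
        Pi.zero_apply, _root_.zero_apply] at h5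
      linarith
    · intro i j
      have h5 := congrFun (congrFun (congrArg Prod.snd h4) i) j
      have h6 := congrFun (congrFun (congrArg Prod.snd h4) j) i
      simp only [Prod.snd_zero, Pi.zero_apply] at h5 h6
      rw [if_congr (eq_comm (a := j) (b := i)) rfl rfl, hs φ _ ((ψ φ).1 i)] at h6
      linarith

end Pool.Agent.L5helper74.LR
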