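import Pool.Agent.Q233.GLV.Frm
import Pool.Agent.L5helper74.LR.Eff

/-!
# Level repulsion: the forms depend smoothly on the metric
-/

set_option autoImplicit false
set_option linter.unusedSectionVars false
set_option synthInstance.maxHeartbeats 400000

open Set Filter Topology MeasureTheory
open Pool.Agent.Y262.QE Pool.Agent.Y264.QR Pool.Agent.Q233.GLV

noncomputable section

namespace Pool.Agent.L5helper74.LR

variable {M : Type} [MetricSpace M] [CompactSpace M] [MeasurableSpace M] [BorelSpace M]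

lemma gen_mk {Y F : Type} [NormedAddCommGroup Y] [NormedSpace ℝ Y] [NormedAddCommGroup F]
    [NormedSpace ℝ F] (J : Y →ₗ[ℝ] F) (C : ℝ) (h : ∀ f, ‖J f‖ ≤ C * ‖f‖) :
    ∃ K : Y →L[ℝ] F, ∀ f, K f = J f :=
  ⟨J.mkContinuous C h, fun _ => rfl⟩

lemma ex_eq (φ : C(M, ℝ)) : Pool.Agent.Q233.GLV.ex φ = NormedSpace.exp φ := by
  ext x
  obtain ⟨F, hF⟩ : ∃ F : C(M, ℝ) →+* ℝ, ∀ f, F f = f x :=
    ⟨⟨⟨⟨fun f => f x, rfl⟩, fun _ _ => rfl⟩, rfl, fun _ _ => rfl⟩, fun _ => rfl⟩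
  have hFc : Continuous F := by
    have : (F : C(M, ℝ) → ℝ) = fun f => f x := funext hF
    rw [this]
    fun_prop
  have h1 := NormedSpace.map_exp F hFc φ
  rw [hF, hF] at h1
  rw [h1, ← Real.exp_eq_exp_ℝ]
  rfl

lemma ex_strict (φ₀ : C(M, ℝ)) : ∃ g' : C(M, ℝ) →L[ℝ] C(M, ℝ),
    HasStrictFDerivAt (Pool.Agent.Q233.GLV.ex : C(M, ℝ) → C(M, ℝ)) g' φ₀ ∧
      ∀ h, g' h = Pool.Agent.Q233.GLV.ex φ₀ * h := by
  refine ⟨NormedSpace.exp φ₀ • (1 : C(M, ℝ) →L[ℝ] C(M, ℝ)), ?_, fun h => ?_⟩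
  · have h1 := hasStrictFDerivAt_exp (𝕂 := ℝ) (x := φ₀)
    have h2 : (Pool.Agent.Q233.GLV.ex : C(M, ℝ) → C(M, ℝ)) = NormedSpace.exp := funext ex_eq
    rw [h2]
    exact h1
  · rw [ex_eq]
    rfl

variable {μ : Measure M} [IsFiniteMeasure μ] {H : Type} [NormedAddCommGroup H]
  [InnerProductSpace ℝ H] {i : H →L[ℝ] Lp ℝ 2 μ} {a : H →L[ℝ] H →L[ℝ] ℝ}
  {b : C(M, ℝ) → H →L[ℝ] H →L[ℝ] ℝ}

/-- the linear dependence of the form on the conformal factor -/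
lemma kf_clm (hS : Sf μ i a) (hB : IsB μ i b) :
    ∃ K : C(M, ℝ) →L[ℝ] H →L[ℝ] H →L[ℝ] ℝ, ∀ f, K f = kf b f := by
  obtain ⟨K, hK⟩ : ∃ K : C(M, ℝ) →ₗ[ℝ] H →L[ℝ] H →L[ℝ] ℝ, ∀ f, K f = kf b f := by
    refine ⟨⟨⟨kf b, ?_⟩, ?_⟩, fun _ => rfl⟩
    · intro f g
      ext u w
      have := kf_lin hB f g 1 1 u w
      rw [one_smul, one_smul, one_mul, one_mul] at this
      exact this
    · intro c f
      ext u w
      have := kf_lin hB f 0 c 0 u w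
      rw [zero_smul, add_zero, zero_mul, add_zero] at this
      exact this
  obtain ⟨K', hK'⟩ := gen_mk (F := H →L[ℝ] H →L[ℝ] ℝ) K 1 fun f => by
    rw [one_mul, hK]
    refine ContinuousLinearMap.opNorm_le_bound₂ _ (norm_nonneg _) fun u w => ?_
    rw [Real.norm_eq_abs]
    exact kf_bd' hS hB f u w
  exact ⟨K', fun f => (hK' f).trans (hK f)⟩

/-- the area -/
lemma area_strict (μ : Measure M) [IsFiniteMeasure μ] (φ₀ : C(M, ℝ)) :
    ∃ A' : C(M, ℝ) →L[ℝ] ℝ,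
      HasStrictFDerivAt (fun φ : C(M, ℝ) => ∫ x, Real.exp (φ x) ∂μ) A' φ₀ := by
  obtain ⟨g', hg', -⟩ := ex_strict φ₀
  obtain ⟨I, hI⟩ : ∃ I : C(M, ℝ) →L[ℝ] ℝ, ∀ f, I f = ∫ x, f x ∂μ := by
    obtain ⟨J, hJ⟩ : ∃ J : C(M, ℝ) →ₗ[ℝ] ℝ, ∀ f, J f = ∫ x, f x ∂μ := by
      refine ⟨⟨⟨fun f => ∫ x, f x ∂μ, ?_⟩, ?_⟩, fun _ => rfl⟩
      · intro f g
        exact integral_add (f.continuous.integrable_of_hasCompactSupport
          (HasCompactSupport.of_compactSpace _)) (g.continuous.integrable_of_hasCompactSupport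
          (HasCompactSupport.of_compactSpace _))
      · intro c f
        exact integral_const_mul c _
    refine ⟨J.mkContinuous (μ.real univ) fun f => ?_, fun f => hJ f⟩
    rw [hJ, mul_comm]
    exact norm_integral_le_of_norm_le_const (Eventually.of_forall fun x => f.norm_coe_le_norm x)
  refine ⟨I.comp g', ?_⟩
  have h1 := I.hasStrictFDerivAt.comp φ₀ hg'
  have h2 : (fun φ : C(M, ℝ) => I (Pool.Agent.Q233.GLV.ex φ)) =
      fun φ : C(M, ℝ) => ∫ x, Real.exp (φ x) ∂μ := funext fun φ => hI _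
  rwa [h2] at h1

end Pool.Agent.L5helper74.LR
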