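import Mathlib

/-!
# Level repulsion: nondegenerate Gaussian measures
-/

set_option autoImplicit false
set_option linter.unusedSectionVars false

open Set Filter Topology MeasureTheory ProbabilityTheory
open scoped ENNReal NNReal MatrixOrder

noncomputable section

namespace Pool.Agent.L5helper74.LR

variable {ι : Type} [Fintype ι] [DecidableEq ι]

lemma mat_norm {S : Matrix ι ι ℝ} (hS : S.PosDef) :
    ∃ T : Matrix ι ι ℝ, T * S * T.transpose = 1 := by
  have h1 : CFC.sqrt S * CFC.sqrt S = S :=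
    CFC.sqrt_mul_sqrt_self S (Matrix.nonneg_iff_posSemidef.2 hS.posSemidef)
  have h2 : (CFC.sqrt S).transpose = CFC.sqrt S := by
    have := (Matrix.nonneg_iff_posSemidef.1 (CFC.sqrt_nonneg S)).isHermitian
    rwa [Matrix.IsHermitian, Matrix.conjTranspose_eq_transpose_of_trivial] at this
  have h3 : IsUnit (CFC.sqrt S).det := by
    rw [isUnit_iff_ne_zero]
    intro h
    have h4 := congrArg Matrix.det h1
    rw [Matrix.det_mul, h, mul_zero] at h4
    exact hS.det_pos.ne h4
  refine ⟨(CFC.sqrt S)⁻¹, ?_⟩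
  rw [Matrix.transpose_nonsing_inv, h2]
  calc (CFC.sqrt S)⁻¹ * S * (CFC.sqrt S)⁻¹
      = (CFC.sqrt S)⁻¹ * (CFC.sqrt S * CFC.sqrt S) * (CFC.sqrt S)⁻¹ := by rw [h1]
    _ = ((CFC.sqrt S)⁻¹ * CFC.sqrt S) * (CFC.sqrt S * (CFC.sqrt S)⁻¹) := by
        simp only [Matrix.mul_assoc]
    _ = 1 := by rw [Matrix.nonsing_inv_mul _ h3, Matrix.mul_nonsing_inv _ h3, mul_one]

lemma pi_mono {μ ν : ι → Measure ℝ} (h : ∀ i, μ i ≤ ν i) : Measure.pi μ ≤ Measure.pi ν := by
  have h1 : OuterMeasure.pi (fun i => (μ i).toOuterMeasure) ≤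
      OuterMeasure.pi (fun i => (ν i).toOuterMeasure) := by
    refine OuterMeasure.le_pi.2 fun s _ => ?_
    refine (OuterMeasure.pi_pi_le _ s).trans ?_
    exact Finset.prod_le_prod' fun i _ => h i (s i)
  refine Measure.le_iff.2 fun s hs => ?_
  rw [Measure.pi_def, Measure.pi_def, toMeasure_apply _ _ hs, toMeasure_apply _ _ hs]
  exact h1 s

lemma pi_smul {μ : ι → Measure ℝ} [∀ i, IsFiniteMeasure (μ i)] (c : ℝ≥0) :
    Measure.pi (fun i => c • μ i) = c ^ Fintype.card ι • Measure.pi μ := by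
  refine Measure.pi_eq fun s _ => ?_
  simp only [Measure.smul_apply, Measure.pi_pi]
  simp only [ENNReal.smul_def, smul_eq_mul, Finset.prod_mul_distrib, Finset.prod_const]
  simp

lemma pdf_le (m x : ℝ) : gaussianPDFReal m 1 x ≤ 1 := by
  rw [gaussianPDFReal]
  have h1 : Real.exp (-(x - m) ^ 2 / (2 * ((1 : ℝ≥0) : ℝ))) ≤ 1 := by
    rw [Real.exp_le_one_iff]
    have : 0 ≤ (x - m) ^ 2 := sq_nonneg _
    have h2 : (0 : ℝ) < 2 * ((1 : ℝ≥0) : ℝ) := by norm_num
    exact div_nonpos_of_nonpos_of_nonneg (by linarith) h2.le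
  have h2 : (Real.sqrt (2 * Real.pi * ((1 : ℝ≥0) : ℝ)))⁻¹ ≤ 1 := by
    refine inv_le_one_of_one_le₀ ?_
    rw [Real.one_le_sqrt]
    have := Real.pi_gt_three
    norm_num
    linarith
  calc _ ≤ (1 : ℝ) * 1 := mul_le_mul h2 h1 (Real.exp_nonneg _) zero_le_one
    _ = 1 := one_mul _

lemma gr_le (m : ℝ) : gaussianReal m 1 ≤ volume := by
  rw [gaussianReal_of_var_ne_zero _ one_ne_zero]
  calc volume.withDensity (gaussianPDF m 1) ≤ volume.withDensity 1 := by
        refine withDensity_mono (Eventually.of_forall fun x => ?_)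
        rw [gaussianPDF]
        simpa using ENNReal.ofReal_le_ofReal (pdf_le m x)
    _ = volume := withDensity_one

lemma gr_ge (m R : ℝ) : ∃ k : ℝ≥0, volume.restrict (Icc (-R) R) ≤ k • gaussianReal m 1 := by
  obtain ⟨c, hc, hcx⟩ : ∃ c : ℝ, 0 < c ∧ ∀ x ∈ Icc (-R) R, c ≤ gaussianPDFReal m 1 x := by
    refine ⟨(Real.sqrt (2 * Real.pi * ((1 : ℝ≥0) : ℝ)))⁻¹ *
      Real.exp (-(|R| + |m|) ^ 2 / (2 * ((1 : ℝ≥0) : ℝ))), ?_, fun x hx => ?_⟩
    · have := Real.pi_pos
      positivity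
    · rw [gaussianPDFReal]
      refine mul_le_mul_of_nonneg_left (Real.exp_le_exp.2 ?_) (by positivity)
      refine div_le_div_of_nonneg_right ?_ (by norm_num)
      refine neg_le_neg ?_
      refine sq_le_sq' ?_ ?_
      · have h1 := neg_abs_le m
        have h2 := le_abs_self m
        have h3 := le_abs_self R
        linarith [hx.1]
      · have h1 := neg_abs_le m
        have h2 := le_abs_self m
        have h3 := le_abs_self R
        linarith [hx.2]
  refine ⟨Real.toNNReal c⁻¹, ?_⟩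
  refine Measure.le_iff.2 fun s hs => ?_
  rw [Measure.restrict_apply hs, Measure.smul_apply, gaussianReal_of_var_ne_zero _ one_ne_zero,
    withDensity_apply _ hs]
  have h1 : ENNReal.ofReal c * volume (s ∩ Icc (-R) R) ≤ ∫⁻ x in s, gaussianPDF m 1 x := by
    calc ENNReal.ofReal c * volume (s ∩ Icc (-R) R)
        = ∫⁻ _ in s ∩ Icc (-R) R, ENNReal.ofReal c := by rw [setLIntegral_const]
      _ ≤ ∫⁻ x in s ∩ Icc (-R) R, gaussianPDF m 1 x := by
          refine setLIntegral_mono (measurable_gaussianPDF m 1) fun x hx => ?_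
          exact ENNReal.ofReal_le_ofReal (hcx x hx.2)
      _ ≤ _ := lintegral_mono_set inter_subset_left
  calc volume (s ∩ Icc (-R) R) = ENNReal.ofReal c⁻¹ * (ENNReal.ofReal c *
        volume (s ∩ Icc (-R) R)) := by
        rw [← mul_assoc, ← ENNReal.ofReal_mul (by positivity), inv_mul_cancel₀ hc.ne',
          ENNReal.ofReal_one, one_mul]
    _ ≤ ENNReal.ofReal c⁻¹ * ∫⁻ x in s, gaussianPDF m 1 x := mul_le_mul_right h1 _
    _ = _ := rfl

/-- upper and lower bound for the density of a standard normal vector -/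
lemma pi_bounds (m : ι → ℝ) : Measure.pi (fun i => gaussianReal (m i) 1) ≤ volume ∧
    ∀ R : ℝ, ∃ c : ℝ≥0∞, c ≠ 0 ∧ ∀ A : Set (ι → ℝ), MeasurableSet A →
      c * volume (A ∩ {t | ‖t‖ ≤ R}) ≤ Measure.pi (fun i => gaussianReal (m i) 1) A := by
  constructor
  · exact pi_mono fun i => gr_le (m i)
  · intro R
    choose k hk using fun i => gr_ge (m i) R
    obtain ⟨K, hK1, hK⟩ : ∃ K : ℝ≥0, K ≠ 0 ∧ ∀ i, k i ≤ K := by
      refine ⟨1 + ∑ i, k i, by positivity, fun i => ?_⟩
      exact (Finset.single_le_sum (f := k) (fun _ _ => zero_le) (Finset.mem_univ i)).trans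
        le_add_self
    refine ⟨((K : ℝ≥0∞) ^ Fintype.card ι)⁻¹, ?_, fun A hA => ?_⟩
    · exact ENNReal.inv_ne_zero.2 (ENNReal.pow_ne_top ENNReal.coe_ne_top)
    · have h1 : Measure.pi (fun _ : ι => (volume : Measure ℝ).restrict (Icc (-R) R)) ≤
          Measure.pi (fun i => K • gaussianReal (m i) 1) := by
        refine pi_mono fun i => (hk i).trans ?_
        refine Measure.le_iff.2 fun s _ => ?_
        rw [Measure.smul_apply, Measure.smul_apply]
        exact smul_le_smul_of_nonneg_right (hK i) zero_le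
      rw [pi_smul, ← Measure.restrict_pi_pi, ← volume_pi] at h1
      have h2 := h1 A
      rw [Measure.restrict_apply hA, Measure.smul_apply] at h2
      have h3 : A ∩ {t : ι → ℝ | ‖t‖ ≤ R} ⊆ A ∩ Set.pi univ fun _ => Icc (-R) R := by
        rintro t ⟨h4, h5⟩
        refine ⟨h4, fun i _ => ?_⟩
        have h6 := (norm_le_pi_norm t i).trans h5
        exact abs_le.1 h6
      have h4 : (K : ℝ≥0∞) ^ Fintype.card ι ≠ 0 := by
        exact pow_ne_zero _ (ENNReal.coe_ne_zero.2 hK1)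
      rw [ENNReal.inv_mul_le_iff h4 (ENNReal.pow_ne_top ENNReal.coe_ne_top)]
      refine (measure_mono h3).trans (h2.trans ?_)
      rw [ENNReal.smul_def, smul_eq_mul, ENNReal.coe_pow]

end Pool.Agent.L5helper74.LR
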