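import Pool.Agent.L5helper74.LR.Gau

/-!
# Level repulsion: disintegration of a Gaussian measure along finitely many directions
-/

set_option autoImplicit false
set_option linter.unusedSectionVars false

open Set Filter Topology MeasureTheory ProbabilityTheory
open scoped ENNReal NNReal MatrixOrder

noncomputable section

namespace Pool.Agent.L5helper74.LR

variable {X : Type} [NormedAddCommGroup X] [NormedSpace ℝ X] [CompleteSpace X]
  [SecondCountableTopology X] [MeasurableSpace X] [BorelSpace X] (P : Measure X) [IsGaussian P]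

lemma cov_dir (α : StrongDual ℝ X) : ∃ h : X, ∀ L : StrongDual ℝ X,
    L h = covarianceBilinDual P α L := by
  obtain ⟨m, hm⟩ : ∃ m : X, m = P[id] := ⟨_, rfl⟩
  have h2 : MemLp id 2 P := IsGaussian.memLp_two_id
  have h1 : MemLp (fun x : X => x - m) 2 P := h2.sub (memLp_const m)
  have h3 : MemLp (fun x : X => α (x - m)) 2 P := α.comp_memLp' h1
  have h4 : Integrable (fun x : X => α (x - m) • (x - m)) P := by
    rw [← memLp_one_iff_integrable]
    exact h1.smul h3
  refine ⟨∫ x, α (x - m) • (x - m) ∂P, fun L => ?_⟩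
  rw [covarianceBilinDual_apply' h2, ← L.integral_comp_comm h4, ← hm]
  refine integral_congr_ae (Eventually.of_forall fun x => ?_)
  simp only [map_smul, smul_eq_mul]

variable {ι : Type} [Fintype ι] [DecidableEq ι]

/-- an orthonormal system of functionals in the span of `L` -/
lemma ortho (hP : ∀ L : StrongDual ℝ X, L ≠ 0 → Var[L; P] ≠ 0) {L : ι → StrongDual ℝ X}
    (hL : LinearIndependent ℝ L) : ∃ T : Matrix ι ι ℝ, ∀ i j,
      covarianceBilinDual P (∑ k, T i k • L k) (∑ k, T j k • L k) = if i = j then 1 else 0 := by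
  have h2 : MemLp id 2 P := IsGaussian.memLp_two_id
  obtain ⟨S, hS⟩ : ∃ S : Matrix ι ι ℝ, S = Matrix.of fun i j => covarianceBilinDual P (L i) (L j) :=
    ⟨_, rfl⟩
  have hbil : ∀ x y : ι → ℝ, covarianceBilinDual P (∑ k, x k • L k) (∑ k, y k • L k) =
      ∑ i, ∑ j, x i * (S i j * y j) := by
    intro x y
    rw [map_sum (covarianceBilinDual P), sum_apply]
    refine Finset.sum_congr rfl fun i _ => ?_
    rw [map_sum]
    refine Finset.sum_congr rfl fun j _ => ?_
    rw [map_smul, map_smul, _root_.smul_apply, hS, Matrix.of_apply, smul_eq_mul, smul_eq_mul]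
    ring
  have hpos : S.PosDef := by
    refine Matrix.PosDef.of_dotProduct_mulVec_pos ?_ fun x hx => ?_
    · rw [Matrix.IsHermitian, Matrix.conjTranspose_eq_transpose_of_trivial]
      ext i j
      rw [Matrix.transpose_apply, hS, Matrix.of_apply, Matrix.of_apply,
        covarianceBilinDual_comm]
    · have h3 : star x ⬝ᵥ S.mulVec x = ∑ i, ∑ j, x i * (S i j * x j) := by
        simp only [dotProduct, Matrix.mulVec, Pi.star_apply, star_trivial, Finset.mul_sum]
      rw [h3, ← hbil, covarianceBilinDual_self_eq_variance h2]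
      refine lt_of_le_of_ne (variance_nonneg _ _) (Ne.symm (hP _ fun h0 => hx ?_))
      exact funext (Fintype.linearIndependent_iff.1 hL x h0)
  obtain ⟨T, hT⟩ := mat_norm hpos
  refine ⟨T, fun i j => ?_⟩
  rw [hbil]
  have h3 := congrFun (congrFun hT i) j
  rw [Matrix.one_apply, Matrix.mul_assoc, Matrix.mul_apply] at h3
  rw [← h3]
  refine Finset.sum_congr rfl fun k _ => ?_
  rw [Matrix.mul_apply, Finset.mul_sum]
  rfl

/-- the disintegration -/
theorem gau (hP : ∀ L : StrongDual ℝ X, L ≠ 0 → Var[L; P] ≠ 0) {L : ι → StrongDual ℝ X}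
    (hL : LinearIndependent ℝ L) : ∃ h : ι → X,
      (∀ t : ι → ℝ, (∀ i, L i (∑ a, t a • h a) = 0) → t = 0) ∧
      (∀ A : Set X, MeasurableSet A → ∀ D : ℝ≥0∞,
        (∀ x, volume {t : ι → ℝ | x + ∑ a, t a • h a ∈ A} ≤ D) → P A ≤ D) ∧
      ∀ R : ℝ, ∃ c : ℝ≥0∞, c ≠ 0 ∧ ∀ A V : Set X, MeasurableSet A → MeasurableSet V →
        (∀ x ∈ V, ‖x‖ ≤ R) → ∀ D : ℝ≥0∞,
        (∀ x ∈ V, D ≤ volume {t : ι → ℝ | ‖t‖ ≤ R ∧ x + ∑ a, t a • h a ∈ A}) →
        c * D * P V ≤ P A := by
  have h2 : MemLp id 2 P := IsGaussian.memLp_two_id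
  obtain ⟨T, hT⟩ := ortho P hP hL
  obtain ⟨α, hα⟩ : ∃ α : ι → StrongDual ℝ X, α = fun i => ∑ k, T i k • L k := ⟨_, rfl⟩
  have hαα : ∀ i j, covarianceBilinDual P (α i) (α j) = if i = j then 1 else 0 := by
    intro i j
    rw [hα]
    exact hT i j
  choose h hh using fun i => cov_dir P (α i)
  have hαh : ∀ i j, α i (h j) = if i = j then 1 else 0 := by
    intro i j
    rw [hh, hαα]
    exact if_congr eq_comm rfl rfl
  -- the two components
  obtain ⟨A₀, hA₀⟩ : ∃ A₀ : X →L[ℝ] (ι → ℝ), ∀ x i, A₀ x i = α i x :=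
    ⟨ContinuousLinearMap.pi α, fun _ _ => rfl⟩
  obtain ⟨Hm, hHm⟩ : ∃ Hm : (ι → ℝ) →L[ℝ] X, ∀ t, Hm t = ∑ a, t a • h a :=
    ⟨∑ a, (ContinuousLinearMap.proj (R := ℝ) (φ := fun _ : ι => ℝ) a).smulRight (h a), fun t => by
      simp [ContinuousLinearMap.smulRight_apply]⟩
  obtain ⟨Yc, hYc⟩ : ∃ Yc : X →L[ℝ] X, Yc = ContinuousLinearMap.id ℝ X - Hm.comp A₀ := ⟨_, rfl⟩
  have hYx : ∀ x, Yc x + Hm (A₀ x) = x := by
    intro x
    rw [hYc]
    simp
  have hA₀H : ∀ t, A₀ (Hm t) = t := by
    intro t
    funext i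
    rw [hA₀, hHm, map_sum]
    simp [hαh]
  -- the law of the second component
  have hlaw : P.map A₀ = Measure.pi (fun i => gaussianReal (P[α i]) 1) := by
    have h3 : HasGaussianLaw (fun x i => α i x) P := by
      refine ⟨?_⟩
      have : (fun x i => α i x) = A₀ := by
        funext x i
        exact (hA₀ x i).symm
      rw [this]
      infer_instance
    have h4 : iIndepFun (fun i => (α i : X → ℝ)) P := by
      refine HasGaussianLaw.iIndepFun_of_covariance_eq_zero h3 fun i j hij => ?_
      rw [← covarianceBilinDual_eq_covariance h2, hαα, if_neg hij]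
    have h5 := (iIndepFun_iff_map_fun_eq_pi_map fun i =>
      (α i).continuous.measurable.aemeasurable).1 h4
    have h6 : (A₀ : X → ι → ℝ) = fun x i => α i x := by
      funext x i
      exact hA₀ x i
    rw [h6, h5]
    congr 1
    funext i
    rw [IsGaussian.map_eq_gaussianReal, ← covarianceBilinDual_self_eq_variance h2, hαα,
      if_pos rfl]
    simp
  have hind : IndepFun Yc A₀ P := by
    have h3 : HasGaussianLaw (fun x => (Yc x, A₀ x)) P := by
      refine ⟨?_⟩
      have : (fun x => (Yc x, A₀ x)) = (Yc.prod A₀ : X →L[ℝ] X × (ι → ℝ)) := rfl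
      rw [this]
      infer_instance
    refine h3.indepFun_of_covariance_strongDual fun L₁ L₂ => ?_
    have h4 : covarianceBilinDual P (L₁.comp Yc) (L₂.comp A₀) = 0 := by
      have h5 : L₂.comp A₀ = ∑ a, L₂ (Pi.single a 1) • α a := by
        ext x
        rw [ContinuousLinearMap.comp_apply, sum_apply]
        have h6 : A₀ x = ∑ a, α a x • (Pi.single a 1 : ι → ℝ) := by
          funext i
          rw [hA₀, Finset.sum_apply]
          simp [Pi.single_apply]
        rw [h6, map_sum]
        refine Finset.sum_congr rfl fun a _ => ?_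
        rw [map_smul, _root_.smul_apply, smul_eq_mul, smul_eq_mul, mul_comm]
      rw [h5, map_sum]
      refine Finset.sum_eq_zero fun a _ => ?_
      rw [map_smul, covarianceBilinDual_comm, ← hh, ContinuousLinearMap.comp_apply]
      have h6 : Yc (h a) = 0 := by
        have h7 : A₀ (h a) = Pi.single a 1 := by
          funext i
          rw [hA₀, hαh, Pi.single_apply]
        have h8 : Hm (Pi.single a 1) = h a := by
          rw [hHm]
          simp [Pi.single_apply]
        rw [hYc]
        simp [h7, h8]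
      rw [h6, map_zero, smul_zero]
    rw [covarianceBilinDual_eq_covariance h2] at h4
    exact h4
  have hYm : Measurable Yc := Yc.continuous.measurable
  have hAm : Measurable A₀ := A₀.continuous.measurable
  -- the formula
  have hform : ∀ A : Set X, MeasurableSet A → P A =
      ∫⁻ x, (P.map A₀) {s | Yc x + Hm s ∈ A} ∂P := by
    intro A hA
    have h3 : MeasurableSet {q : X × (ι → ℝ) | q.1 + Hm q.2 ∈ A} :=
      (measurable_fst.add (Hm.continuous.measurable.comp measurable_snd)) hA
    have h4 := (indepFun_iff_map_prod_eq_prod_map_map hYm.aemeasurable hAm.aemeasurable).1 hind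
    have h5 : P A = P.map (fun x => (Yc x, A₀ x)) {q : X × (ι → ℝ) | q.1 + Hm q.2 ∈ A} := by
      rw [Measure.map_apply (hYm.prodMk hAm) h3]
      congr 1
      ext x
      simp only [mem_preimage, mem_ofPred_eq, hYx]
    rw [h5, h4, Measure.prod_apply h3, lintegral_map (measurable_measure_prodMk_left h3) hYm]
    rfl
  have hshift : ∀ x (A : Set X), {s : ι → ℝ | Yc x + Hm s ∈ A} =
      (fun s => s - A₀ x) ⁻¹' {t | x + Hm t ∈ A} := by
    intro x A
    ext s
    simp only [mem_preimage, mem_ofPred_eq, map_sub]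
    have h3 : x + (Hm s - Hm (A₀ x)) = Yc x + Hm s := by
      calc x + (Hm s - Hm (A₀ x)) = (Yc x + Hm (A₀ x)) + (Hm s - Hm (A₀ x)) := by rw [hYx]
        _ = _ := by abel
    rw [h3]
  refine ⟨h, fun t ht => ?_, fun A hA D hD => ?_, fun R => ?_⟩
  · have h3 : A₀ (Hm t) = 0 := by
      funext i
      rw [hA₀, hα, hHm]
      simp only [sum_apply, _root_.smul_apply, ht, smul_zero, Finset.sum_const_zero,
        Pi.zero_apply]
    rw [hA₀H] at h3
    exact h3
  · rw [hform A hA]
    calc ∫⁻ x, (P.map A₀) {s | Yc x + Hm s ∈ A} ∂P ≤ ∫⁻ _, D ∂P := by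
          refine lintegral_mono fun x => ?_
          simp only [hlaw]
          refine ((pi_bounds _).1 _).trans ?_
          rw [hshift]
          simp only [sub_eq_add_neg]
          rw [measure_preimage_add_right]
          simp only [hHm]
          exact hD x
      _ = D := by simp
  · obtain ⟨c, hc, hcA⟩ := (pi_bounds fun i => P[α i]).2 (R + ‖A₀‖ * R)
    refine ⟨c, hc, fun A V hA hV hVR D hD => ?_⟩
    rw [hform A hA]
    calc c * D * P V = ∫⁻ _ in V, c * D ∂P := by rw [setLIntegral_const]
      _ ≤ ∫⁻ x in V, (P.map A₀) {s | Yc x + Hm s ∈ A} ∂P := by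
          refine setLIntegral_mono' hV fun x hx => ?_
          have h3 : MeasurableSet {s : ι → ℝ | Yc x + Hm s ∈ A} :=
            (measurable_const.add Hm.continuous.measurable) hA
          rw [hlaw]
          refine le_trans ?_ (hcA _ h3)
          refine mul_le_mul_right ((hD x hx).trans ?_) _
          rw [hshift]
          have h4 : (fun s => s - A₀ x) ⁻¹' {t : ι → ℝ | ‖t‖ ≤ R ∧ x + ∑ a, t a • h a ∈ A} ⊆
              (fun s => s - A₀ x) ⁻¹' {t | x + Hm t ∈ A} ∩ {t | ‖t‖ ≤ R + ‖A₀‖ * R} := by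
            rintro s ⟨h5, h6⟩
            refine ⟨?_, ?_⟩
            · simp only [mem_preimage, mem_ofPred_eq, hHm]
              exact h6
            · have h7 : ‖s‖ ≤ ‖s - A₀ x‖ + ‖A₀ x‖ := by
                have := norm_add_le (s - A₀ x) (A₀ x)
                rwa [sub_add_cancel] at this
              have h8 : ‖A₀ x‖ ≤ ‖A₀‖ * R :=
                (A₀.le_opNorm x).trans (mul_le_mul_of_nonneg_left (hVR x hx) (norm_nonneg _))
              exact h7.trans (add_le_add h5 h8)
          refine le_trans (le_of_eq ?_) (measure_mono h4)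
          simp only [sub_eq_add_neg]
          rw [measure_preimage_add_right]
      _ ≤ _ := setLIntegral_le_lintegral _ _

end Pool.Agent.L5helper74.LR
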