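import Pool.Agent.L5helper74.LR.Gau2

/-!
# Level repulsion: a nondegenerate Gaussian measure has full support
-/

set_option autoImplicit false
set_option linter.unusedSectionVars false

open Set Filter Topology MeasureTheory ProbabilityTheory
open scoped ENNReal NNReal

noncomputable section

namespace Pool.Agent.L5helper74.LR

variable {X : Type} [NormedAddCommGroup X] [NormedSpace ℝ X] [CompleteSpace X]
  [SecondCountableTopology X] [MeasurableSpace X] [BorelSpace X] (P : Measure X) [IsGaussian P]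

/-- the support is invariant under translations in a direction which a given functional sees -/
lemma supp_dir (hP : ∀ L : StrongDual ℝ X, L ≠ 0 → Var[L; P] ≠ 0) (L : StrongDual ℝ X)
    (hL : L ≠ 0) : ∃ h : X, L h ≠ 0 ∧ ∀ x ∈ P.support, ∀ s : ℝ, x + s • h ∈ P.support := by
  have hLi : LinearIndependent ℝ (fun _ : Fin 1 => L) := by
    rw [Fintype.linearIndependent_iff]
    intro g hg i
    have h1 : g 0 • L = 0 := by simpa using hg
    have := (smul_eq_zero.1 h1).resolve_right hL
    rw [Subsingleton.elim i 0]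
    exact this
  obtain ⟨h, h1, -, h2⟩ := gau P hP hLi
  refine ⟨h 0, fun h0 => ?_, fun x hx s => ?_⟩
  · have h3 := h1 (fun _ => 1) fun i => by simp [h0]
    exact one_ne_zero (congrFun h3 0)
  · rw [Metric.nhds_basis_ball.mem_measureSupport] at hx ⊢
    intro r hr
    obtain ⟨δ, hδ⟩ : ∃ δ : ℝ, δ = r / (2 * (‖h 0‖ + 1)) := ⟨_, rfl⟩
    have hδ0 : 0 < δ := by rw [hδ]; positivity
    obtain ⟨c, hc, hcA⟩ := h2 (‖x‖ + r + |s| + δ)
    have h3 := hcA (Metric.ball (x + s • h 0) r) (Metric.ball x (r / 2)) measurableSet_ball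
      measurableSet_ball (fun y hy => ?_) (volume (Metric.ball (fun _ : Fin 1 => s) δ))
      (fun y hy => ?_)
    · refine lt_of_lt_of_le ?_ h3
      have h4 := hx (r / 2) (by positivity)
      have h5 : 0 < volume (Metric.ball (fun _ : Fin 1 => s) δ) := Metric.measure_ball_pos _ _ hδ0
      exact pos_iff_ne_zero.2 (mul_ne_zero (mul_ne_zero hc h5.ne') h4.ne')
    · have h4 : ‖y‖ ≤ ‖y - x‖ + ‖x‖ := by
        have := norm_add_le (y - x) x
        rwa [sub_add_cancel] at this
      have h5 : ‖y - x‖ < r / 2 := by rwa [mem_ball_iff_norm] at hy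
      have := abs_nonneg s
      linarith
    · refine measure_mono fun t ht => ?_
      have h6 : ‖t - fun _ => s‖ < δ := by rwa [mem_ball_iff_norm] at ht
      have h7 : |t 0 - s| < δ := (norm_le_pi_norm (t - fun _ => s) 0).trans_lt h6
      refine ⟨?_, ?_⟩
      · refine (pi_norm_le_iff_of_nonneg (by positivity)).2 fun i => ?_
        rw [Subsingleton.elim i 0]
        have h8 : |t 0| ≤ |t 0 - s| + |s| := by
          have := abs_add_le (t 0 - s) s
          rwa [sub_add_cancel] at this
        rw [Real.norm_eq_abs]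
        have := norm_nonneg x
        linarith
      · rw [mem_ball_iff_norm]
        have h8 : y + ∑ a : Fin 1, t a • h a - (x + s • h 0) = (y - x) + (t 0 - s) • h 0 := by
          rw [Fin.sum_univ_one, sub_smul]
          abel
        rw [h8]
        have h5 : ‖y - x‖ < r / 2 := by rwa [mem_ball_iff_norm] at hy
        have h9 : ‖(t 0 - s) • h 0‖ ≤ r / 2 := by
          rw [norm_smul, Real.norm_eq_abs]
          calc |t 0 - s| * ‖h 0‖ ≤ δ * (‖h 0‖ + 1) :=
                mul_le_mul h7.le (by linarith) (norm_nonneg _) hδ0.le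
            _ = r / 2 := by rw [hδ]; field_simp
        exact (norm_add_le _ _).trans_lt (by linarith)

theorem supp_univ (hP : ∀ L : StrongDual ℝ X, L ≠ 0 → Var[L; P] ≠ 0) (x : X) {V : Set X}
    (hV : V ∈ 𝓝 x) : 0 < P V := by
  obtain ⟨Z, hZ⟩ : ∃ Z : Submodule ℝ X, ∀ z, z ∈ Z ↔
      ∀ y ∈ P.support, ∀ s : ℝ, y + s • z ∈ P.support := by
    refine ⟨⟨⟨⟨{z | ∀ y ∈ P.support, ∀ s : ℝ, y + s • z ∈ P.support}, ?_⟩, ?_⟩, ?_⟩,
      fun _ => Iff.rfl⟩
    · intro a b ha hb y hy s
      rw [smul_add, ← add_assoc]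
      exact hb _ (ha y hy s) s
    · intro y hy s
      rw [smul_zero, add_zero]
      exact hy
    · intro c a ha y hy s
      rw [smul_smul]
      exact ha y hy _
  have hZc : IsClosed (Z : Set X) := by
    have h1 : (Z : Set X) = ⋂ y ∈ P.support, ⋂ s : ℝ, (fun z => y + s • z) ⁻¹' P.support := by
      ext z
      simp only [SetLike.mem_coe, hZ, mem_iInter, mem_preimage]
    rw [h1]
    exact isClosed_biInter fun y _ => isClosed_iInter fun s =>
      Measure.isClosed_support.preimage (by fun_prop)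
  have hZt : Z = ⊤ := by
    by_contra hcon
    obtain ⟨w, hw⟩ : ∃ w, w ∉ Z := by
      by_contra h
      push Not at h
      exact hcon (Submodule.eq_top_iff'.2 h)
    obtain ⟨L, hL1, hL2⟩ : ∃ L : StrongDual ℝ X, (∀ z ∈ Z, L z = 0) ∧ L w ≠ 0 := by
      obtain ⟨f, u, hf1, hf2⟩ := geometric_hahn_banach_closed_point (s := (Z : Set X))
        Z.convex hZc hw
      have hu : 0 < u := by
        have := hf1 0 Z.zero_mem
        rwa [map_zero] at this
      refine ⟨f, fun z hz => ?_, (hu.trans hf2).ne'⟩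
      by_contra hne
      have h1 := hf1 _ (Z.smul_mem (u / f z) hz)
      rw [map_smul, smul_eq_mul, div_mul_cancel₀ _ hne] at h1
      exact lt_irrefl _ h1
    obtain ⟨h, hLh, hh⟩ := supp_dir P hP L (fun h => hL2 (by rw [h]; rfl))
    exact hLh (hL1 h ((hZ h).2 hh))
  obtain ⟨y, hy⟩ := Measure.nonempty_support (IsProbabilityMeasure.ne_zero P)
  have h1 : x ∈ P.support := by
    have h2 : x - y ∈ Z := by rw [hZt]; trivial
    have := (hZ _).1 h2 y hy 1
    rwa [one_smul, add_sub_cancel] at this
  exact (Measure.mem_support_iff_forall x).1 h1 V hV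

end Pool.Agent.L5helper74.LR
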