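import Pool.Agent.L5helper74.LR.Dif

/-!
# Level repulsion: the equations for the invariant subspace
-/

set_option autoImplicit false
set_option linter.unusedSectionVars false
set_option synthInstance.maxHeartbeats 400000

open Set Filter Topology

noncomputable section

namespace Pool.Agent.L5helper74.LR

section gen

variable {Y H F : Type} [NormedAddCommGroup Y] [NormedSpace ℝ Y]
  [NormedAddCommGroup H] [NormedSpace ℝ H] [NormedAddCommGroup F] [NormedSpace ℝ F] {n : ℕ}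

lemma gen_w (i : Fin n) (x : Y × ((Fin n → H) × (Fin n → Fin n → ℝ))) :
    ∃ D : (Y × ((Fin n → H) × (Fin n → Fin n → ℝ))) →L[ℝ] H,
      HasStrictFDerivAt (fun q : Y × ((Fin n → H) × (Fin n → Fin n → ℝ)) => q.2.1 i) D x ∧
      ∀ δ, D δ = δ.2.1 i := by
  obtain ⟨P, hP⟩ : ∃ P : (Y × ((Fin n → H) × (Fin n → Fin n → ℝ))) →L[ℝ] H,
      ∀ q, P q = q.2.1 i :=
    ⟨(ContinuousLinearMap.proj (R := ℝ) (φ := fun _ : Fin n => H) i).comp
      ((ContinuousLinearMap.fst ℝ (Fin n → H) (Fin n → Fin n → ℝ)).comp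
        (ContinuousLinearMap.snd ℝ Y ((Fin n → H) × (Fin n → Fin n → ℝ)))), fun _ => rfl⟩
  refine ⟨P, ?_, hP⟩
  have := P.hasStrictFDerivAt (x := x)
  have e1 : (P : Y × ((Fin n → H) × (Fin n → Fin n → ℝ)) → H) = fun q => q.2.1 i := funext hP
  rwa [e1] at this

lemma gen_N (i j : Fin n) (x : Y × ((Fin n → H) × (Fin n → Fin n → ℝ))) :
    ∃ D : (Y × ((Fin n → H) × (Fin n → Fin n → ℝ))) →L[ℝ] ℝ,
      HasStrictFDerivAt (fun q : Y × ((Fin n → H) × (Fin n → Fin n → ℝ)) => q.2.2 i j) D x ∧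
      ∀ δ, D δ = δ.2.2 i j := by
  obtain ⟨P, hP⟩ : ∃ P : (Y × ((Fin n → H) × (Fin n → Fin n → ℝ))) →L[ℝ] ℝ,
      ∀ q, P q = q.2.2 i j :=
    ⟨(ContinuousLinearMap.proj (R := ℝ) (φ := fun _ : Fin n => ℝ) j).comp
        ((ContinuousLinearMap.proj (R := ℝ) (φ := fun _ : Fin n => Fin n → ℝ) i).comp
          ((ContinuousLinearMap.snd ℝ (Fin n → H) (Fin n → Fin n → ℝ)).comp
            (ContinuousLinearMap.snd ℝ Y ((Fin n → H) × (Fin n → Fin n → ℝ))))), fun _ => rfl⟩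
  refine ⟨P, ?_, hP⟩
  have := P.hasStrictFDerivAt (x := x)
  have e1 : (P : Y × ((Fin n → H) × (Fin n → Fin n → ℝ)) → ℝ) = fun q => q.2.2 i j := funext hP
  rwa [e1] at this

lemma gen_K (K : Y →L[ℝ] H →L[ℝ] F) {g : Y → Y} {g' : Y →L[ℝ] Y} {y₀ : Y}
    (hg : HasStrictFDerivAt g g' y₀) (x : (Fin n → H) × (Fin n → Fin n → ℝ)) (j : Fin n) :
    ∃ D : (Y × ((Fin n → H) × (Fin n → Fin n → ℝ))) →L[ℝ] F,
      HasStrictFDerivAt (fun q : Y × ((Fin n → H) × (Fin n → Fin n → ℝ)) =>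
        K (g q.1) (q.2.1 j)) D (y₀, x) ∧
      ∀ δ, D δ = K (g y₀) (δ.2.1 j) + K (g' δ.1) (x.1 j) := by
  have hK : HasStrictFDerivAt (fun q : Y × ((Fin n → H) × (Fin n → Fin n → ℝ)) => K (g q.1))
      (K.comp (g'.comp (ContinuousLinearMap.fst ℝ Y _))) (y₀, x) :=
    K.hasStrictFDerivAt.comp _ (hg.comp (y₀, x) hasStrictFDerivAt_fst)
  obtain ⟨P, hP, hP2⟩ := gen_w (Y := Y) (H := H) j (y₀, x)
  refine ⟨_, hK.clm_apply hP, fun δ => ?_⟩
  rw [_root_.add_apply, ContinuousLinearMap.comp_apply, ContinuousLinearMap.flip_apply, hP2]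
  rfl

/-- the first equation: an invariant subspace -/
theorem gen_e1 (K : Y →L[ℝ] H →L[ℝ] F) {g : Y → Y} {g' : Y →L[ℝ] Y} {y₀ : Y}
    (hg : HasStrictFDerivAt g g' y₀) (a : H →L[ℝ] F) (w₀ : Fin n → H) (N₀ : Fin n → Fin n → ℝ) :
    ∃ D : (Y × ((Fin n → H) × (Fin n → Fin n → ℝ))) →L[ℝ] (Fin n → F),
      HasStrictFDerivAt (fun q : Y × ((Fin n → H) × (Fin n → Fin n → ℝ)) =>
        fun i => a (q.2.1 i) - ∑ j, q.2.2 i j • K (g q.1) (q.2.1 j)) D (y₀, (w₀, N₀)) ∧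
      ∀ δ i, D δ i = a (δ.2.1 i) - ∑ j, (N₀ i j • (K (g y₀) (δ.2.1 j) + K (g' δ.1) (w₀ j)) +
        δ.2.2 i j • K (g y₀) (w₀ j)) := by
  choose W hW hW2 using fun i => gen_w (Y := Y) (H := H) (n := n) i (y₀, (w₀, N₀))
  choose N hN hN2 using fun i j => gen_N (Y := Y) (H := H) (n := n) i j (y₀, (w₀, N₀))
  choose L hL hL2 using fun j => gen_K K hg (w₀, N₀) j
  have h1 : ∀ i, HasStrictFDerivAt (fun q : Y × ((Fin n → H) × (Fin n → Fin n → ℝ)) =>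
      a (q.2.1 i) - ∑ j, q.2.2 i j • K (g q.1) (q.2.1 j)) _ (y₀, (w₀, N₀)) := fun i =>
    (a.hasStrictFDerivAt.comp _ (hW i)).sub
      (HasStrictFDerivAt.fun_sum fun j (_ : j ∈ Finset.univ) => (hN i j).smul (hL j))
  refine ⟨_, hasStrictFDerivAt_pi.2 h1, fun δ i => ?_⟩
  simp only [ContinuousLinearMap.coe_pi', _root_.sub_apply, ContinuousLinearMap.comp_apply,
    sum_apply, _root_.add_apply, _root_.smul_apply, ContinuousLinearMap.smulRight_apply,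
    hW2, hN2, hL2]

/-- the second equation: an orthonormal frame -/
theorem gen_e2 (K : Y →L[ℝ] H →L[ℝ] H →L[ℝ] ℝ) {g : Y → Y} {g' : Y →L[ℝ] Y} {y₀ : Y}
    (hg : HasStrictFDerivAt g g' y₀) (β : Fin n → H →L[ℝ] ℝ) (w₀ : Fin n → H)
    (N₀ : Fin n → Fin n → ℝ) :
    ∃ D : (Y × ((Fin n → H) × (Fin n → Fin n → ℝ))) →L[ℝ] (Fin n → Fin n → ℝ),
      HasStrictFDerivAt (fun q : Y × ((Fin n → H) × (Fin n → Fin n → ℝ)) =>
        fun i j => K (g q.1) (q.2.1 i) (q.2.1 j) - (if i = j then 1 else 0) +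
          (β j (q.2.1 i) - β i (q.2.1 j))) D (y₀, (w₀, N₀)) ∧
      ∀ δ i j, D δ i j = K (g y₀) (w₀ i) (δ.2.1 j) + (K (g y₀) (δ.2.1 i) (w₀ j) +
        K (g' δ.1) (w₀ i) (w₀ j)) + (β j (δ.2.1 i) - β i (δ.2.1 j)) := by
  choose W hW hW2 using fun i => gen_w (Y := Y) (H := H) (n := n) i (y₀, (w₀, N₀))
  choose L hL hL2 using fun j => gen_K (F := H →L[ℝ] ℝ) K hg (w₀, N₀) j
  have h1 : ∀ i j, HasStrictFDerivAt (fun q : Y × ((Fin n → H) × (Fin n → Fin n → ℝ)) =>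
      K (g q.1) (q.2.1 i) (q.2.1 j) - (if i = j then 1 else 0) +
        (β j (q.2.1 i) - β i (q.2.1 j))) _ (y₀, (w₀, N₀)) := fun i j =>
    (((hL i).clm_apply (hW j)).sub_const _).add
      (((β j).hasStrictFDerivAt.comp _ (hW i)).sub ((β i).hasStrictFDerivAt.comp _ (hW j)))
  refine ⟨_, hasStrictFDerivAt_pi.2 fun i => hasStrictFDerivAt_pi.2 (h1 i), fun δ i j => ?_⟩
  simp only [ContinuousLinearMap.coe_pi', _root_.sub_apply, ContinuousLinearMap.comp_apply,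
    _root_.add_apply, ContinuousLinearMap.flip_apply, hW2, hL2]

end gen

end Pool.Agent.L5helper74.LR
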