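import Mathlib

/-!
# Level repulsion: volumes of slices
-/

set_option autoImplicit false
set_option linter.unusedSectionVars false

open Set Filter Topology MeasureTheory
open scoped ENNReal NNReal

noncomputable section

namespace Pool.Agent.L5helper74.LR

variable {Y : Type} [NormedAddCommGroup Y] [NormedSpace ℝ Y] {κ : Type} [Fintype κ]

lemma vol_anti {f : (κ → ℝ) → κ → ℝ} {T : Set (κ → ℝ)} {K : ℝ≥0}
    (h : ∀ t ∈ T, ∀ t' ∈ T, dist t t' ≤ K * dist (f t) (f t')) :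
    volume T ≤ (K : ℝ≥0∞) ^ Fintype.card κ * volume (f '' T) := by
  rcases T.eq_empty_or_nonempty with hT | hT
  · simp [hT]
  have : Nonempty (κ → ℝ) := ⟨hT.some⟩
  have hinj : InjOn f T := by
    intro t ht t' ht' he
    have := h t ht t' ht'
    rw [he, dist_self, mul_zero] at this
    exact dist_le_zero.1 this
  obtain ⟨g, hg⟩ : ∃ g, g = Function.invFunOn f T := ⟨_, rfl⟩
  have hgf : ∀ t ∈ T, g (f t) = t := by
    intro t ht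
    rw [hg]
    exact hinj.leftInvOn_invFunOn ht
  have h1 : g '' (f '' T) = T := by
    rw [image_image]
    ext t
    constructor
    · rintro ⟨t', ht', rfl⟩
      show g (f t') ∈ T
      rw [hgf t' ht']
      exact ht'
    · intro ht
      exact ⟨t, ht, hgf t ht⟩
  have h2 : LipschitzOnWith K g (f '' T) := by
    refine LipschitzOnWith.of_dist_le_mul ?_
    rintro _ ⟨t, ht, rfl⟩ _ ⟨t', ht', rfl⟩
    rw [hgf t ht, hgf t' ht']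
    exact h t ht t' ht'
  have h3 := h2.hausdorffMeasure_image_le (d := (Fintype.card κ : ℝ)) (by positivity)
  rw [h1, hausdorffMeasure_pi_real, ENNReal.rpow_natCast] at h3
  exact h3

variable {Mf : Y → κ → ℝ} {M' : Y →L[ℝ] (κ → ℝ)} {φ₀ : Y} {Hm : (κ → ℝ) →L[ℝ] Y}

lemma iso (hinj : ∀ t, M' (Hm t) = 0 → t = 0) : (M'.comp Hm).IsInvertible := by
  have h1 : Function.Injective (M'.comp Hm) := by
    refine (injective_iff_map_eq_zero _).2 fun t ht => hinj t ht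
  have h2 : Function.Surjective (M'.comp Hm) :=
    (LinearMap.injective_iff_surjective (f := ((M'.comp Hm : (κ → ℝ) →L[ℝ] (κ → ℝ)) :
      (κ → ℝ) →ₗ[ℝ] (κ → ℝ)))).1 h1
  exact ⟨ContinuousLinearEquiv.ofBijective _ (LinearMap.ker_eq_bot.2 h1)
    (LinearMap.range_eq_top.2 h2), ContinuousLinearEquiv.coe_ofBijective _ _ _⟩

/-- upper bound for slices -/
theorem slice_up (hM : HasStrictFDerivAt Mf M' φ₀) (hinj : ∀ t, M' (Hm t) = 0 → t = 0) :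
    ∃ U ∈ 𝓝 φ₀, ∃ C : ℝ≥0∞, C ≠ ⊤ ∧ ∀ x, ∀ T : Set (κ → ℝ), (∀ t ∈ T, x + Hm t ∈ U) →
      volume T ≤ C * volume ((fun t => Mf (x + Hm t)) '' T) := by
  obtain ⟨e, he⟩ := iso hinj
  obtain ⟨K, hK⟩ : ∃ K : ℝ, K = ‖(e.symm : (κ → ℝ) →L[ℝ] (κ → ℝ))‖ + 1 := ⟨_, rfl⟩
  have hK0 : 0 < K := by rw [hK]; positivity
  have h1 : ∀ t, ‖t‖ ≤ K * ‖M' (Hm t)‖ := by
    intro t
    have h2 : e.symm (M' (Hm t)) = t := by
      have h3 : M' (Hm t) = e t := by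
        have := DFunLike.congr_fun he t
        exact this.symm
      rw [h3, ContinuousLinearEquiv.symm_apply_apply]
    calc ‖t‖ = ‖(e.symm : (κ → ℝ) →L[ℝ] (κ → ℝ)) (M' (Hm t))‖ := by
          rw [ContinuousLinearEquiv.coe_coe, h2]
      _ ≤ ‖(e.symm : (κ → ℝ) →L[ℝ] (κ → ℝ))‖ * ‖M' (Hm t)‖ := ContinuousLinearMap.le_opNorm _ _
      _ ≤ K * ‖M' (Hm t)‖ := mul_le_mul_of_nonneg_right (by rw [hK]; linarith) (norm_nonneg _)
  obtain ⟨c, hc, hcK⟩ : ∃ c : ℝ≥0, 0 < c ∧ K * ((c : ℝ) * ‖Hm‖) ≤ 1 / 2 := by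
    have hc0 : 0 < 1 / (2 * K * (‖Hm‖ + 1)) := by positivity
    refine ⟨Real.toNNReal (1 / (2 * K * (‖Hm‖ + 1))), Real.toNNReal_pos.2 hc0, ?_⟩
    · rw [Real.coe_toNNReal _ hc0.le]
      rw [show K * (1 / (2 * K * (‖Hm‖ + 1)) * ‖Hm‖) = (1 / 2) * (‖Hm‖ / (‖Hm‖ + 1)) by
        field_simp]
      have : ‖Hm‖ / (‖Hm‖ + 1) ≤ 1 := by
        rw [div_le_one (by positivity)]
        linarith
      linarith
  obtain ⟨U, hU, hUa⟩ := hM.approximates_deriv_on_nhds (Or.inr hc)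
  refine ⟨U, hU, (Real.toNNReal (2 * K) : ℝ≥0∞) ^ Fintype.card κ,
    ENNReal.pow_ne_top ENNReal.coe_ne_top, fun x T hT => ?_⟩
  refine vol_anti fun t ht t' ht' => ?_
  rw [Real.coe_toNNReal _ (by positivity), dist_eq_norm, dist_eq_norm]
  have h2 := hUa _ (hT t ht) _ (hT t' ht')
  have h3 : x + Hm t - (x + Hm t') = Hm (t - t') := by
    rw [map_sub]
    abel
  rw [h3] at h2
  have h4 := h1 (t - t')
  have h5 : ‖M' (Hm (t - t'))‖ ≤ ‖Mf (x + Hm t) - Mf (x + Hm t')‖ + c * ‖Hm (t - t')‖ := by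
    have h6 : M' (Hm (t - t')) = (Mf (x + Hm t) - Mf (x + Hm t')) -
        (Mf (x + Hm t) - Mf (x + Hm t') - M' (Hm (t - t'))) := by abel
    calc ‖M' (Hm (t - t'))‖ = ‖(Mf (x + Hm t) - Mf (x + Hm t')) -
        (Mf (x + Hm t) - Mf (x + Hm t') - M' (Hm (t - t')))‖ := by rw [← h6]
      _ ≤ _ := (norm_sub_le _ _).trans (add_le_add le_rfl h2)
  have h6 : ‖Hm (t - t')‖ ≤ ‖Hm‖ * ‖t - t'‖ := Hm.le_opNorm _
  have h7 : ‖t - t'‖ ≤ K * ‖Mf (x + Hm t) - Mf (x + Hm t')‖ + 1 / 2 * ‖t - t'‖ := by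
    calc ‖t - t'‖ ≤ K * (‖Mf (x + Hm t) - Mf (x + Hm t')‖ + c * (‖Hm‖ * ‖t - t'‖)) := by
          refine h4.trans (mul_le_mul_of_nonneg_left (h5.trans ?_) hK0.le)
          exact add_le_add le_rfl (mul_le_mul_of_nonneg_left h6 c.2)
      _ = K * ‖Mf (x + Hm t) - Mf (x + Hm t')‖ + K * (c * ‖Hm‖) * ‖t - t'‖ := by ring
      _ ≤ _ := add_le_add le_rfl (mul_le_mul_of_nonneg_right hcK (norm_nonneg _))
  linarith

/-- lower bound for slices -/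
theorem slice_low [CompleteSpace Y] (hM : HasStrictFDerivAt Mf M' φ₀) (h0 : Mf φ₀ = 0)
    (hinj : ∀ t, M' (Hm t) = 0 → t = 0) {V : Set Y} (hV : V ∈ 𝓝 φ₀) :
    ∃ r : ℝ, 0 < r ∧ ∃ C : ℝ≥0∞, C ≠ ⊤ ∧ C ≠ 0 ∧ ∀ x ∈ Metric.ball φ₀ r, ∀ S : Set (κ → ℝ),
      (∀ u ∈ S, ‖u‖ < r) →
      volume S ≤ C * volume {t : κ → ℝ | ‖t‖ ≤ 1 ∧ x + Hm t ∈ V ∧ Mf (x + Hm t) ∈ S} := by
  obtain ⟨U, hU, hUa⟩ := hM.approximates_deriv_on_nhds (c := 1) (Or.inr one_pos)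
  have hL1 : 0 < (‖M'‖ + 1) * (‖Hm‖ + 1) := by positivity
  obtain ⟨L, hL⟩ : ∃ L : ℝ≥0, L = Real.toNNReal ((‖M'‖ + 1) * (‖Hm‖ + 1)) := ⟨_, rfl⟩
  have hL0 : L ≠ 0 := by
    rw [hL]
    exact (Real.toNNReal_pos.2 hL1).ne'
  -- the implicit function
  have hF : HasStrictFDerivAt (fun q : (Y × (κ → ℝ)) × (κ → ℝ) => Mf (q.1.1 + Hm q.2) - q.1.2)
      (M'.comp ((ContinuousLinearMap.fst ℝ Y (κ → ℝ)).comp
        (ContinuousLinearMap.fst ℝ (Y × (κ → ℝ)) (κ → ℝ)) +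
        Hm.comp (ContinuousLinearMap.snd ℝ (Y × (κ → ℝ)) (κ → ℝ))) -
        (ContinuousLinearMap.snd ℝ Y (κ → ℝ)).comp
          (ContinuousLinearMap.fst ℝ (Y × (κ → ℝ)) (κ → ℝ))) ((φ₀, 0), 0) := by
    have h1 : HasStrictFDerivAt (fun q : (Y × (κ → ℝ)) × (κ → ℝ) => q.1.1 + Hm q.2)
        ((ContinuousLinearMap.fst ℝ Y (κ → ℝ)).comp
        (ContinuousLinearMap.fst ℝ (Y × (κ → ℝ)) (κ → ℝ)) +
        Hm.comp (ContinuousLinearMap.snd ℝ (Y × (κ → ℝ)) (κ → ℝ))) ((φ₀, 0), 0) :=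
      ((ContinuousLinearMap.fst ℝ Y (κ → ℝ)).comp
        (ContinuousLinearMap.fst ℝ (Y × (κ → ℝ)) (κ → ℝ)) +
        Hm.comp (ContinuousLinearMap.snd ℝ (Y × (κ → ℝ)) (κ → ℝ))).hasStrictFDerivAt
    have h2 : HasStrictFDerivAt (fun q : (Y × (κ → ℝ)) × (κ → ℝ) => q.1.2)
        ((ContinuousLinearMap.snd ℝ Y (κ → ℝ)).comp
          (ContinuousLinearMap.fst ℝ (Y × (κ → ℝ)) (κ → ℝ))) ((φ₀, 0), 0) :=
      ((ContinuousLinearMap.snd ℝ Y (κ → ℝ)).comp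
          (ContinuousLinearMap.fst ℝ (Y × (κ → ℝ)) (κ → ℝ))).hasStrictFDerivAt
    have h3 : HasStrictFDerivAt Mf M' ((fun q : (Y × (κ → ℝ)) × (κ → ℝ) => q.1.1 + Hm q.2)
        ((φ₀, 0), 0)) := by
      simp only [map_zero, add_zero]
      exact hM
    exact (HasStrictFDerivAt.comp (g := Mf)
      (f := fun q : (Y × (κ → ℝ)) × (κ → ℝ) => q.1.1 + Hm q.2) ((φ₀, 0), 0) h3 h1).sub h2
  have hinv : ((M'.comp ((ContinuousLinearMap.fst ℝ Y (κ → ℝ)).comp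
        (ContinuousLinearMap.fst ℝ (Y × (κ → ℝ)) (κ → ℝ)) +
        Hm.comp (ContinuousLinearMap.snd ℝ (Y × (κ → ℝ)) (κ → ℝ))) -
        (ContinuousLinearMap.snd ℝ Y (κ → ℝ)).comp
          (ContinuousLinearMap.fst ℝ (Y × (κ → ℝ)) (κ → ℝ))) ∘L
        ContinuousLinearMap.inr ℝ (Y × (κ → ℝ)) (κ → ℝ)).IsInvertible := by
    have h1 : ((M'.comp ((ContinuousLinearMap.fst ℝ Y (κ → ℝ)).comp
        (ContinuousLinearMap.fst ℝ (Y × (κ → ℝ)) (κ → ℝ)) +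
        Hm.comp (ContinuousLinearMap.snd ℝ (Y × (κ → ℝ)) (κ → ℝ))) -
        (ContinuousLinearMap.snd ℝ Y (κ → ℝ)).comp
          (ContinuousLinearMap.fst ℝ (Y × (κ → ℝ)) (κ → ℝ))) ∘L
        ContinuousLinearMap.inr ℝ (Y × (κ → ℝ)) (κ → ℝ)) = M'.comp Hm := by
      ext t
      simp
    rw [h1]
    exact iso hinj
  obtain ⟨ψ, hψ⟩ : ∃ ψ, ψ = hF.implicitFunctionOfProdDomain hinv := ⟨_, rfl⟩
  have h1 := hF.tendsto_implicitFunctionOfProdDomain hinv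
  have h2 := hF.eventually_apply_implicitFunctionOfProdDomain hinv
  rw [← hψ] at h1 h2
  simp only [map_zero, add_zero, h0, sub_zero] at h1 h2
  have h3 : Tendsto (fun q : Y × (κ → ℝ) => q.1 + Hm (ψ q)) (𝓝 (φ₀, 0)) (𝓝 φ₀) := by
    have h4 : Tendsto (fun q : Y × (κ → ℝ) => q.1 + Hm (ψ q)) (𝓝 (φ₀, 0)) (𝓝 (φ₀ + Hm 0)) :=
      (continuous_fst.tendsto _).add ((Hm.continuous.tendsto _).comp h1)
    rwa [map_zero, add_zero] at h4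
  have h4 : ∀ᶠ q : Y × (κ → ℝ) in 𝓝 (φ₀, 0), ‖ψ q‖ ≤ 1 ∧ q.1 + Hm (ψ q) ∈ V ∧
      q.1 + Hm (ψ q) ∈ U ∧ Mf (q.1 + Hm (ψ q)) = q.2 := by
    filter_upwards [h1.eventually (Metric.ball_mem_nhds 0 one_pos), h3.eventually_mem hV,
      h3.eventually_mem hU, h2] with q h5 h6 h7 h8
    exact ⟨(mem_ball_zero_iff.1 h5).le, h6, h7, sub_eq_zero.1 h8⟩
  obtain ⟨r, hr, hr2⟩ := Metric.eventually_nhds_iff_ball.1 h4
  refine ⟨r, hr, (L : ℝ≥0∞) ^ Fintype.card κ, ENNReal.pow_ne_top ENNReal.coe_ne_top,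
    pow_ne_zero _ (ENNReal.coe_ne_zero.2 hL0), fun x hx S hS => ?_⟩
  have h5 : ∀ u ∈ S, ‖ψ (x, u)‖ ≤ 1 ∧ x + Hm (ψ (x, u)) ∈ V ∧
      x + Hm (ψ (x, u)) ∈ U ∧ Mf (x + Hm (ψ (x, u))) = u := by
    intro u hu
    refine hr2 (x, u) ?_
    rw [← ball_prod_same]
    exact ⟨hx, by rw [mem_ball_zero_iff]; exact hS u hu⟩
  have h6 : volume S ≤ (L : ℝ≥0∞) ^ Fintype.card κ * volume ((fun u => ψ (x, u)) '' S) := by
    refine vol_anti fun u hu u' hu' => ?_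
    obtain ⟨-, -, h7, h8⟩ := h5 u hu
    obtain ⟨-, -, h9, h10⟩ := h5 u' hu'
    have h11 := hUa _ h7 _ h9
    rw [h8, h10] at h11
    have h12 : x + Hm (ψ (x, u)) - (x + Hm (ψ (x, u'))) = Hm (ψ (x, u) - ψ (x, u')) := by
      rw [map_sub]
      abel
    rw [h12] at h11
    rw [dist_eq_norm, dist_eq_norm]
    have h13 : ‖u - u'‖ ≤ ‖M' (Hm (ψ (x, u) - ψ (x, u')))‖ +
        1 * ‖Hm (ψ (x, u) - ψ (x, u'))‖ := by
      have h14 : u - u' = M' (Hm (ψ (x, u) - ψ (x, u'))) +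
          (u - u' - M' (Hm (ψ (x, u) - ψ (x, u')))) := by abel
      calc ‖u - u'‖ = ‖M' (Hm (ψ (x, u) - ψ (x, u'))) +
          (u - u' - M' (Hm (ψ (x, u) - ψ (x, u'))))‖ := by rw [← h14]
        _ ≤ _ := (norm_add_le _ _).trans (add_le_add le_rfl h11)
    have h14 : ‖Hm (ψ (x, u) - ψ (x, u'))‖ ≤ (‖Hm‖ + 1) * ‖ψ (x, u) - ψ (x, u')‖ :=
      (Hm.le_opNorm _).trans (mul_le_mul_of_nonneg_right (by linarith) (norm_nonneg _))
    have h15 : (L : ℝ) = (‖M'‖ + 1) * (‖Hm‖ + 1) := by rw [hL, Real.coe_toNNReal _ hL1.le]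
    rw [h15]
    calc ‖u - u'‖ ≤ (‖M'‖ + 1) * ‖Hm (ψ (x, u) - ψ (x, u'))‖ := by
          refine h13.trans ?_
          rw [add_mul]
          exact add_le_add (M'.le_opNorm _) le_rfl
      _ ≤ (‖M'‖ + 1) * ((‖Hm‖ + 1) * ‖ψ (x, u) - ψ (x, u')‖) :=
          mul_le_mul_of_nonneg_left h14 (by positivity)
      _ = _ := by ring
  refine h6.trans (mul_le_mul_right (measure_mono ?_) _)
  rintro _ ⟨u, hu, rfl⟩
  obtain ⟨h7, h8, -, h10⟩ := h5 u hu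
  refine ⟨h7, h8, ?_⟩
  show Mf (x + Hm (ψ (x, u))) ∈ S
  rw [h10]
  exact hu

end Pool.Agent.L5helper74.LR
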