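import Pool.Agent.Y262.QE.Stm

/-!
# Level repulsion: the effective matrix is conjugate to the diagonal matrix of the eigenvalues
-/

set_option autoImplicit false
set_option linter.unusedSectionVars false

open Set Filter Topology
open Pool.Agent.Y262.QE

noncomputable section

namespace Pool.Agent.L5helper74.LR

variable {H : Type} [NormedAddCommGroup H] [InnerProductSpace ℝ H]
  {a B : H →L[ℝ] H →L[ℝ] ℝ} {e : ℕ → H} {E : ℕ → ℝ} {n : ℕ} {p : Fin n → ℕ} {lam : ℝ}

theorem conj (hF : Fm a B) (hE : Eg a B e E) (hpi : Function.Injective p) {w : Fin n → H}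
    {N : Fin n → Fin n → ℝ} (h1 : ∀ i v, a (w i) v = ∑ j, N i j * B (w j) v)
    (h2 : ∀ i j, B (w i) (w j) = if i = j then 1 else 0) {γ ρ : ℝ} (hργ : ρ < γ)
    (hN : ∀ i, ∑ j, |N i j - if i = j then lam else 0| ≤ ρ)
    (hne : ∀ j, (∀ i, p i ≠ j) → γ ≤ |E j - lam|) :
    ∃ V : Fin n → Fin n → ℝ, (∀ i k, ∑ j, V j i * V j k = if i = k then 1 else 0) ∧
      ∀ i k, N i k = ∑ j, E (p j) * (V j i * V j k) := by
  have h3 : ∀ j, (∀ i, p i ≠ j) → ∀ i, B (w i) (e j) = 0 := by
    intro j hj
    obtain ⟨y, hy⟩ : ∃ y : Fin n → ℝ, y = fun i => B (w i) (e j) := ⟨_, rfl⟩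
    have h4 : ∀ i, |E j - lam| * |y i| ≤ ρ * ‖y‖ := by
      intro i
      have h5 : (E j - lam) * y i = ∑ k, (N i k - if i = k then lam else 0) * y k := by
        have h6 := h1 i (e j)
        rw [hF.sa, hE.eig, hF.sb (e j)] at h6
        simp only [sub_mul, Finset.sum_sub_distrib, ite_mul, zero_mul, Finset.sum_ite_eq,
          Finset.mem_univ, if_true, hy]
        rw [h6]
      rw [← abs_mul, h5]
      refine (Finset.abs_sum_le_sum_abs _ _).trans ?_
      calc ∑ k, |(N i k - if i = k then lam else 0) * y k| ≤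
            ∑ k, |N i k - if i = k then lam else 0| * ‖y‖ := by
              refine Finset.sum_le_sum fun k _ => ?_
              rw [abs_mul]
              exact mul_le_mul_of_nonneg_left (norm_le_pi_norm y k) (abs_nonneg _)
        _ = (∑ k, |N i k - if i = k then lam else 0|) * ‖y‖ := by rw [Finset.sum_mul]
        _ ≤ ρ * ‖y‖ := mul_le_mul_of_nonneg_right (hN i) (norm_nonneg _)
    have h5 : ‖y‖ = 0 := by
      by_contra hcon
      have h6 : 0 < ‖y‖ := lt_of_le_of_ne (norm_nonneg _) (Ne.symm hcon)
      have hn : Nonempty (Fin n) := by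
        by_contra hn
        rw [not_nonempty_iff] at hn
        exact hcon (norm_eq_zero.2 (Subsingleton.elim _ _))
      have hρ : 0 ≤ ρ := (Finset.sum_nonneg fun _ _ => abs_nonneg _).trans (hN hn.some)
      have hγ : 0 < γ := lt_of_le_of_lt hρ hργ
      have h7 : ‖y‖ ≤ ρ * ‖y‖ / γ := by
        refine (pi_norm_le_iff_of_nonneg (by positivity)).2 fun i => ?_
        rw [le_div_iff₀ hγ, mul_comm]
        exact (mul_le_mul_of_nonneg_right (hne j hj) (abs_nonneg _)).trans (h4 i)
      rw [le_div_iff₀ hγ] at h7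
      nlinarith
    intro i
    have h6 := norm_eq_zero.1 h5
    have := congrFun h6 i
    rw [hy] at this
    exact this
  have h4 : ∀ v : H, (∀ j, (∀ i, p i ≠ j) → B v (e j) = 0) →
      B v v = ∑ j, (B v (e (p j))) ^ 2 := by
    intro v hv
    have h5 := hE.sum v
    have h6 : HasSum (fun j => (B v (e j)) ^ 2)
        (∑ j ∈ Finset.univ.image p, (B v (e j)) ^ 2) := by
      refine hasSum_sum_of_ne_finset_zero fun j hj => ?_
      rw [hv j fun i hi => hj (Finset.mem_image.2 ⟨i, Finset.mem_univ _, hi⟩)]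
      norm_num
    rw [h5.unique h6, Finset.sum_image fun x _ y _ h => hpi h]
  have h5 : ∀ i k, ∑ j, B (w i) (e (p j)) * B (w k) (e (p j)) = if i = k then 1 else 0 := by
    intro i k
    have h6 := h4 (w i) fun j hj => h3 j hj i
    have h7 := h4 (w k) fun j hj => h3 j hj k
    have h8 := h4 (w i + w k) fun j hj => by
      rw [map_add, _root_.add_apply, h3 j hj, h3 j hj, add_zero]
    simp only [map_add, _root_.add_apply, add_sq, Finset.sum_add_distrib] at h8
    rw [← h6, ← h7, hF.sb (w k) (w i), h2 i k] at h8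
    have h9 : ∑ j, B (w i) (e (p j)) * B (w k) (e (p j)) =
        (∑ j, 2 * B (w i) (e (p j)) * B (w k) (e (p j))) / 2 := by
      rw [Finset.sum_div]
      exact Finset.sum_congr rfl fun j _ => by ring
    rw [h9]
    linarith
  refine ⟨fun j i => B (w i) (e (p j)), h5, fun i k => ?_⟩
  have h6 : ∀ j, E (p j) * B (w i) (e (p j)) = ∑ l, N i l * B (w l) (e (p j)) := by
    intro j
    rw [← h1, hF.sa, hE.eig, hF.sb (e (p j))]
  calc N i k = ∑ l, N i l * (if l = k then 1 else 0) := by simp
    _ = ∑ l, N i l * ∑ j, B (w l) (e (p j)) * B (w k) (e (p j)) := by simp only [h5]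
    _ = ∑ j, (∑ l, N i l * B (w l) (e (p j))) * B (w k) (e (p j)) := by
        simp only [Finset.mul_sum, Finset.sum_mul]
        rw [Finset.sum_comm]
        exact Finset.sum_congr rfl fun j _ => Finset.sum_congr rfl fun l _ => by ring
    _ = _ := by
        refine Finset.sum_congr rfl fun j _ => ?_
        rw [← h6]
        ring

lemma V_le {V : Fin n → Fin n → ℝ} (hV : ∀ i k, ∑ j, V j i * V j k = if i = k then 1 else 0)
    (j i : Fin n) : |V j i| ≤ 1 := by
  have h1 := hV i i
  rw [if_pos rfl] at h1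
  have h2 : V j i * V j i ≤ 1 := by
    rw [← h1]
    exact Finset.single_le_sum (f := fun j => V j i * V j i) (fun j _ => mul_self_nonneg _)
      (Finset.mem_univ j)
  exact abs_le_one_iff_mul_self_le_one.2 h2

/-- the other orthogonality relation -/
lemma V_row {V : Fin n → Fin n → ℝ} (hV : ∀ i k, ∑ j, V j i * V j k = if i = k then 1 else 0)
    (i k : Fin n) : ∑ j, V i j * V k j = if i = k then 1 else 0 := by
  have h1 : (Matrix.of V).transpose * Matrix.of V = 1 := by
    ext i k
    rw [Matrix.mul_apply, Matrix.one_apply]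
    simp only [Matrix.transpose_apply, Matrix.of_apply]
    exact hV i k
  have h2 := mul_eq_one_comm.1 h1
  have h3 := congrFun (congrFun h2 i) k
  rw [Matrix.mul_apply, Matrix.one_apply] at h3
  simpa only [Matrix.transpose_apply, Matrix.of_apply] using h3

/-- a scalar effective matrix -/
lemma scal {V N : Fin n → Fin n → ℝ} {L : Fin n → ℝ}
    (hV : ∀ i k, ∑ j, V j i * V j k = if i = k then 1 else 0)
    (hN : ∀ i k, N i k = ∑ j, L j * (V j i * V j k)) {c : ℝ}
    (hc : ∀ i k, N i k = if i = k then c else 0) (j : Fin n) : L j = c := by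
  have hr := V_row hV
  have h1 : ∀ k, c * V j k = L j * V j k := by
    intro k
    calc c * V j k = ∑ i, V j i * N i k := by simp [hc]; ring
      _ = ∑ i, V j i * ∑ l, L l * (V l i * V l k) := by simp only [hN]
      _ = ∑ l, (∑ i, V j i * V l i) * (L l * V l k) := by
          simp only [Finset.mul_sum, Finset.sum_mul]
          rw [Finset.sum_comm]
          exact Finset.sum_congr rfl fun j _ => Finset.sum_congr rfl fun l _ => by ring
      _ = L j * V j k := by simp [hr]
  have h2 := hr j j
  rw [if_pos rfl] at h2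
  calc L j = L j * ∑ k, V j k * V j k := by rw [h2, mul_one]
    _ = ∑ k, (L j * V j k) * V j k := by
        rw [Finset.mul_sum]
        exact Finset.sum_congr rfl fun _ _ => by ring
    _ = ∑ k, (c * V j k) * V j k := by simp only [h1]
    _ = c * ∑ k, V j k * V j k := by
        rw [Finset.mul_sum]
        exact Finset.sum_congr rfl fun _ _ => by ring
    _ = c := by rw [h2, mul_one]

end Pool.Agent.L5helper74.LR
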