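import Pool.Agent.L5helper74.LR.Surf
import Pool.Agent.L5helper74.UC.Glob

/-!
# Level repulsion: there is no relation for a pair of eigenfunctions
-/

set_option autoImplicit false
set_option linter.unusedSectionVars false
set_option synthInstance.maxHeartbeats 400000

open Set Filter Topology MeasureTheory
open Pool.Agent.Y262.QE Pool.Agent.Y264.QR Pool.Agent.Q233.GLV

noncomputable section

namespace Pool.Agent.L5helper74.LR

/-- indefinite quadratic forms are products -/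
lemma factor {α β : ℝ} (h : ¬ (α = 0 ∧ β = 0)) : ∃ p₁ p₂ q₁ q₂ : ℝ, 0 < p₁ ^ 2 + p₂ ^ 2 ∧
    0 < q₁ ^ 2 + q₂ ^ 2 ∧ ∀ x y : ℝ, α * (x * x) + β * (x * y) + (β * (y * x) + -α * (y * y)) =
      (p₁ * x + p₂ * y) * (q₁ * x + q₂ * y) := by
  by_cases hα : α = 0
  · have hβ : β ≠ 0 := fun hβ => h ⟨hα, hβ⟩
    refine ⟨2 * β, 0, 0, 1, by positivity, by norm_num, fun x y => ?_⟩
    rw [hα]
    ring
  · obtain ⟨t, ht, ht2⟩ : ∃ t : ℝ, 0 ≤ t ∧ t ^ 2 = α ^ 2 + β ^ 2 :=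
      ⟨Real.sqrt (α ^ 2 + β ^ 2), Real.sqrt_nonneg _, Real.sq_sqrt (by positivity)⟩
    refine ⟨1, (β + t) / α, α, β - t, by positivity, by positivity, fun x y => ?_⟩
    have h1 : (β + t) / α * (β - t) = -α := by
      field_simp
      nlinarith
    have h2 : (β + t) / α * α = β + t := div_mul_cancel₀ _ hα
    calc α * (x * x) + β * (x * y) + (β * (y * x) + -α * (y * y))
        = α * (x * x) + (β - t) * (x * y) + (β + t) * (x * y) + -α * (y * y) := by ring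
      _ = α * (x * x) + (β - t) * (x * y) + ((β + t) / α * α) * (x * y) +
          ((β + t) / α * (β - t)) * (y * y) := by rw [h1, h2]
      _ = _ := by ring

variable {M : Type} [MetricSpace M] [CompactSpace M] [MeasurableSpace M] [BorelSpace M]
  {μ : Measure M} [IsFiniteMeasure μ] {D : Data M}

theorem nr_pair [PreconnectedSpace M] (hD : D.IsSurf μ)
    (hiso : ∀ l, ∀ z ∈ D.T l, ∃ c : ℝ, ∀ v, ‖D.A l z v‖ = c * ‖v‖) {i : HF D μ →L[ℝ] Lp ℝ 2 μ}
    {a : HF D μ →L[ℝ] HF D μ →L[ℝ] ℝ}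
    {b : C(M, ℝ) → HF D μ →L[ℝ] HF D μ →L[ℝ] ℝ} (hi : ∀ v, i v = v.1.fst)
    (ha : ∀ u v, a u v = inner ℝ u.1.snd v.1.snd) (hB : IsB μ i b) {φ : C(M, ℝ)}
    {e : ℕ → HF D μ} {E : ℕ → ℝ} (hE : Eg a (b φ) e E) {u : ℕ → M → ℝ}
    (heu : ∀ j, (i (e j) : M → ℝ) =ᵐ[μ] u j) {l : ℕ} (hl : E l = E (l + 1)) : NR μ u l 1 := by
  intro S hS1 hS2 hS3
  obtain ⟨α, hα⟩ : ∃ α : ℝ, α = S 0 0 := ⟨_, rfl⟩
  obtain ⟨β, hβ⟩ : ∃ β : ℝ, β = S 0 1 := ⟨_, rfl⟩
  have h10 : S 1 0 = β := by rw [hβ]; exact hS1 1 0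
  have h11 : S 1 1 = -α := by
    rw [Fin.sum_univ_two] at hS2
    linarith
  by_cases h00 : α = 0 ∧ β = 0
  · funext p q
    fin_cases p <;> fin_cases q
    · show S 0 0 = 0
      rw [← hα, h00.1]
    · show S 0 1 = 0
      rw [← hβ, h00.2]
    · show S 1 0 = 0
      rw [h10, h00.2]
    · show S 1 1 = 0
      rw [h11, h00.1, neg_zero]
  exfalso
  obtain ⟨p₁, p₂, q₁, q₂, hp, hq, hfac⟩ := factor h00
  -- the two eigenvectors
  have hvec : ∀ s t : ℝ, 0 < s ^ 2 + t ^ 2 → ∃ v : HF D μ,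
      (∀ w, a v w = E l * b φ v w) ∧ (∀ᵐ x ∂μ, (i v : M → ℝ) x = s * u l x + t * u (l + 1) x) ∧
      ¬ (i v : M → ℝ) =ᵐ[μ] 0 := by
    intro s t hst
    obtain ⟨v, hv⟩ : ∃ v : HF D μ, v = s • e l + t • e (l + 1) := ⟨_, rfl⟩
    refine ⟨v, fun w => ?_, ?_, fun h0 => ?_⟩
    · rw [hv]
      simp only [map_add, map_smul, _root_.add_apply, _root_.smul_apply, smul_eq_mul, hE.eig]
      rw [← hl]
      ring
    · have h1 : (i v : Lp ℝ 2 μ) = s • i (e l) + t • i (e (l + 1)) := by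
        rw [hv, map_add, map_smul, map_smul]
      rw [h1]
      filter_upwards [Lp.coeFn_add (s • i (e l)) (t • i (e (l + 1))), Lp.coeFn_smul s (i (e l)),
        Lp.coeFn_smul t (i (e (l + 1))), heu l, heu (l + 1)] with x h2 h3 h4 h5 h6
      rw [h2, Pi.add_apply, h3, h4, Pi.smul_apply, Pi.smul_apply, h5, h6, smul_eq_mul, smul_eq_mul]
    · have h1 : b φ v v = s ^ 2 + t ^ 2 := by
        rw [hv]
        simp only [map_add, map_smul, _root_.add_apply, _root_.smul_apply, smul_eq_mul, hE.orth]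
        simp
        ring
      have h2 : b φ v v = 0 := by
        rw [hB]
        refine integral_eq_zero_of_ae ?_
        filter_upwards [h0] with x hx
        rw [hx]
        simp
      linarith
  obtain ⟨v, hv1, hv2, hv3⟩ := hvec p₁ p₂ hp
  obtain ⟨w, hw1, hw2, hw3⟩ := hvec q₁ q₂ hq
  obtain ⟨O, hO, hOn, hO2⟩ := UC.opn hD hiso hi ha hB hv1 hv3
  refine hw3 (UC.ucp hD hiso hi ha hB hw1 hO hOn ?_)
  filter_upwards [hO2, hS3, hv2, hw2] with x h1 h2 h3 h4 h5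
  have h6 := h1 h5
  have h7 : ((i v : M → ℝ) x) * ((i w : M → ℝ) x) = 0 := by
    rw [h3, h4, ← hfac]
    rw [Fin.sum_univ_two, Fin.sum_univ_two, Fin.sum_univ_two, ← hα, ← hβ, h10, h11] at h2
    simpa using h2
  exact (mul_eq_zero.1 h7).resolve_left h6

end Pool.Agent.L5helper74.LR
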