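import Pool.Agent.L5helper74.LR.Wey6
import Pool.Agent.L5helper74.LR.Gau3
import Pool.Agent.L5helper74.LR.Lip

/-!
# Level repulsion: two-sided bounds for the law of the gaps
-/

set_option autoImplicit false
set_option linter.unusedSectionVars false

open Set Filter Topology MeasureTheory ProbabilityTheory
open scoped ENNReal

noncomputable section

namespace Pool.Agent.L5helper74.LR

variable {m : ℕ}

/-- two conjugate diagonal matrices, modulo scalars -/
lemma comm_W {A A' : Fin (m + 1) → Fin (m + 1) → ℝ} (hA : Ort A) (hA' : Ort A')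
    {L L' : Fin (m + 1) → ℝ} (h : cI (Tc L A) = cI (Tc L' A')) :
    ∃ (c : ℝ) (W : Fin (m + 1) → Fin (m + 1) → ℝ), Ort W ∧
      ∀ p q, L q * W p q = (L' p + c) * W p q := by
  have hr := V_row hA
  have hr' := V_row hA'
  have hTs : ∀ (L : Fin (m + 1) → ℝ) (A : Fin (m + 1) → Fin (m + 1) → ℝ) i j,
      Tc L A i j = Tc L A j i := by
    intro L A i j
    unfold Tc
    exact Finset.sum_congr rfl fun k _ => by ring
  obtain ⟨c, hc⟩ : ∃ c : ℝ, c = Tc L A 0 0 - Tc L' A' 0 0 := ⟨_, rfl⟩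
  have h1 : ∀ i j, Tc L A i j = Tc L' A' i j + if i = j then c else 0 := by
    intro i j
    rw [mt_cI (hTs L A) i j, mt_cI (hTs L' A') i j, h, hc]
    split_ifs <;> ring
  obtain ⟨W, hW⟩ : ∃ W : Fin (m + 1) → Fin (m + 1) → ℝ, W = fun p q => ∑ i, A' p i * A q i :=
    ⟨_, rfl⟩
  refine ⟨c, W, ?_, fun p q => ?_⟩
  · rw [hW]
    exact Ort_mul hA' (fun i k => V_row hA i k : Ort fun i j => A j i)
  have h3 : ∑ i, ∑ j, A' p i * Tc L A i j * A q j = L q * W p q := by
    have h4 : ∀ i, ∑ j, A' p i * Tc L A i j * A q j = L q * (A' p i * A q i) := by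
      intro i
      unfold Tc
      calc ∑ j, A' p i * (∑ k, L k * (A k i * A k j)) * A q j
          = ∑ k, A' p i * L k * A k i * ∑ j, A k j * A q j := by
            simp only [Finset.sum_mul, Finset.mul_sum]
            rw [Finset.sum_comm]
            exact Finset.sum_congr rfl fun k _ => Finset.sum_congr rfl fun j _ => by ring
        _ = L q * (A' p i * A q i) := by
            simp [hr]
            ring
    simp only [h4, hW, ← Finset.mul_sum]
  have h5 : ∑ i, ∑ j, A' p i * Tc L A i j * A q j = (L' p + c) * W p q := by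
    rw [Finset.sum_comm]
    have h4 : ∀ j, ∑ i, A' p i * Tc L A i j * A q j = (L' p + c) * (A' p j * A q j) := by
      intro j
      have h6 : ∑ i, A' p i * Tc L' A' i j = L' p * A' p j := by
        unfold Tc
        calc ∑ i, A' p i * (∑ k, L' k * (A' k i * A' k j))
            = ∑ k, L' k * A' k j * ∑ i, A' p i * A' k i := by
              simp only [Finset.mul_sum]
              rw [Finset.sum_comm]
              exact Finset.sum_congr rfl fun k _ => Finset.sum_congr rfl fun i _ => by ring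
          _ = _ := by simp [hr']
      calc ∑ i, A' p i * Tc L A i j * A q j
          = (∑ i, A' p i * Tc L' A' i j) * A q j +
            (∑ i, A' p i * if i = j then c else 0) * A q j := by
            rw [Finset.sum_mul, Finset.sum_mul, ← Finset.sum_add_distrib]
            exact Finset.sum_congr rfl fun i _ => by rw [h1 i j]; ring
        _ = _ := by
            rw [h6]
            simp
            ring
    simp only [h4, hW, ← Finset.mul_sum]
  rw [← h3, h5]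

/-- a zero block of an orthogonal matrix is not too large -/
lemma block {n : ℕ} {W : Fin n → Fin n → ℝ} (hW : Ort W) (k : Fin n)
    (h : ∀ p q, k ≤ p → q ≤ k → W p q = 0) : False := by
  have h1 : ∑ q ∈ Finset.univ.filter (fun q => q ≤ k), ∑ p, W p q * W p q =
      ∑ q ∈ Finset.univ.filter (fun q => q ≤ k), (1 : ℝ) := by
    refine Finset.sum_congr rfl fun q _ => ?_
    rw [hW q q, if_pos rfl]
  have h2 : ∑ q ∈ Finset.univ.filter (fun q => q ≤ k), ∑ p, W p q * W p q ≤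
      ∑ p ∈ Finset.univ.filter (fun p => p < k), (1 : ℝ) := by
    calc ∑ q ∈ Finset.univ.filter (fun q => q ≤ k), ∑ p, W p q * W p q
        = ∑ q ∈ Finset.univ.filter (fun q => q ≤ k),
            ∑ p ∈ Finset.univ.filter (fun p => p < k), W p q * W p q := by
          refine Finset.sum_congr rfl fun q hq => ?_
          rw [Finset.sum_filter]
          refine Finset.sum_congr rfl fun p _ => ?_
          split_ifs with hp
          · rfl
          · rw [h p q (not_lt.1 hp) (Finset.mem_filter.1 hq).2, mul_zero]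
      _ = ∑ p ∈ Finset.univ.filter (fun p => p < k),
            ∑ q ∈ Finset.univ.filter (fun q => q ≤ k), W p q * W p q := Finset.sum_comm
      _ ≤ ∑ p ∈ Finset.univ.filter (fun p => p < k), (1 : ℝ) := by
          refine Finset.sum_le_sum fun p _ => ?_
          have h3 := V_row hW p p
          rw [if_pos rfl] at h3
          rw [← h3]
          exact Finset.sum_le_sum_of_subset_of_nonneg (Finset.filter_subset _ _)
            fun q _ _ => mul_self_nonneg _
  rw [h1, Finset.sum_const, Finset.sum_const, nsmul_eq_mul, nsmul_eq_mul, mul_one, mul_one,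
    Nat.cast_le] at h2
  have h3 : Finset.univ.filter (fun p : Fin n => p < k) ⊂
      Finset.univ.filter (fun q : Fin n => q ≤ k) := by
    refine Finset.ssubset_iff_subset_ne.2 ⟨fun p hp => ?_, fun he => ?_⟩
    · rw [Finset.mem_filter] at hp ⊢
      exact ⟨hp.1, hp.2.le⟩
    · have h4 : k ∈ Finset.univ.filter (fun q : Fin n => q ≤ k) := by simp
      rw [← he] at h4
      simp at h4
  exact absurd h2 (not_le.2 (Finset.card_lt_card h3))

/-- ordered eigenvalues are determined by the matrix -/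
lemma sorted_eq {A A' : Fin (m + 1) → Fin (m + 1) → ℝ} (hA : Ort A) (hA' : Ort A')
    {L L' : Fin (m + 1) → ℝ} (hL : Monotone L) (hL' : Monotone L') (hL0 : L 0 = 0)
    (hL0' : L' 0 = 0) (h : cI (Tc L A) = cI (Tc L' A')) : L = L' := by
  obtain ⟨c, W, hW, h1⟩ := comm_W hA hA' h
  have h2 : ∀ k, L k = L' k + c := by
    intro k
    by_contra hne
    rcases lt_or_gt_of_ne hne with hlt | hlt
    · refine block hW k fun p q hp hq => ?_
      have h3 := h1 p q
      have h4 : L q < L' p + c := by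
        have := hL hq
        have := hL' hp
        linarith
      have h5 : (L q - (L' p + c)) * W p q = 0 := by linarith
      exact (mul_eq_zero.1 h5).resolve_left (by linarith)
    · have hWt : Ort fun i j => W j i := fun i k => V_row hW i k
      refine block hWt k fun p q hp hq => ?_
      show W q p = 0
      have h3 := h1 q p
      have h4 : L' q + c < L p := by
        have := hL hp
        have := hL' hq
        linarith
      have h5 : (L p - (L' q + c)) * W q p = 0 := by linarith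
      exact (mul_eq_zero.1 h5).resolve_left (by linarith)
  have hc : c = 0 := by
    have := h2 0
    rw [hL0, hL0'] at this
    linarith
  funext k
  rw [h2 k, hc, add_zero]

variable {X : Type} [NormedAddCommGroup X] [NormedSpace ℝ X] [CompleteSpace X]
  [SecondCountableTopology X] [MeasurableSpace X] [BorelSpace X] (P : Measure X) [IsGaussian P]
  {Mf : X → Ix m → ℝ} {M' : X →L[ℝ] (Ix m → ℝ)} {φ₀ : X} {gp : X → Fin m → ℝ}

lemma Hdir {κ : Type} [Fintype κ] (h : κ → X) : ∃ Hm : (κ → ℝ) →L[ℝ] X,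
    ∀ t, Hm t = ∑ a, t a • h a :=
  ⟨∑ a, (ContinuousLinearMap.proj (R := ℝ) (φ := fun _ : κ => ℝ) a).smulRight (h a), fun t => by
      simp [ContinuousLinearMap.smulRight_apply]⟩

lemma Lind (hi : ∀ c : Ix m → ℝ, (∀ h, ∑ q, c q * M' h q = 0) → c = 0) :
    ∃ L : Ix m → StrongDual ℝ X, LinearIndependent ℝ L ∧ ∀ q h, L q h = M' h q := by
  refine ⟨fun q => (ContinuousLinearMap.proj (R := ℝ) (φ := fun _ : Ix m => ℝ) q).comp M', ?_,
    fun q h => rfl⟩
  rw [Fintype.linearIndependent_iff]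
  intro c hc q
  have h1 := hi c fun h => by
    have := DFunLike.congr_fun hc h
    simpa using this
  rw [h1]
  rfl

theorem prob_up (hP : ∀ L : StrongDual ℝ X, L ≠ 0 → Var[L; P] ≠ 0)
    (hM : HasStrictFDerivAt Mf M' φ₀)
    (hi : ∀ c : Ix m → ℝ, (∀ h, ∑ q, c q * M' h q = 0) → c = 0) (hgm : Measurable gp)
    (hev : ∀ᶠ φ in 𝓝 φ₀, ∃ V, Ort V ∧ Mf φ = cI (Tc (Fin.cons 0 (gp φ)) V)) :
    ∃ U, IsOpen U ∧ φ₀ ∈ U ∧ ∃ C : ℝ≥0∞, C ≠ ⊤ ∧ ∀ Ω : Set (Fin m → ℝ), MeasurableSet Ω →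
      P {φ | φ ∈ U ∧ gp φ ∈ Ω} ≤ C * ∫⁻ y in Ω, ENNReal.ofReal (Vd m y) := by
  obtain ⟨L, hL, hLM⟩ := Lind hi
  obtain ⟨h, hinj, hup, -⟩ := gau P hP hL
  obtain ⟨Hm, hHm⟩ := Hdir h
  obtain ⟨U₁, hU₁, C₁, hC₁, hsl⟩ := slice_up (Hm := Hm) hM fun t ht => hinj t fun q => by
    rw [hLM, ← hHm, ht]
    rfl
  obtain ⟨C₂, hC₂, hW⟩ := weyl m
  obtain ⟨U, hUs, hUo, hφU⟩ := mem_nhds_iff.1 (inter_mem hU₁ hev)
  refine ⟨U, hUo, hφU, C₁ * C₂, ENNReal.mul_ne_top hC₁ hC₂, fun Ω hΩ => ?_⟩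
  refine hup _ (hUo.measurableSet.inter (hgm hΩ)) _ fun x => ?_
  have h1 := hsl x {t | x + Hm t ∈ {φ | φ ∈ U ∧ gp φ ∈ Ω}} fun t ht => (hUs ht.1).1
  simp only [hHm] at h1
  refine h1.trans ?_
  rw [mul_assoc]
  refine mul_le_mul_right ((measure_mono ?_).trans (hW Ω hΩ)) _
  rintro _ ⟨t, ht, rfl⟩
  obtain ⟨V, hV, hV2⟩ := (hUs ht.1).2
  exact ⟨_, ht.2, V, hV, hV2⟩

theorem prob_low (hP : ∀ L : StrongDual ℝ X, L ≠ 0 → Var[L; P] ≠ 0)
    (hM : HasStrictFDerivAt Mf M' φ₀) (h0 : Mf φ₀ = 0)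
    (hi : ∀ c : Ix m → ℝ, (∀ h, ∑ q, c q * M' h q = 0) → c = 0) (hgm : Measurable gp)
    (hgs : ∀ φ, Monotone (Fin.cons 0 (gp φ) : Fin (m + 1) → ℝ))
    (hev : ∀ᶠ φ in 𝓝 φ₀, ∃ V, Ort V ∧ Mf φ = cI (Tc (Fin.cons 0 (gp φ)) V))
    {U : Set X} (hU : U ∈ 𝓝 φ₀) :
    ∃ r : ℝ, 0 < r ∧ ∃ c : ℝ≥0∞, c ≠ 0 ∧ ∀ Ω : Set (Fin m → ℝ), MeasurableSet Ω →
      (∀ y ∈ Ω, ‖y‖ < r ∧ StrictMono (Fin.cons 0 y : Fin (m + 1) → ℝ)) →
      c * ∫⁻ y in Ω, ENNReal.ofReal (Vd m y) ≤ P {φ | φ ∈ U ∧ gp φ ∈ Ω} := by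
  obtain ⟨L, hL, hLM⟩ := Lind hi
  obtain ⟨h, hinj, -, hlow⟩ := gau P hP hL
  obtain ⟨Hm, hHm⟩ := Hdir h
  obtain ⟨V, hVs, hVo, hφV⟩ := mem_nhds_iff.1 (inter_mem hU hev)
  obtain ⟨r, hr, C₁, hC₁, hC₁0, hsl⟩ := slice_low (Hm := Hm) hM h0 (fun t ht =>
    hinj t fun q => by
      rw [hLM, ← hHm, ht]
      rfl) (hVo.mem_nhds hφV)
  obtain ⟨c₂, hc₂, hW⟩ := weyl_low m
  obtain ⟨c₃, hc₃, hlow2⟩ := hlow (max 1 (‖φ₀‖ + r))
  have hPb : P (Metric.ball φ₀ r) ≠ 0 := (supp_univ P hP φ₀ (Metric.ball_mem_nhds _ hr)).ne'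
  obtain ⟨n, hn⟩ : ∃ n : ℝ, n = ((m + 1 : ℕ) : ℝ) := ⟨_, rfl⟩
  have hn0 : 0 < n := by rw [hn]; positivity
  refine ⟨r / (2 * n), by positivity, c₃ * (C₁⁻¹ * c₂) * P (Metric.ball φ₀ r), ?_,
    fun Ω hΩ hΩs => ?_⟩
  · exact mul_ne_zero (mul_ne_zero hc₃ (mul_ne_zero (ENNReal.inv_ne_zero.2 hC₁) hc₂)) hPb
  obtain ⟨S, hS⟩ : ∃ S : Set (Ix m → ℝ), S = {u | ∃ y ∈ Ω, ∃ V, Ort V ∧
    u = cI (Tc (Fin.cons 0 y) V)} := ⟨_, rfl⟩
  have hSr : ∀ u ∈ S, ‖u‖ < r := by
    rw [hS]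
    rintro _ ⟨y, hy, W, hWo, rfl⟩
    have h1 := (hΩs y hy).1
    have h2 : ‖cI (Tc (Fin.cons 0 y) W)‖ ≤ 2 * (n * ‖y‖) := by
      refine cI_norm fun i j => ?_
      unfold Tc
      refine (Finset.abs_sum_le_sum_abs _ _).trans ?_
      have h3 : ∀ k ∈ (Finset.univ : Finset (Fin (m + 1))),
          |(Fin.cons 0 y : Fin (m + 1) → ℝ) k * (W k i * W k j)| ≤ ‖y‖ := by
        intro k _
        rw [abs_mul, abs_mul]
        have h4 : |(Fin.cons 0 y : Fin (m + 1) → ℝ) k| ≤ ‖y‖ := by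
          refine Fin.cases ?_ (fun k => ?_) k
          · rw [Fin.cons_zero, abs_zero]
            exact norm_nonneg _
          · rw [Fin.cons_succ]
            exact norm_le_pi_norm y k
        calc _ ≤ ‖y‖ * (1 * 1) := mul_le_mul h4
              (mul_le_mul (Ort_le hWo k i) (Ort_le hWo k j) (abs_nonneg _) zero_le_one)
              (by positivity) (norm_nonneg _)
          _ = ‖y‖ := by ring
      refine (Finset.sum_le_sum h3).trans ?_
      simp [hn]
    refine h2.trans_lt ?_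
    rw [lt_div_iff₀ (by positivity)] at h1
    linarith
  have hVS : c₂ * ∫⁻ y in Ω, ENNReal.ofReal (Vd m y) ≤ volume S := by
    rw [hS]
    exact hW Ω hΩ fun y hy => (hΩs y hy).2.injective
  have hA : MeasurableSet {φ | φ ∈ V ∧ gp φ ∈ Ω} := hVo.measurableSet.inter (hgm hΩ)
  have h1 := hlow2 _ (Metric.ball φ₀ r) hA measurableSet_ball (fun x hx => by
    have h2 : ‖x - φ₀‖ < r := by rwa [mem_ball_iff_norm] at hx
    have h3 : ‖x‖ ≤ ‖x - φ₀‖ + ‖φ₀‖ := by
      have := norm_add_le (x - φ₀) φ₀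
      rwa [sub_add_cancel] at this
    exact le_trans (by linarith) (le_max_right _ _)) (C₁⁻¹ * volume S) (fun x hx => by
      rw [ENNReal.inv_mul_le_iff hC₁0 hC₁]
      refine (hsl x hx S hSr).trans (mul_le_mul_right (measure_mono ?_) _)
      rintro t ⟨ht1, ht2, ht3⟩
      refine ⟨ht1.trans (le_max_left _ _), ?_⟩
      rw [← hHm]
      refine ⟨ht2, ?_⟩
      obtain ⟨W, hWo, hW2⟩ := (hVs ht2).2
      rw [hS] at ht3
      obtain ⟨y, hy, W', hWo', hW2'⟩ := ht3
      have h2 : (Fin.cons 0 y : Fin (m + 1) → ℝ) = Fin.cons 0 (gp (x + Hm t)) :=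
        sorted_eq hWo' hWo (hΩs y hy).2.monotone (hgs _) (Fin.cons_zero _ _) (Fin.cons_zero _ _)
          (hW2'.symm.trans hW2)
      have h3 : y = gp (x + Hm t) := by
        funext k
        have := congrFun h2 k.succ
        rwa [Fin.cons_succ, Fin.cons_succ] at this
      rw [← h3]
      exact hy)
  refine le_trans ?_ (h1.trans (measure_mono fun φ hφ => ⟨(hVs hφ.1).1, hφ.2⟩))
  calc c₃ * (C₁⁻¹ * c₂) * P (Metric.ball φ₀ r) * ∫⁻ y in Ω, ENNReal.ofReal (Vd m y)
      = c₃ * (C₁⁻¹ * (c₂ * ∫⁻ y in Ω, ENNReal.ofReal (Vd m y))) * P (Metric.ball φ₀ r) := by ring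
    _ ≤ c₃ * (C₁⁻¹ * volume S) * P (Metric.ball φ₀ r) := by gcongr

end Pool.Agent.L5helper74.LR
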