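import Pool.Agent.Q233.GLV.Inv

/-!
# Level repulsion: the Schur complement at a multiple eigenvalue, invertibility
-/

set_option autoImplicit false
set_option linter.unusedSectionVars false

open Set Filter Topology
open Pool.Agent.Y262.QE
open Pool.Agent.Q233.GLV (E_nonneg)

noncomputable section

namespace Pool.Agent.L5helper74.LR

variable {H : Type} [NormedAddCommGroup H] [InnerProductSpace ℝ H]
  {a b : H →L[ℝ] H →L[ℝ] ℝ} {e : ℕ → H} {E : ℕ → ℝ} {n : ℕ} {p : Fin n → ℕ} {lam : ℝ}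

/-- the form of the projection on the eigenvectors `e (p i)` -/
def Pj (b : H →L[ℝ] H →L[ℝ] ℝ) (e : ℕ → H) (p : Fin n → ℕ) : H →L[ℝ] H →L[ℝ] ℝ :=
  ∑ i, (b (e (p i))).smulRight (b (e (p i)))

lemma Pj_apply (u v : H) : Pj b e p u v = ∑ i, b (e (p i)) u * b (e (p i)) v := by
  unfold Pj
  simp [ContinuousLinearMap.smulRight_apply]

/-- the bordered form -/
def Af (a : H →L[ℝ] H →L[ℝ] ℝ) (b : H →L[ℝ] H →L[ℝ] ℝ) (e : ℕ → H) (p : Fin n → ℕ)
    (q : (H →L[ℝ] H →L[ℝ] ℝ) × ℝ) : H →L[ℝ] H →L[ℝ] ℝ :=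
  a - q.2 • q.1 + Pj b e p

lemma Af_apply (q : (H →L[ℝ] H →L[ℝ] ℝ) × ℝ) (u v : H) :
    Af a b e p q u v = a u v - q.2 * q.1 u v + ∑ i, b (e (p i)) u * b (e (p i)) v := by
  unfold Af
  rw [_root_.add_apply, _root_.add_apply, _root_.sub_apply, _root_.sub_apply, Pj_apply]
  simp

lemma gap2 (hE : Tendsto E atTop atTop) (lam : ℝ) :
    ∃ γ : ℝ, 0 < γ ∧ ∀ i, E i ≠ lam → γ ≤ |E i - lam| := by
  obtain ⟨N, hN⟩ := eventually_atTop.1 (hE.eventually_gt_atTop (lam + 1))
  have key : ∀ n : ℕ, ∃ γ : ℝ, 0 < γ ∧ γ ≤ 1 ∧ ∀ i, i < n → E i ≠ lam → γ ≤ |E i - lam| := by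
    intro n
    induction n with
    | zero => exact ⟨1, one_pos, le_refl _, fun i hi => absurd hi (Nat.not_lt_zero _)⟩
    | succ n ih =>
      obtain ⟨γ, h1, h2, h3⟩ := ih
      by_cases h : E n = lam
      · refine ⟨γ, h1, h2, fun i hi hne => ?_⟩
        rcases Nat.lt_succ_iff_lt_or_eq.1 hi with h4 | h4
        · exact h3 i h4 hne
        · exact absurd (h4 ▸ h) hne
      · refine ⟨min γ |E n - lam|, lt_min h1 (abs_pos.2 (sub_ne_zero.2 h)),
          (min_le_left _ _).trans h2, fun i hi hne => ?_⟩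
        rcases Nat.lt_succ_iff_lt_or_eq.1 hi with h4 | h4
        · exact (min_le_left _ _).trans (h3 i h4 hne)
        · rw [h4]
          exact min_le_right _ _
  obtain ⟨γ, h1, h2, h3⟩ := key N
  refine ⟨γ, h1, fun i hne => ?_⟩
  by_cases h : i < N
  · exact h3 i h hne
  · have := hN i (not_lt.1 h)
    exact h2.trans ((by linarith : (1 : ℝ) ≤ E i - lam).trans (le_abs_self _))

/-- the bordered form on the eigenvectors -/
lemma Af_e (hF : Fm a b) (hE : Eg a b e E) (hpi : Function.Injective p)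
    (hp : ∀ j, E j = lam ↔ ∃ i, p i = j) (g : H) (l : ℕ) :
    Af a b e p (b, lam) g (e l) = (if E l = lam then 1 else E l - lam) * b g (e l) := by
  rw [Af_apply, hF.sa g (e l), hE.eig, hF.sb (e l) g]
  simp only [hE.orth]
  split_ifs with h
  · obtain ⟨i, hi⟩ := (hp l).1 h
    rw [Finset.sum_eq_single i]
    · rw [if_pos hi, hi, hF.sb (e l) g, h]
      ring
    · intro j _ hj
      rw [if_neg (fun hh => hj (hpi (hh.trans hi.symm))), mul_zero]
    · intro hh
      exact absurd (Finset.mem_univ _) hh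
  · rw [Finset.sum_eq_zero]
    · ring
    · intro j _
      rw [if_neg (fun hh => h ((hp l).2 ⟨j, hh⟩)), mul_zero]

/-- the bordered form is bounded from below -/
theorem inv2 (hF : Fm a b) (hE : Eg a b e E) (hl : 0 ≤ lam) (hpi : Function.Injective p)
    (hp : ∀ j, E j = lam ↔ ∃ i, p i = j) :
    ∃ C : ℝ, 0 < C ∧ ∀ (g : H) (ε : ℝ), 0 ≤ ε →
      (∀ ψ, |Af a b e p (b, lam) g ψ| ≤ ε * ‖ψ‖) → ‖g‖ ≤ C * ε := by
  obtain ⟨γ, hγ, hg⟩ := gap2 hE.tt lam
  obtain ⟨c, hc, hco⟩ := hF.co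
  have hE0 := E_nonneg hF hE
  obtain ⟨C₁, hC₁⟩ : ∃ C₁ : ℝ, C₁ = 1 + (lam + 1) / γ + lam := ⟨_, rfl⟩
  have hC₁0 : 0 < C₁ := by rw [hC₁]; positivity
  obtain ⟨κ, hκ⟩ : ∃ κ : ℕ → ℝ, κ = fun l => if E l = lam then 1 else E l - lam := ⟨_, rfl⟩
  have h1 : ∀ l, E l + 1 ≤ C₁ * |κ l| := by
    intro l
    rw [hκ]
    simp only
    split_ifs with h
    · rw [abs_one, mul_one, h, hC₁]
      have : 0 < (lam + 1) / γ := by positivity
      linarith
    · have h2 := hg l h
      have h3 := le_abs_self (E l - lam)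
      have h4 : lam + 1 ≤ (lam + 1) / γ * |E l - lam| := by
        calc lam + 1 = (lam + 1) / γ * γ := by field_simp
          _ ≤ _ := mul_le_mul_of_nonneg_left h2 (by positivity)
      have h5 : 0 ≤ lam * |E l - lam| := by positivity
      rw [hC₁, add_mul, add_mul, one_mul]
      linarith
  obtain ⟨C, hC⟩ : ∃ C : ℝ, C = ((lam + 1) * C₁ ^ 2 / c + 1) / c + 1 := ⟨_, rfl⟩
  have hC1 : 1 ≤ C := by
    rw [hC]
    have : 0 < ((lam + 1) * C₁ ^ 2 / c + 1) / c := by positivity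
    linarith
  refine ⟨C, by linarith, fun g ε hε hgψ => ?_⟩
  have hF1 : ∀ F : Finset ℕ, ∑ l ∈ F, (b g (e l)) ^ 2 ≤ C₁ ^ 2 * ε ^ 2 / c := by
    intro F
    obtain ⟨s, hsdef⟩ : ∃ s : ℕ → ℝ, s = fun l => if 0 ≤ κ l then 1 else -1 := ⟨_, rfl⟩
    have hs1 : ∀ l, s l * κ l = |κ l| := by
      intro l
      rw [hsdef]
      simp only
      split_ifs with h
      · rw [one_mul, abs_of_nonneg h]
      · rw [neg_one_mul, abs_of_neg (not_le.1 h)]
    have hs2 : ∀ l, s l ^ 2 = 1 := by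
      intro l
      rw [hsdef]
      simp only
      split_ifs <;> norm_num
    obtain ⟨ψ, hψ⟩ : ∃ ψ : H, ψ = ∑ l ∈ F, (s l * b g (e l)) • e l := ⟨_, rfl⟩
    have e1 : Af a b e p (b, lam) g ψ = ∑ l ∈ F, |κ l| * (b g (e l)) ^ 2 := by
      rw [hψ, map_sum]
      refine Finset.sum_congr rfl fun l _ => ?_
      rw [map_smul, smul_eq_mul, Af_e hF hE hpi hp, ← hs1, hκ]
      ring
    have e2 : a ψ ψ + b ψ ψ = ∑ l ∈ F, (E l + 1) * (b g (e l)) ^ 2 := by
      have e3 : ∀ l ∈ F, b (e l) ψ = s l * b g (e l) := by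
        intro l hl
        rw [hψ, map_sum]
        simp only [map_smul, smul_eq_mul, hE.orth]
        simp [hl]
      have e4 : a ψ ψ = ∑ l ∈ F, E l * (b g (e l)) ^ 2 := by
        have e5 : a ψ ψ = a (∑ l ∈ F, (s l * b g (e l)) • e l) ψ := by rw [← hψ]
        rw [e5, map_sum, sum_apply]
        refine Finset.sum_congr rfl fun l hl => ?_
        rw [map_smul, _root_.smul_apply, smul_eq_mul, hE.eig, e3 l hl]
        calc s l * b g (e l) * (E l * (s l * b g (e l))) = s l ^ 2 * (E l * (b g (e l)) ^ 2) := by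
              ring
          _ = _ := by rw [hs2, one_mul]
      have e6 : b ψ ψ = ∑ l ∈ F, (b g (e l)) ^ 2 := by
        have e5 : b ψ ψ = b (∑ l ∈ F, (s l * b g (e l)) • e l) ψ := by rw [← hψ]
        rw [e5, map_sum, sum_apply]
        refine Finset.sum_congr rfl fun l hl => ?_
        rw [map_smul, _root_.smul_apply, smul_eq_mul, e3 l hl]
        calc s l * b g (e l) * (s l * b g (e l)) = s l ^ 2 * (b g (e l)) ^ 2 := by ring
          _ = _ := by rw [hs2, one_mul]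
      rw [e4, e6, ← Finset.sum_add_distrib]
      exact Finset.sum_congr rfl fun l _ => by ring
    obtain ⟨T, hT⟩ : ∃ T : ℝ, T = ∑ l ∈ F, (E l + 1) * (b g (e l)) ^ 2 := ⟨_, rfl⟩
    have hT0 : 0 ≤ T := by
      rw [hT]
      refine Finset.sum_nonneg fun l _ => ?_
      have := hE0 l
      positivity
    have e3 : T ≤ C₁ * Af a b e p (b, lam) g ψ := by
      rw [hT, e1, Finset.mul_sum]
      refine Finset.sum_le_sum fun l hl => ?_
      rw [← mul_assoc]
      exact mul_le_mul_of_nonneg_right (h1 l) (sq_nonneg _)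
    have e4 : T ≤ C₁ * (ε * ‖ψ‖) :=
      e3.trans (mul_le_mul_of_nonneg_left ((le_abs_self _).trans (hgψ ψ)) hC₁0.le)
    have e5 : c * ‖ψ‖ ^ 2 ≤ T := by
      rw [hT, ← e2]
      exact hco ψ
    have e6 : T ≤ C₁ ^ 2 * ε ^ 2 / c := by
      rw [le_div_iff₀ hc]
      have e7 : T * T ≤ (C₁ * (ε * ‖ψ‖)) * (C₁ * (ε * ‖ψ‖)) :=
        mul_le_mul e4 e4 hT0 (hT0.trans e4)
      rcases hT0.eq_or_lt with h0 | h0
      · rw [← h0, zero_mul]
        positivity
      · have e8 : T * (T * c) ≤ T * (C₁ ^ 2 * ε ^ 2) := by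
          calc T * (T * c) = c * (T * T) := by ring
            _ ≤ c * ((C₁ * (ε * ‖ψ‖)) * (C₁ * (ε * ‖ψ‖))) := mul_le_mul_of_nonneg_left e7 hc.le
            _ = (C₁ ^ 2 * ε ^ 2) * (c * ‖ψ‖ ^ 2) := by ring
            _ ≤ (C₁ ^ 2 * ε ^ 2) * T := mul_le_mul_of_nonneg_left e5 (by positivity)
            _ = _ := by ring
        exact le_of_mul_le_mul_left e8 h0
    refine le_trans ?_ e6
    rw [hT]
    refine Finset.sum_le_sum fun l _ => ?_
    have := hE0 l
    nlinarith [sq_nonneg (b g (e l))]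
  have hb : b g g ≤ C₁ ^ 2 * ε ^ 2 / c := hasSum_le_of_sum_le (hE.sum g) hF1
  have ha : a g g ≤ lam * b g g + ε * ‖g‖ := by
    have h2 := (le_abs_self _).trans (hgψ g)
    rw [Af_apply] at h2
    have h3 : 0 ≤ ∑ i, b (e (p i)) g * b (e (p i)) g :=
      Finset.sum_nonneg fun i _ => mul_self_nonneg _
    simp only at h2
    linarith
  have hcg := hco g
  have h5 : c * ‖g‖ ^ 2 ≤ ((lam + 1) * C₁ ^ 2 / c) * ε ^ 2 + ε * ‖g‖ := by
    have h7 : (lam + 1) * b g g ≤ ((lam + 1) * C₁ ^ 2 / c) * ε ^ 2 := by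
      calc (lam + 1) * b g g ≤ (lam + 1) * (C₁ ^ 2 * ε ^ 2 / c) :=
            mul_le_mul_of_nonneg_left hb (by linarith)
        _ = _ := by ring
    linarith
  obtain ⟨K, hK⟩ : ∃ K : ℝ, K = (lam + 1) * C₁ ^ 2 / c := ⟨_, rfl⟩
  have hK0 : 0 < K := by rw [hK]; positivity
  rw [← hK] at h5 hC
  by_contra hcon
  push Not at hcon
  have h6 : 0 < ‖g‖ := lt_of_le_of_lt (by positivity) hcon
  have h7 : (K + 1) ≤ c * C := by
    rw [hC]
    have : c * ((K + 1) / c + 1) = K + 1 + c := by field_simp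
    linarith
  have h9 : ε ≤ ‖g‖ := by nlinarith
  have h10 : K * ε ^ 2 + ε * ‖g‖ ≤ (K + 1) * (ε * ‖g‖) := by
    have : ε ^ 2 ≤ ε * ‖g‖ := by nlinarith
    nlinarith
  rcases hε.eq_or_lt with h0 | h0
  · rw [← h0] at h10 h5
    nlinarith [pow_pos h6 2]
  · have h11 : (K + 1) * (ε * ‖g‖) < c * ‖g‖ ^ 2 := by
      calc (K + 1) * (ε * ‖g‖) ≤ (c * C) * (ε * ‖g‖) :=
            mul_le_mul_of_nonneg_right h7 (by positivity)
        _ = c * (C * ε) * ‖g‖ := by ring
        _ < c * ‖g‖ * ‖g‖ := by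
            refine mul_lt_mul_of_pos_right ?_ h6
            exact mul_lt_mul_of_pos_left hcon hc
        _ = _ := by ring
    linarith

/-- a symmetric form which is bounded from below is invertible -/
theorem isInv [CompleteSpace H] (A : H →L[ℝ] H →L[ℝ] ℝ) (hA : ∀ u v, A u v = A v u) {C : ℝ}
    (hC : ∀ g, ‖g‖ ≤ C * ‖A g‖) :
    (A : H →L[ℝ] (StrongDual ℝ H)).IsInvertible := by
  obtain ⟨J, hJ⟩ : ∃ J : StrongDual ℝ H ≃L[ℝ] H,
      J = (InnerProductSpace.toDual ℝ H).symm.toContinuousLinearEquiv := ⟨_, rfl⟩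
  have hJn : ∀ f, ‖J f‖ = ‖f‖ := by
    intro f
    rw [hJ]
    exact LinearIsometryEquiv.norm_map _ _
  have hJi : ∀ f w, inner ℝ (J f) w = f w := by
    intro f w
    rw [hJ]
    exact InnerProductSpace.toDual_symm_apply
  obtain ⟨T, hT⟩ : ∃ T : H →L[ℝ] H, T = (J : StrongDual ℝ H →L[ℝ] H) ∘L A := ⟨_, rfl⟩
  have hTa : ∀ u, T u = J (A u) := by
    intro u
    rw [hT]
    rfl
  have hCT : ∀ g, ‖g‖ ≤ max C 1 * ‖T g‖ := by
    intro g
    rw [hTa, hJn]
    exact (hC g).trans (mul_le_mul_of_nonneg_right (le_max_left _ _) (norm_nonneg _))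
  have hal : AntilipschitzWith (Real.toNNReal (max C 1)) T := by
    refine AddMonoidHomClass.antilipschitz_of_bound T fun g => ?_
    rw [Real.coe_toNNReal _ (le_trans zero_le_one (le_max_right _ _))]
    exact hCT g
  have hker : ∀ w, A w = 0 → w = 0 := by
    intro w hw
    have := hC w
    rw [hw, norm_zero, mul_zero] at this
    exact norm_le_zero_iff.1 this
  have hclosed : IsClosed (LinearMap.range (T : H →ₗ[ℝ] H) : Set H) := by
    have h1 : IsClosed (Set.range T) :=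
      (hal.isClosedEmbedding T.uniformContinuous).isClosed_range
    exact h1
  have hrange : (LinearMap.range (T : H →ₗ[ℝ] H)) = ⊤ := by
    have : CompleteSpace (LinearMap.range (T : H →ₗ[ℝ] H)) :=
      hclosed.completeSpace_coe
    rw [← Submodule.orthogonal_eq_bot_iff]
    rw [Submodule.eq_bot_iff]
    intro w hw
    refine hker w ?_
    ext u
    rw [hA, ← hJi, ← hTa]
    exact (Submodule.mem_orthogonal _ _).1 hw _ ⟨u, rfl⟩
  have hinj : Function.Injective T := hal.injective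
  have hsurj : Function.Surjective T := LinearMap.range_eq_top.1 hrange
  have hbij : Function.Bijective A := by
    have h1 : (A : H → StrongDual ℝ H) = J.symm ∘ T := by
      funext u
      rw [Function.comp_apply, hTa, ContinuousLinearEquiv.symm_apply_apply]
    rw [h1]
    exact J.symm.bijective.comp ⟨hinj, hsurj⟩
  exact ⟨ContinuousLinearEquiv.ofBijective A (LinearMap.ker_eq_bot.2 hbij.1)
    (LinearMap.range_eq_top.2 hbij.2), ContinuousLinearEquiv.coe_ofBijective _ _ _⟩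

end Pool.Agent.L5helper74.LR
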