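import Pool.Agent.L5helper74.LR.Prob
import Pool.Agent.L5helper74.LR.Core

/-!
# Level repulsion for random metrics on surfaces
-/

set_option autoImplicit false
set_option linter.unusedSectionVars false
set_option synthInstance.maxHeartbeats 400000

open Set Filter Topology MeasureTheory ProbabilityTheory
open scoped Real ENNReal
open Pool.Agent.Y262.QE Pool.Agent.Y264.QR Pool.Agent.Q233.GLV

noncomputable section

namespace Pool.Agent.L5helper74.LR

/-- linear functionals of a symmetric matrix modulo scalars are given by symmetric matrices with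
trace zero -/
lemma dual {m : ℕ} (c : Ix m → ℝ) : ∃ S : Fin (m + 1) → Fin (m + 1) → ℝ,
    (∀ i j, S i j = S j i) ∧ ∑ i, S i i = 0 ∧
    (∀ N : Fin (m + 1) → Fin (m + 1) → ℝ, (∀ i j, N i j = N j i) →
      ∑ q, c q * cI N q = ∑ i, ∑ j, S i j * N i j) ∧ (S = 0 → c = 0) := by
  obtain ⟨Q, hQ⟩ := cI_lin (m := m)
  obtain ⟨F, hF⟩ : ∃ F : (Fin (m + 1) → Fin (m + 1) → ℝ) →ₗ[ℝ] ℝ,
      ∀ N, F N = ∑ q, c q * cI N q := by
    refine ⟨∑ q, c q • (LinearMap.proj (R := ℝ) (φ := fun _ : Ix m => ℝ) q).comp (Q : (Fin (m + 1) → Fin (m + 1) → ℝ) →ₗ[ℝ] _),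
      fun N => ?_⟩
    rw [LinearMap.sum_apply]
    refine Finset.sum_congr rfl fun q _ => ?_
    rw [← hQ]
    rfl
  obtain ⟨G, hG⟩ : ∃ G : Fin (m + 1) → Fin (m + 1) → ℝ,
      G = fun i j => F (Pi.single i (Pi.single j 1)) := ⟨_, rfl⟩
  have hsum : ∀ N : Fin (m + 1) → Fin (m + 1) → ℝ, F N = ∑ i, ∑ j, N i j * G i j := by
    intro N
    have h1 : N = ∑ i, ∑ j, N i j • (Pi.single i (Pi.single j (1 : ℝ)) :
        Fin (m + 1) → Fin (m + 1) → ℝ) := by
      funext a b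
      rw [Finset.sum_apply, Finset.sum_apply, Finset.sum_eq_single a, Finset.sum_apply,
        Finset.sum_apply, Finset.sum_eq_single b]
      · simp
      · intro j _ hj
        simp [hj.symm]
      · intro h
        exact absurd (Finset.mem_univ _) h
      · intro i _ hi
        rw [Finset.sum_apply, Finset.sum_apply]
        refine Finset.sum_eq_zero fun j _ => ?_
        simp [hi.symm]
      · intro h
        exact absurd (Finset.mem_univ _) h
    conv_lhs => rw [h1]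
    rw [map_sum]
    refine Finset.sum_congr rfl fun i _ => ?_
    rw [map_sum]
    refine Finset.sum_congr rfl fun j _ => ?_
    rw [map_smul, hG, smul_eq_mul]
  obtain ⟨S, hS⟩ : ∃ S : Fin (m + 1) → Fin (m + 1) → ℝ, S = fun i j => (G i j + G j i) / 2 :=
    ⟨_, rfl⟩
  have hsymm : ∀ N : Fin (m + 1) → Fin (m + 1) → ℝ, (∀ i j, N i j = N j i) →
      F N = ∑ i, ∑ j, S i j * N i j := by
    intro N hN
    have h1 : ∑ i, ∑ j, N i j * G i j = ∑ i, ∑ j, N i j * G j i := by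
      rw [Finset.sum_comm]
      exact Finset.sum_congr rfl fun i _ => Finset.sum_congr rfl fun j _ => by rw [hN]
    have h2 : ∑ i, ∑ j, S i j * N i j =
        (∑ i, ∑ j, N i j * G i j + ∑ i, ∑ j, N i j * G j i) / 2 := by
      rw [← Finset.sum_add_distrib, Finset.sum_div]
      refine Finset.sum_congr rfl fun i _ => ?_
      rw [← Finset.sum_add_distrib, Finset.sum_div]
      refine Finset.sum_congr rfl fun j _ => ?_
      rw [hS]
      ring
    rw [h2, ← h1, hsum]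
    ring
  refine ⟨S, fun i j => by rw [hS]; ring, ?_, fun N hN => by rw [← hF, hsymm N hN],
    fun h0 => ?_⟩
  · have h1 := hsymm (fun i j => if i = j then 1 else 0) fun i j => by
      rw [if_congr (eq_comm (a := i) (b := j)) rfl rfl]
    rw [hF, cI_one] at h1
    simpa using h1.symm
  · funext q
    have h1 := hsymm (mt (Pi.single q 1)) (mt_symm _)
    rw [hF, cI_mt, h0] at h1
    simpa [Pi.single_apply] using h1

variable {M : Type} [MetricSpace M] [CompactSpace M] [MeasurableSpace M] [BorelSpace M]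
  {μ : Measure M} [IsFiniteMeasure μ] {H : Type} [NormedAddCommGroup H]
  [InnerProductSpace ℝ H] [CompleteSpace H] {i : H →L[ℝ] Lp ℝ 2 μ} {a : H →L[ℝ] H →L[ℝ] ℝ}
  {b : C(M, ℝ) → H →L[ℝ] H →L[ℝ] ℝ}

/-- independence of the products of the eigenfunctions of a cluster -/
lemma hind_of (hB : IsB μ i b) (φ₀ : C(M, ℝ)) {e : ℕ → H} {u : ℕ → M → ℝ}
    (heu : ∀ j, (i (e j) : M → ℝ) =ᵐ[μ] u j) (l m : ℕ)
    (hrel : ∀ S : Fin (m + 1) → Fin (m + 1) → ℝ, (∀ i j, S i j = S j i) → ∑ i, S i i = 0 →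
      (∀ᵐ x ∂μ, ∑ i, ∑ j, S i j * (u (l + i) x * u (l + j) x) = 0) → S = 0)
    (c : Ix m → ℝ) (hc : ∀ h : C(M, ℝ), ∑ q, c q * cI (fun i j : Fin (m + 1) =>
      kf b (Pool.Agent.Q233.GLV.ex φ₀ * h) (e (l + i)) (e (l + j))) q = 0) : c = 0 := by
  obtain ⟨S, hS1, hS2, hS3, hS4⟩ := dual c
  refine hS4 (hrel S hS1 hS2 ?_)
  obtain ⟨w, hw⟩ : ∃ w : M → ℝ, w = fun x => ∑ k : Fin (m + 1), ∑ j : Fin (m + 1),
      S k j * (i (e (l + k)) x * i (e (l + j)) x) := ⟨_, rfl⟩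
  have hint : ∀ k j : Fin (m + 1),
      Integrable (fun x => S k j * ((i (e (l + k)) : M → ℝ) x * (i (e (l + j)) : M → ℝ) x)) μ :=
    fun k j => ((Lp.memLp (i (e (l + k)))).integrable_mul (Lp.memLp (i (e (l + j))))).const_mul _
  have hwi : Integrable w μ := by
    rw [hw]
    exact integrable_finsetSum _ fun k _ => integrable_finsetSum _ fun j _ => hint k j
  have h0 : (fun x => Pool.Agent.Q233.GLV.ex φ₀ x * w x) =ᵐ[μ] 0 := by
    refine Pool.Agent.Q233.RSP.zero_of_total μ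
      (Pool.Agent.Q233.RSP.cint μ (Pool.Agent.Q233.GLV.ex φ₀) hwi) univ ?_ fun h _ => ?_
    · rw [Submodule.span_univ]
      exact dense_univ
    · have h1 := hc h
      rw [hS3 _ fun i j => kf_symm hB _ _ _] at h1
      have h2 : ∀ k j : Fin (m + 1), S k j * kf b (Pool.Agent.Q233.GLV.ex φ₀ * h) (e (l + k))
          (e (l + j)) = ∫ x, h x * (Pool.Agent.Q233.GLV.ex φ₀ x *
            (S k j * (i (e (l + k)) x * i (e (l + j)) x))) ∂μ := by
        intro k j
        rw [kf_apply hB, ← integral_const_mul]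
        refine integral_congr_ae (Eventually.of_forall fun x => ?_)
        simp only [ContinuousMap.mul_apply]
        ring
      simp only [h2] at h1
      rw [← h1]
      have h3 : ∀ k j : Fin (m + 1), Integrable (fun x => h x * (Pool.Agent.Q233.GLV.ex φ₀ x *
            (S k j * ((i (e (l + k)) : M → ℝ) x * (i (e (l + j)) : M → ℝ) x)))) μ := fun k j =>
        Pool.Agent.Q233.RSP.cint μ h (Pool.Agent.Q233.RSP.cint μ _ (hint k j))
      have h4 : (fun x => h x * (Pool.Agent.Q233.GLV.ex φ₀ x * w x)) = fun x =>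
          ∑ k : Fin (m + 1), ∑ j : Fin (m + 1), h x * (Pool.Agent.Q233.GLV.ex φ₀ x *
            (S k j * (i (e (l + k)) x * i (e (l + j)) x))) := by
        funext x
        rw [hw]
        simp only [Finset.mul_sum]
      rw [h4, integral_finsetSum _ fun k _ => integrable_finsetSum _ fun j _ => h3 k j]
      exact Finset.sum_congr rfl fun k _ => integral_finsetSum _ fun j _ => h3 k j
  have h5 : ∀ᵐ x ∂μ, ∀ j, (i (e j) : M → ℝ) x = u j x := ae_all_iff.2 heu
  filter_upwards [h0, h5] with x hx1 hx2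
  have h6 : (Pool.Agent.Q233.GLV.ex φ₀ x) * w x = 0 := hx1
  have h7 : w x = 0 := (mul_eq_zero.1 h6).resolve_left (Real.exp_pos _).ne'
  rw [← h7, hw]
  simp only [hx2]

/-- there is no relation among the products of the eigenfunctions `u l, ..., u (l + m)` -/
def NR (μ : Measure M) (u : ℕ → M → ℝ) (l m : ℕ) : Prop :=
  ∀ S : Fin (m + 1) → Fin (m + 1) → ℝ, (∀ i j, S i j = S j i) → ∑ i, S i i = 0 →
    (∀ᵐ x ∂μ, ∑ i, ∑ j, S i j * (u (l + i) x * u (l + j) x) = 0) → S = 0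

theorem surf [Nonempty M] (μ : Measure M) (D : Data M) (hD : D.IsSurf μ) :
    ∃ X : ℕ → C(M, ℝ) → ℝ, (∀ j, Continuous (X j)) ∧ (∀ φ i j, i ≤ j → X i φ ≤ X j φ) ∧
      (∀ (φ : C(M, ℝ)) (u : ℕ → M → ℝ) (lam : ℕ → ℝ),
        EigBasis (D.conf fun y => Real.exp (φ y)) (wm μ fun y => Real.exp (φ y)) u lam →
        ∀ j, X j φ = (∫ x, Real.exp (φ x) ∂μ) / (4 * π) * lam j) ∧
      ∀ {B : Type} [NormedAddCommGroup B] [NormedSpace ℝ B] [CompleteSpace B]
        [SecondCountableTopology B] [MeasurableSpace B] [BorelSpace B] (ι : B →L[ℝ] C(M, ℝ)),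
        DenseRange ι → ∀ (P : Measure B) [IsGaussian P],
        (∀ L : StrongDual ℝ B, L ≠ 0 → Var[L; P] ≠ 0) →
        ∀ (b₀ : B) (l m : ℕ) (u : ℕ → M → ℝ) (lam : ℕ → ℝ),
        EigBasis (D.conf fun y => Real.exp (ι b₀ y)) (wm μ fun y => Real.exp (ι b₀ y)) u lam →
        0 < lam l → (∀ j, lam j = lam l ↔ l ≤ j ∧ j ≤ l + m) → NR μ u l m →
        (∃ U, IsOpen U ∧ b₀ ∈ U ∧ ∃ C : ℝ≥0∞, C ≠ ⊤ ∧ ∀ Ω : Set (Fin m → ℝ), MeasurableSet Ω →
          P {b | b ∈ U ∧ (fun i : Fin m => X (l + (i + 1)) (ι b) - X l (ι b)) ∈ Ω} ≤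
            C * ∫⁻ y in Ω, ENNReal.ofReal (Vd m y)) ∧
        ∀ U ∈ 𝓝 b₀, ∃ r : ℝ, 0 < r ∧ ∃ c : ℝ≥0∞, c ≠ 0 ∧ ∀ Ω : Set (Fin m → ℝ),
          MeasurableSet Ω → (∀ y ∈ Ω, ‖y‖ < r ∧ StrictMono (Fin.cons 0 y : Fin (m + 1) → ℝ)) →
          c * ∫⁻ y in Ω, ENNReal.ofReal (Vd m y) ≤
            P {b | b ∈ U ∧ (fun i : Fin m => X (l + (i + 1)) (ι b) - X l (ι b)) ∈ Ω} := by
  obtain ⟨hf, -⟩ := tFin M μ D hD
  haveI := hf
  haveI : CompleteSpace (HF D μ) := by
    unfold HF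
    exact (Submodule.isClosed_topologicalClosure _).completeSpace_coe
  obtain ⟨i, a, hSf, hi, ha⟩ := tPackF M μ D hD inferInstance
  obtain ⟨b, hB, hF, hpos, hcmp, -⟩ := tFm M μ (HF D μ) i a hSf
  obtain ⟨hnn, hmono, -, hcont, -⟩ := tLip M μ (HF D μ) a b hF hcmp
  have hmm : ∀ φ e E, Eg a (b φ) e E → ∀ j, Ev a (b φ) j = E j :=
    fun φ e E hE j => Pool.Agent.Y592.QE.mm _ a (b φ) (hF φ) e E hE j
  have hAc : Continuous fun φ : C(M, ℝ) => ∫ x, Real.exp (φ x) ∂μ :=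
    (Pool.Agent.Y689.QR.int_cont μ).comp Pool.Agent.Y689.QR.exp_cont
  have hpi := Real.pi_pos
  have hXc : ∀ j, Continuous fun φ => Xl μ a b φ j := fun j =>
    (hAc.div_const _).mul (hcont j)
  have hXm : ∀ φ i j, i ≤ j → Xl μ a b φ i ≤ Xl μ a b φ j := fun φ i j hij =>
    mul_le_mul_of_nonneg_left (hmono φ i j hij) (by have := hpos φ; positivity)
  refine ⟨fun j φ => Xl μ a b φ j, hXc, hXm, fun φ u lam hu j => ?_, ?_⟩
  · obtain ⟨e', -, he'⟩ := tBr M μ D hD i a b hSf hi ha hB hF φ u lam hu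
    show (∫ x, Real.exp (φ x) ∂μ) / (4 * π) * Ev a (b φ) j = _
    rw [hmm φ e' lam he']
  intro B _ _ _ _ _ _ ι hι P _ hP b₀ l m u lam hu hlam hcl hNR
  obtain ⟨e, heu, hE⟩ := tBr M μ D hD i a b hSf hi ha hB hF (ι b₀) u lam hu
  obtain ⟨Mf, M', hM', hM0, hMi, hev⟩ := core hSf hB hF hcont hmono
    (fun φ => tSp (HF D μ) a (b φ) (hF φ)) (ι b₀) (hpos _) hE l m hlam hcl
    (hind_of hB (ι b₀) heu l m hNR)
  have hcomp : HasStrictFDerivAt (fun x => Mf (ι x)) (M'.comp ι) b₀ :=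
    hM'.comp b₀ ι.hasStrictFDerivAt
  have hcomp0 : Mf (ι b₀) = 0 := hM0
  have hcompi : ∀ c : Ix m → ℝ, (∀ h, ∑ q, c q * (M'.comp ι) h q = 0) → c = 0 := by
    intro c hc
    refine hMi c fun h => ?_
    have h1 : Continuous fun h : C(M, ℝ) => ∑ q, c q * M' h q :=
      continuous_finsetSum _ fun q _ => continuous_const.mul
        ((continuous_apply q).comp M'.continuous)
    have h2 : (fun h : C(M, ℝ) => ∑ q, c q * M' h q) = fun _ => 0 :=
      hι.equalizer h1 continuous_const (funext fun x => hc x)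
    exact congrFun h2 h
  obtain ⟨gp, hgp⟩ : ∃ gp : B → Fin m → ℝ,
      gp = fun x (i : Fin m) => Xl μ a b (ι x) (l + (i + 1)) - Xl μ a b (ι x) l := ⟨_, rfl⟩
  have hgm : Measurable gp := by
    refine Continuous.measurable ?_
    rw [hgp]
    exact continuous_pi fun j => ((hXc _).comp ι.continuous).sub ((hXc _).comp ι.continuous)
  have hgs : ∀ x, Monotone (Fin.cons 0 (gp x) : Fin (m + 1) → ℝ) := by
    intro x
    have h1 : (Fin.cons 0 (gp x) : Fin (m + 1) → ℝ) =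
        fun k : Fin (m + 1) => Xl μ a b (ι x) (l + (k : ℕ)) - Xl μ a b (ι x) l := by
      funext k
      refine Fin.cases ?_ (fun k => ?_) k
      · simp
      · rw [Fin.cons_succ, hgp]
        simp
    rw [h1]
    intro k k' hk
    exact sub_le_sub_right (hXm _ _ _ (Nat.add_le_add_left hk l)) _
  have hev' : ∀ᶠ x in 𝓝 b₀, ∃ V, Ort V ∧ Mf (ι x) = cI (Tc (Fin.cons 0 (gp x)) V) := by
    rw [hgp]
    exact ι.continuous.continuousAt.eventually hev
  have h1 := prob_up P hP hcomp hcompi hgm hev'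
  have h2 := fun U (hU : U ∈ 𝓝 b₀) => prob_low P hP hcomp hcomp0 hcompi hgm hgs hev' hU
  rw [hgp] at h1 h2
  exact ⟨h1, h2⟩

end Pool.Agent.L5helper74.LR
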