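import Pool.Agent.L5helper74.LR.Pair
import Pool.Agent.L5helper74.LR.Cpt

/-!
# Level repulsion: the theorem
-/

set_option autoImplicit false
set_option linter.unusedSectionVars false
set_option synthInstance.maxHeartbeats 400000

open Set Filter Topology MeasureTheory ProbabilityTheory
open scoped Real ENNReal
open Pool.Agent.Y262.QE Pool.Agent.Y264.QR Pool.Agent.Q233.GLV

noncomputable section

namespace Pool.Agent.L5helper74.LR

variable {M : Type} [MetricSpace M] [CompactSpace M] [MeasurableSpace M] [BorelSpace M]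

/-- double levels have no relation -/
theorem nr_one [ConnectedSpace M] {μ : Measure M} {D : Data M} (hD : D.IsSurf μ)
    (hiso : ∀ l, ∀ z ∈ D.T l, ∃ c : ℝ, ∀ v, ‖D.A l z v‖ = c * ‖v‖) (φ : C(M, ℝ))
    (u : ℕ → M → ℝ) (lam : ℕ → ℝ)
    (hu : EigBasis (D.conf fun y => Real.exp (φ y)) (wm μ fun y => Real.exp (φ y)) u lam)
    {l : ℕ} (hl : lam l = lam (l + 1)) : NR μ u l 1 := by
  obtain ⟨hf, -⟩ := tFin M μ D hD
  have := hf
  obtain ⟨i, a, hSf, hi, ha⟩ := tPackF M μ D hD inferInstance
  obtain ⟨b, hB, hF, hpos, hcmp, -⟩ := tFm M μ (HF D μ) i a hSf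
  obtain ⟨e, heu, hE⟩ := tBr M μ D hD i a b hSf hi ha hB hF φ u lam hu
  exact nr_pair hD hiso hi ha hB hE heu hl

/-- the integral of the Vandermonde determinant over increasing sequences -/
lemma goe_eq (m : ℕ) {Ω : Set (Fin m → ℝ)} (hΩ : MeasurableSet Ω) :
    ∫⁻ y in Ω ∩ {y | StrictMono (Fin.cons 0 y : Fin (m + 1) → ℝ)}, ENNReal.ofReal (Vd m y) =
      ∫⁻ y in Ω ∩ {y | Monotone (Fin.cons 0 y : Fin (m + 1) → ℝ)}, ENNReal.ofReal (Vd m y) := by
  have hc : ∀ k : Fin (m + 1), Measurable fun y : Fin m → ℝ => (Fin.cons 0 y : Fin (m + 1) → ℝ) k :=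
    fun k => by
      refine Fin.cases ?_ (fun k => ?_) k
      · simp only [Fin.cons_zero]
        exact measurable_const
      · simp only [Fin.cons_succ]
        exact measurable_pi_apply k
  have h1 : MeasurableSet {y : Fin m → ℝ | StrictMono (Fin.cons 0 y : Fin (m + 1) → ℝ)} := by
    have h2 : {y : Fin m → ℝ | StrictMono (Fin.cons 0 y : Fin (m + 1) → ℝ)} =
        ⋂ i : Fin (m + 1), ⋂ j : Fin (m + 1), {y | i < j → (Fin.cons 0 y : Fin (m + 1) → ℝ) i <
          (Fin.cons 0 y : Fin (m + 1) → ℝ) j} := by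
      ext y
      simp only [mem_iInter, mem_ofPred_eq]
      exact ⟨fun h i j hij => h hij, fun h i j hij => h i j hij⟩
    rw [h2]
    refine MeasurableSet.iInter fun i => MeasurableSet.iInter fun j => ?_
    by_cases hij : i < j
    · simp only [hij, true_imp_iff]
      exact measurableSet_lt (hc i) (hc j)
    · simp only [hij, false_imp_iff]
      exact MeasurableSet.univ
  have h3 : MeasurableSet {y : Fin m → ℝ | Monotone (Fin.cons 0 y : Fin (m + 1) → ℝ)} := by
    have h2 : {y : Fin m → ℝ | Monotone (Fin.cons 0 y : Fin (m + 1) → ℝ)} =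
        ⋂ i : Fin (m + 1), ⋂ j : Fin (m + 1), {y | i ≤ j → (Fin.cons 0 y : Fin (m + 1) → ℝ) i ≤
          (Fin.cons 0 y : Fin (m + 1) → ℝ) j} := by
      ext y
      simp only [mem_iInter, mem_ofPred_eq]
      exact ⟨fun h i j hij => h hij, fun h i j hij => h i j hij⟩
    rw [h2]
    refine MeasurableSet.iInter fun i => MeasurableSet.iInter fun j => ?_
    by_cases hij : i ≤ j
    · simp only [hij, true_imp_iff]
      exact measurableSet_le (hc i) (hc j)
    · simp only [hij, false_imp_iff]
      exact MeasurableSet.univ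
  rw [← lintegral_indicator (hΩ.inter h1), ← lintegral_indicator (hΩ.inter h3)]
  refine lintegral_congr fun y => ?_
  by_cases hy : y ∈ Ω ∩ {y | StrictMono (Fin.cons 0 y : Fin (m + 1) → ℝ)}
  · have h4 : y ∈ Ω ∩ {y | Monotone (Fin.cons 0 y : Fin (m + 1) → ℝ)} :=
      ⟨hy.1, StrictMono.monotone hy.2⟩
    rw [indicator_of_mem hy, indicator_of_mem h4]
  · rw [indicator_of_notMem hy]
    by_cases h4 : y ∈ Ω ∩ {y | Monotone (Fin.cons 0 y : Fin (m + 1) → ℝ)}
    · rw [indicator_of_mem h4]
      have h5 : ¬ StrictMono (Fin.cons 0 y : Fin (m + 1) → ℝ) := fun h => hy ⟨h4.1, h⟩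
      have h6 : ¬ Function.Injective (Fin.cons 0 y : Fin (m + 1) → ℝ) := fun h =>
        h5 (Monotone.strictMono_of_injective h4.2 h)
      have h7 : Vd m y = 0 := by
        unfold Function.Injective at h6
        push Not at h6
        obtain ⟨i, j, hij, hne⟩ := h6
        unfold Vd
        rcases lt_or_gt_of_ne hne with h | h
        · refine Finset.prod_eq_zero (i := (⟨(i, j), h⟩ : Off m)) (Finset.mem_univ _) ?_
          simp only [hij, sub_self, abs_zero]
        · refine Finset.prod_eq_zero (i := (⟨(j, i), h⟩ : Off m)) (Finset.mem_univ _) ?_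
          simp only [hij, sub_self, abs_zero]
      rw [h7, ENNReal.ofReal_zero]
    · rw [indicator_of_notMem h4]

lemma goe_meas (m : ℕ) :
    MeasurableSet {y : Fin m → ℝ | StrictMono (Fin.cons 0 y : Fin (m + 1) → ℝ)} ∧
      MeasurableSet {y : Fin m → ℝ | Monotone (Fin.cons 0 y : Fin (m + 1) → ℝ)} := by
  have hc : ∀ k : Fin (m + 1), Measurable fun y : Fin m → ℝ => (Fin.cons 0 y : Fin (m + 1) → ℝ) k :=
    fun k => by
      refine Fin.cases ?_ (fun k => ?_) k
      · simp only [Fin.cons_zero]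
        exact measurable_const
      · simp only [Fin.cons_succ]
        exact measurable_pi_apply k
  constructor
  · have h2 : {y : Fin m → ℝ | StrictMono (Fin.cons 0 y : Fin (m + 1) → ℝ)} =
        ⋂ i : Fin (m + 1), ⋂ j : Fin (m + 1), {y | i < j → (Fin.cons 0 y : Fin (m + 1) → ℝ) i <
          (Fin.cons 0 y : Fin (m + 1) → ℝ) j} := by
      ext y
      simp only [mem_iInter, mem_ofPred_eq]
      exact ⟨fun h i j hij => h hij, fun h i j hij => h i j hij⟩
    rw [h2]
    refine MeasurableSet.iInter fun i => MeasurableSet.iInter fun j => ?_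
    by_cases hij : i < j
    · simp only [hij, true_imp_iff]
      exact measurableSet_lt (hc i) (hc j)
    · simp only [hij, false_imp_iff]
      exact MeasurableSet.univ
  · have h2 : {y : Fin m → ℝ | Monotone (Fin.cons 0 y : Fin (m + 1) → ℝ)} =
        ⋂ i : Fin (m + 1), ⋂ j : Fin (m + 1), {y | i ≤ j → (Fin.cons 0 y : Fin (m + 1) → ℝ) i ≤
          (Fin.cons 0 y : Fin (m + 1) → ℝ) j} := by
      ext y
      simp only [mem_iInter, mem_ofPred_eq]
      exact ⟨fun h i j hij => h hij, fun h i j hij => h i j hij⟩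
    rw [h2]
    refine MeasurableSet.iInter fun i => MeasurableSet.iInter fun j => ?_
    by_cases hij : i ≤ j
    · simp only [hij, true_imp_iff]
      exact measurableSet_le (hc i) (hc j)
    · simp only [hij, false_imp_iff]
      exact MeasurableSet.univ

end Pool.Agent.L5helper74.LR
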