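import Pool.Agent.L5helper74.LR.Orth

/-!
# Level repulsion: a chart of the orthogonal group at the identity
-/

set_option autoImplicit false
set_option linter.unusedSectionVars false

open Set Filter Topology

noncomputable section

namespace Pool.Agent.L5helper74.LR

variable {n : ℕ}

/-- `V` is orthogonal -/
def Ort (V : Fin n → Fin n → ℝ) : Prop :=
  ∀ i k, ∑ j, V j i * V j k = if i = k then 1 else 0

/-- the identity matrix -/
def I1 : Fin n → Fin n → ℝ := fun i j => if i = j then 1 else 0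

/-- a chart -/
def Gm (A : Fin n → Fin n → ℝ) : Fin n → Fin n → ℝ :=
  fun i j => ∑ k, A k i * A k j - (if i = j then 1 else 0) + (A i j - A j i)

lemma Gm_cd : ContDiff ℝ 1 (Gm (n := n)) := by
  unfold Gm
  fun_prop

lemma Gm_der : HasFDerivAt (Gm (n := n))
    ((ContinuousLinearEquiv.smulLeft (Units.mk0 (2 : ℝ) two_ne_zero) :
      (Fin n → Fin n → ℝ) ≃L[ℝ] (Fin n → Fin n → ℝ)) :
      (Fin n → Fin n → ℝ) →L[ℝ] (Fin n → Fin n → ℝ)) (I1 (n := n)) := by
  obtain ⟨P, hP⟩ : ∃ P : Fin n → Fin n → ((Fin n → Fin n → ℝ) →L[ℝ] ℝ), ∀ i j A, P i j A = A i j :=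
    ⟨fun i j => (ContinuousLinearMap.proj (R := ℝ) (φ := fun _ : Fin n => ℝ) j).comp
      (ContinuousLinearMap.proj (R := ℝ) (φ := fun _ : Fin n => Fin n → ℝ) i), fun _ _ _ => rfl⟩
  have hd : ∀ i j, HasFDerivAt (fun A : Fin n → Fin n → ℝ => A i j) (P i j) (I1 (n := n)) := by
    intro i j
    have h1 := (P i j).hasFDerivAt (x := I1 (n := n))
    have h2 : (P i j : (Fin n → Fin n → ℝ) → ℝ) = fun A => A i j := funext (hP i j)
    rwa [h2] at h1
  have h1 : ∀ i j, HasFDerivAt (fun A : Fin n → Fin n → ℝ =>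
      ∑ k, A k i * A k j - (if i = j then 1 else 0) + (A i j - A j i)) _ (I1 (n := n)) :=
    fun i j => ((HasFDerivAt.fun_sum fun k (_ : k ∈ Finset.univ) =>
      (hd k i).mul (hd k j)).sub_const _).add ((hd i j).sub (hd j i))
  have h2 := hasFDerivAt_pi.2 fun i => hasFDerivAt_pi.2 (h1 i)
  refine h2.congr_fderiv ?_
  ext A i j
  simp only [ContinuousLinearMap.coe_pi', _root_.add_apply, _root_.sub_apply, sum_apply,
    _root_.smul_apply, hP, I1, smul_eq_mul, Finset.sum_add_distrib, ite_mul, one_mul, zero_mul,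
    Finset.sum_ite_eq', Finset.mem_univ, if_true]
  have h3 : ((ContinuousLinearEquiv.smulLeft (Units.mk0 (2 : ℝ) two_ne_zero) :
      (Fin n → Fin n → ℝ) ≃L[ℝ] (Fin n → Fin n → ℝ)) :
      (Fin n → Fin n → ℝ) →L[ℝ] (Fin n → Fin n → ℝ)) A i j = 2 * A i j := rfl
  rw [h3]
  ring

lemma Gm_I : Gm (I1 (n := n)) = 0 := by
  funext i j
  unfold Gm I1
  simp only [ite_mul, one_mul, zero_mul, Finset.sum_ite_eq', Finset.mem_univ, if_true,
    Pi.zero_apply]
  rw [if_congr (eq_comm (a := j) (b := i)) rfl rfl]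
  ring

lemma Gm_ort {A : Fin n → Fin n → ℝ} (hA : Ort A) (i j : Fin n) : Gm A i j = A i j - A j i := by
  unfold Gm
  rw [hA i j]
  ring

lemma Gm_skew {A : Fin n → Fin n → ℝ} (h : ∀ i j, Gm A i j = - Gm A j i) : Ort A := by
  intro i j
  have h1 := h i j
  unfold Gm at h1
  have h2 : ∑ k, A k j * A k i = ∑ k, A k i * A k j :=
    Finset.sum_congr rfl fun k _ => mul_comm _ _
  rw [h2, if_congr (eq_comm (a := j) (b := i)) rfl rfl] at h1
  linarith

theorem chart (n : ℕ) : ∃ (s : (Fin n → Fin n → ℝ) → Fin n → Fin n → ℝ) (r B δ : ℝ),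
    0 < r ∧ 0 < δ ∧ (∀ X, ‖X‖ < r → DifferentiableAt ℝ s X ∧ ‖fderiv ℝ s X‖ ≤ B) ∧
    (∀ X, ‖X‖ < r → (∀ i j, X i j = - X j i) → Ort (s X)) ∧
    (∀ A, Ort A → ‖A - I1‖ < δ → ‖(fun i j => A i j - A j i)‖ ≤ r / 2 ∧
      s (fun i j => A i j - A j i) = A) ∧ (∀ X, ‖X‖ < r → Gm (s X) = X) ∧ s 0 = I1 := by
  have hcd : ContDiffAt ℝ 1 (Gm (n := n)) I1 := Gm_cd.contDiffAt
  obtain ⟨s, hs⟩ : ∃ s, s = hcd.localInverse Gm_der one_ne_zero := ⟨_, rfl⟩
  have h1 : ContDiffAt ℝ 1 s 0 := by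
    have := hcd.to_localInverse Gm_der one_ne_zero
    rwa [Gm_I, ← hs] at this
  have hst := hcd.hasStrictFDerivAt' Gm_der one_ne_zero
  have h2 : ∀ᶠ X in 𝓝 (0 : Fin n → Fin n → ℝ), Gm (s X) = X := by
    have := hst.eventually_right_inverse
    rw [Gm_I] at this
    rw [hs]
    exact this
  have h3 : ∀ᶠ A in 𝓝 (I1 (n := n)), s (Gm A) = A := by
    have := hst.eventually_left_inverse
    rw [hs]
    exact this
  have h4 : ∀ᶠ X in 𝓝 (0 : Fin n → Fin n → ℝ), DifferentiableAt ℝ s X ∧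
      ‖fderiv ℝ s X‖ < ‖fderiv ℝ s 0‖ + 1 := by
    have h5 : ∀ᶠ X in 𝓝 (0 : Fin n → Fin n → ℝ), ContDiffAt ℝ 1 s X :=
      h1.eventually (by norm_num)
    have h6 : ContinuousAt (fun X => ‖fderiv ℝ s X‖) 0 :=
      (h1.fderiv_right (m := 0) (by norm_num)).continuousAt.norm
    filter_upwards [h5, h6.eventually_lt continuousAt_const (lt_add_one _)] with X h7 h8
    exact ⟨h7.differentiableAt (by norm_num), h8⟩
  obtain ⟨r, hr, hr2⟩ := Metric.eventually_nhds_iff_ball.1 (h2.and h4)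
  have h5 : ContinuousAt (fun A : Fin n → Fin n → ℝ => (fun i j => A i j - A j i)) I1 := by
    fun_prop
  have h6 : (fun i j : Fin n => (I1 : Fin n → Fin n → ℝ) i j - (I1 : Fin n → Fin n → ℝ) j i) = 0 := by
    funext i j
    unfold I1
    rw [if_congr (eq_comm (a := j) (b := i)) rfl rfl, sub_self]
    rfl
  have h7 : ∀ᶠ A in 𝓝 (I1 (n := n)), ‖(fun i j => A i j - A j i)‖ < r / 2 := by
    have := h5.norm
    refine this.eventually_lt continuousAt_const ?_
    rw [h6, norm_zero]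
    positivity
  obtain ⟨δ, hδ, hδ2⟩ := Metric.eventually_nhds_iff_ball.1 (h3.and h7)
  refine ⟨s, r, ‖fderiv ℝ s 0‖ + 1, δ, hr, hδ, fun X hX => ?_, fun X hX hsk => ?_,
    fun A hA hAd => ?_, fun X hX => (hr2 X (by rwa [mem_ball_zero_iff])).1, ?_⟩
  · have := hr2 X (by rwa [mem_ball_zero_iff])
    exact ⟨this.2.1, this.2.2.le⟩
  · have := hr2 X (by rwa [mem_ball_zero_iff])
    refine Gm_skew fun i j => ?_
    rw [this.1]
    exact hsk i j
  · have := hδ2 A (by rwa [mem_ball_iff_norm])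
    refine ⟨this.2.le, ?_⟩
    have h8 : Gm A = fun i j => A i j - A j i := by
      funext i j
      exact Gm_ort hA i j
    rw [← h8]
    exact this.1
  · have := h3.self_of_nhds
    rwa [Gm_I] at this

end Pool.Agent.L5helper74.LR
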