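import Pool.Agent.L5helper74.LR.Wey1

/-!
# Level repulsion: coordinates of symmetric matrices modulo scalars, derivative of the conjugation
-/

set_option autoImplicit false
set_option linter.unusedSectionVars false

open Set Filter Topology MeasureTheory
open scoped ENNReal

noncomputable section

namespace Pool.Agent.L5helper74.LR

/-- the pairs `i < j` -/
abbrev Off (m : ℕ) : Type := {q : Fin (m + 1) × Fin (m + 1) // q.1 < q.2}

/-- coordinates of symmetric matrices of size `m + 1` modulo scalar matrices -/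
abbrev Ix (m : ℕ) : Type := Fin m ⊕ Off m

variable {m : ℕ}

/-- the diagonal -/
def Lz (z : Ix m → ℝ) : Fin (m + 1) → ℝ := Fin.cons 0 fun i => z (Sum.inl i)

/-- the skew matrix -/
def Xz (z : Ix m → ℝ) : Fin (m + 1) → Fin (m + 1) → ℝ := fun i j =>
  if h : i < j then z (Sum.inr ⟨(i, j), h⟩) else
    if h : j < i then - z (Sum.inr ⟨(j, i), h⟩) else 0

/-- the symmetric matrix -/
def mt (u : Ix m → ℝ) : Fin (m + 1) → Fin (m + 1) → ℝ := fun i j =>
  if h : i < j then u (Sum.inr ⟨(i, j), h⟩) else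
    if h : j < i then u (Sum.inr ⟨(j, i), h⟩) else Lz u i

/-- the coordinates -/
def cI (N : Fin (m + 1) → Fin (m + 1) → ℝ) : Ix m → ℝ :=
  Sum.elim (fun i => N i.succ i.succ - N 0 0) fun q => N q.1.1 q.1.2

/-- conjugation of a diagonal matrix -/
def Tc {n : ℕ} (L : Fin n → ℝ) (V : Fin n → Fin n → ℝ) : Fin n → Fin n → ℝ :=
  fun i j => ∑ k, L k * (V k i * V k j)

lemma Lz_abs (z : Ix m → ℝ) (i : Fin (m + 1)) : |Lz z i| ≤ ‖z‖ := by
  unfold Lz
  refine Fin.cases ?_ (fun i => ?_) i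
  · simp
  · rw [Fin.cons_succ]
    exact norm_le_pi_norm z _

lemma Xz_skew (z : Ix m → ℝ) (i j : Fin (m + 1)) : Xz z i j = - Xz z j i := by
  unfold Xz
  rcases lt_trichotomy i j with h | h | h
  · rw [dif_pos h, dif_neg h.not_gt, dif_pos h, neg_neg]
  · subst h
    simp
  · rw [dif_neg h.not_gt, dif_pos h, dif_pos h]

lemma Xz_abs (z : Ix m → ℝ) (i j : Fin (m + 1)) : |Xz z i j| ≤ ‖z‖ := by
  unfold Xz
  split_ifs with h1 h2
  · exact norm_le_pi_norm z _
  · rw [abs_neg]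
    exact norm_le_pi_norm z _
  · simp

lemma Xz_norm (z : Ix m → ℝ) : ‖Xz z‖ ≤ ‖fun q => z (Sum.inr q)‖ := by
  refine (pi_norm_le_iff_of_nonneg (norm_nonneg _)).2 fun i => ?_
  refine (pi_norm_le_iff_of_nonneg (norm_nonneg _)).2 fun j => ?_
  unfold Xz
  split_ifs with h1 h2
  · exact norm_le_pi_norm (fun q => z (Sum.inr q)) _
  · rw [norm_neg]
    exact norm_le_pi_norm (fun q => z (Sum.inr q)) _
  · simp

lemma mt_abs (u : Ix m → ℝ) (i j : Fin (m + 1)) : |mt u i j| ≤ ‖u‖ := by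
  unfold mt
  split_ifs with h1 h2
  · exact norm_le_pi_norm u _
  · exact norm_le_pi_norm u _
  · exact Lz_abs u i

/-- `Lz`, `Xz`, `mt`, `cI` as linear maps -/
lemma Lz_lin : ∃ P : (Ix m → ℝ) →L[ℝ] (Fin (m + 1) → ℝ), ∀ z, P z = Lz z := by
  obtain ⟨P, hP⟩ : ∃ P : (Ix m → ℝ) →ₗ[ℝ] (Fin (m + 1) → ℝ), ∀ z, P z = Lz z := by
    refine ⟨⟨⟨Lz, ?_⟩, ?_⟩, fun _ => rfl⟩
    · intro x y
      funext i
      unfold Lz
      refine Fin.cases ?_ (fun i => ?_) i <;> simp
    · intro c x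
      funext i
      unfold Lz
      refine Fin.cases ?_ (fun i => ?_) i <;> simp
  exact ⟨LinearMap.toContinuousLinearMap P, hP⟩

lemma Xz_lin : ∃ P : (Ix m → ℝ) →L[ℝ] (Fin (m + 1) → Fin (m + 1) → ℝ), ∀ z, P z = Xz z := by
  obtain ⟨P, hP⟩ : ∃ P : (Ix m → ℝ) →ₗ[ℝ] (Fin (m + 1) → Fin (m + 1) → ℝ), ∀ z, P z = Xz z := by
    refine ⟨⟨⟨Xz, ?_⟩, ?_⟩, fun _ => rfl⟩
    · intro x y
      funext i j
      simp only [Xz, Pi.add_apply]
      split_ifs
      · rfl
      · ring
      · ring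
    · intro c x
      funext i j
      simp only [Xz, Pi.smul_apply, smul_eq_mul, RingHom.id_apply]
      split_ifs
      · rfl
      · ring
      · ring
  exact ⟨LinearMap.toContinuousLinearMap P, hP⟩

lemma mt_add (u v : Ix m → ℝ) (i j : Fin (m + 1)) : mt (u + v) i j = mt u i j + mt v i j := by
  obtain ⟨P, hP⟩ := Lz_lin (m := m)
  have h1 : Lz (u + v) i = Lz u i + Lz v i := by
    rw [← hP, ← hP, ← hP, map_add]
    rfl
  simp only [mt, Pi.add_apply, h1]
  split_ifs <;> rfl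

lemma mt_smul (c : ℝ) (u : Ix m → ℝ) (i j : Fin (m + 1)) : mt (c • u) i j = c * mt u i j := by
  obtain ⟨P, hP⟩ := Lz_lin (m := m)
  have h1 : Lz (c • u) i = c * Lz u i := by
    rw [← hP, ← hP, map_smul]
    rfl
  simp only [mt, Pi.smul_apply, smul_eq_mul, h1]
  split_ifs <;> rfl

lemma cI_lin : ∃ P : (Fin (m + 1) → Fin (m + 1) → ℝ) →L[ℝ] (Ix m → ℝ), ∀ N, P N = cI N := by
  obtain ⟨P, hP⟩ : ∃ P : (Fin (m + 1) → Fin (m + 1) → ℝ) →ₗ[ℝ] (Ix m → ℝ), ∀ N, P N = cI N := by
    refine ⟨⟨⟨cI, ?_⟩, ?_⟩, fun _ => rfl⟩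
    · intro x y
      funext q
      rcases q with q | q
      · simp only [cI, Sum.elim_inl, Pi.add_apply]
        ring
      · rfl
    · intro c x
      funext q
      rcases q with q | q
      · simp only [cI, Sum.elim_inl, Pi.smul_apply, smul_eq_mul, RingHom.id_apply]
        ring
      · rfl
  exact ⟨LinearMap.toContinuousLinearMap P, hP⟩

lemma cI_norm {N : Fin (m + 1) → Fin (m + 1) → ℝ} {c : ℝ} (hN : ∀ i j, |N i j| ≤ c) :
    ‖cI N‖ ≤ 2 * c := by
  have hc : 0 ≤ c := (abs_nonneg _).trans (hN 0 0)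
  refine (pi_norm_le_iff_of_nonneg (by positivity)).2 fun q => ?_
  rcases q with q | q
  · simp only [cI, Sum.elim_inl, Real.norm_eq_abs]
    refine (abs_sub _ _).trans ?_
    linarith [hN q.succ q.succ, hN 0 0]
  · simp only [cI, Sum.elim_inr, Real.norm_eq_abs]
    linarith [hN q.1.1 q.1.2]

/-- a symmetric matrix modulo scalars -/
lemma mt_cI {N : Fin (m + 1) → Fin (m + 1) → ℝ} (hN : ∀ i j, N i j = N j i)
    (i j : Fin (m + 1)) : N i j = (if i = j then N 0 0 else 0) + mt (cI N) i j := by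
  unfold mt
  rcases lt_trichotomy i j with h | h | h
  · rw [dif_pos h, if_neg h.ne, zero_add]
    rfl
  · subst h
    simp only [lt_irrefl, dite_false, if_true]
    unfold Lz
    refine Fin.cases ?_ (fun i => ?_) i
    · rw [Fin.cons_zero, add_zero]
    · rw [Fin.cons_succ]
      simp only [cI, Sum.elim_inl]
      ring
  · rw [dif_neg h.not_gt, dif_pos h, if_neg h.ne', zero_add, hN]
    rfl

/-- conjugation as a linear map -/
lemma Ac (V : Fin (m + 1) → Fin (m + 1) → ℝ) : ∃ P : (Ix m → ℝ) →L[ℝ] (Ix m → ℝ),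
    ∀ u, P u = cI fun i j => ∑ k, ∑ l, mt u k l * (V k i * V l j) := by
  obtain ⟨Q, hQ⟩ := cI_lin (m := m)
  obtain ⟨P, hP⟩ : ∃ P : (Ix m → ℝ) →ₗ[ℝ] (Fin (m + 1) → Fin (m + 1) → ℝ),
      ∀ u, P u = fun i j => ∑ k, ∑ l, mt u k l * (V k i * V l j) := by
    refine ⟨⟨⟨fun u => fun i j => ∑ k, ∑ l, mt u k l * (V k i * V l j), ?_⟩, ?_⟩, fun _ => rfl⟩
    · intro x y
      funext i j
      simp only [mt_add, add_mul, Finset.sum_add_distrib, Pi.add_apply]
    · intro c x
      funext i j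
      simp only [mt_smul, mul_assoc, ← Finset.mul_sum, Pi.smul_apply, smul_eq_mul,
        RingHom.id_apply]
  exact ⟨Q.comp (LinearMap.toContinuousLinearMap P), fun u => by
    rw [ContinuousLinearMap.comp_apply, hQ]
    exact congrArg cI (hP u)⟩

/-- the derivative of the conjugation -/
theorem Tc_der {V : (Ix m → ℝ) → Fin (m + 1) → Fin (m + 1) → ℝ}
    {V' : (Ix m → ℝ) →L[ℝ] (Fin (m + 1) → Fin (m + 1) → ℝ)} {z : Ix m → ℝ}
    (hV : HasFDerivAt V V' z) (ho : ∀ᶠ z' in 𝓝 z, Ort (V z')) :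
    ∃ A D B : (Ix m → ℝ) →L[ℝ] (Ix m → ℝ),
      HasFDerivAt (fun z => cI (Tc (Lz z) (V z))) (A.comp (D.comp B)) z ∧
      (∀ u, A u = cI fun i j => ∑ k, ∑ l, mt u k l * (V z k i * V z l j)) ∧
      (∀ u, D u = Sum.elim (fun i => u (Sum.inl i))
        fun q => (Lz z q.1.1 - Lz z q.1.2) * u (Sum.inr q)) ∧
      ∀ u, B u = Sum.elim (fun i => u (Sum.inl i))
        fun q => ∑ i, V' u q.1.1 i * V z q.1.2 i := by
  obtain ⟨A, hA⟩ := Ac (V z)
  obtain ⟨D, hD⟩ : ∃ D : (Ix m → ℝ) →L[ℝ] (Ix m → ℝ), ∀ u, D u =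
      Sum.elim (fun i => u (Sum.inl i)) fun q => (Lz z q.1.1 - Lz z q.1.2) * u (Sum.inr q) := by
    obtain ⟨P, hP⟩ : ∃ P : (Ix m → ℝ) →ₗ[ℝ] (Ix m → ℝ), ∀ u, P u =
        Sum.elim (fun i => u (Sum.inl i)) fun q => (Lz z q.1.1 - Lz z q.1.2) * u (Sum.inr q) := by
      refine ⟨⟨⟨fun u => Sum.elim (fun i => u (Sum.inl i))
        fun q => (Lz z q.1.1 - Lz z q.1.2) * u (Sum.inr q), ?_⟩, ?_⟩, fun _ => rfl⟩
      · intro x y
        funext q
        rcases q with q | q
        · rfl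
        · simp only [Sum.elim_inr, Pi.add_apply]
          ring
      · intro c x
        funext q
        rcases q with q | q
        · rfl
        · simp only [Sum.elim_inr, Pi.smul_apply, smul_eq_mul, RingHom.id_apply]
          ring
    exact ⟨LinearMap.toContinuousLinearMap P, hP⟩
  obtain ⟨B, hB⟩ : ∃ B : (Ix m → ℝ) →L[ℝ] (Ix m → ℝ), ∀ u, B u =
      Sum.elim (fun i => u (Sum.inl i)) fun q => ∑ i, V' u q.1.1 i * V z q.1.2 i := by
    obtain ⟨P, hP⟩ : ∃ P : (Ix m → ℝ) →ₗ[ℝ] (Ix m → ℝ), ∀ u, P u =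
        Sum.elim (fun i => u (Sum.inl i)) fun q => ∑ i, V' u q.1.1 i * V z q.1.2 i := by
      refine ⟨⟨⟨fun u => Sum.elim (fun i => u (Sum.inl i))
        fun q => ∑ i, V' u q.1.1 i * V z q.1.2 i, ?_⟩, ?_⟩, fun _ => rfl⟩
      · intro x y
        funext q
        rcases q with q | q
        · rfl
        · simp only [Sum.elim_inr, Pi.add_apply, map_add, add_mul, Finset.sum_add_distrib]
      · intro c x
        funext q
        rcases q with q | q
        · rfl
        · simp only [Sum.elim_inr, Pi.smul_apply, smul_eq_mul, RingHom.id_apply, map_smul,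
            mul_assoc, Finset.mul_sum]
    exact ⟨LinearMap.toContinuousLinearMap P, hP⟩
  refine ⟨A, D, B, ?_, hA, hD, hB⟩
  obtain ⟨P, hP⟩ := Lz_lin (m := m)
  obtain ⟨Q, hQ⟩ := cI_lin (m := m)
  obtain ⟨W, hW⟩ : ∃ W : Fin (m + 1) → Fin (m + 1) → ((Ix m → ℝ) →L[ℝ] ℝ),
      ∀ i j u, W i j u = V' u i j :=
    ⟨fun i j => ((ContinuousLinearMap.proj (R := ℝ) (φ := fun _ : Fin (m + 1) => ℝ) j).comp
      (ContinuousLinearMap.proj (R := ℝ) (φ := fun _ : Fin (m + 1) => Fin (m + 1) → ℝ) i)).comp V',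
      fun _ _ _ => rfl⟩
  have hVd : ∀ i j, HasFDerivAt (fun z => V z i j) (W i j) z := fun i j =>
    (hasFDerivAt_pi'.1 (hasFDerivAt_pi'.1 hV i) j).congr_fderiv (by
      refine ContinuousLinearMap.ext fun u => ?_
      rw [hW]
      rfl)
  obtain ⟨U, hU⟩ : ∃ U : Fin (m + 1) → ((Ix m → ℝ) →L[ℝ] ℝ), ∀ i u, U i u = Lz u i :=
    ⟨fun i => (ContinuousLinearMap.proj (R := ℝ) (φ := fun _ : Fin (m + 1) => ℝ) i).comp P,
      fun i u => by
        rw [← hP]
        rfl⟩
  have hLd : ∀ i, HasFDerivAt (fun z => Lz z i) (U i) z := by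
    intro i
    have h1 := (U i).hasFDerivAt (x := z)
    have h2 : (U i : (Ix m → ℝ) → ℝ) = fun z => Lz z i := funext (hU i)
    rwa [h2] at h1
  have h1 : ∀ i j, HasFDerivAt (fun z => ∑ k, Lz z k * (V z k i * V z k j)) _ z := fun i j =>
    HasFDerivAt.fun_sum fun k (_ : k ∈ Finset.univ) => (hLd k).mul ((hVd k i).mul (hVd k j))
  have h2 : HasFDerivAt (fun z => Tc (Lz z) (V z)) _ z :=
    hasFDerivAt_pi.2 fun i => hasFDerivAt_pi.2 (h1 i)
  have h3 := Q.hasFDerivAt.comp z h2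
  have h4 : (Q ∘ fun z => Tc (Lz z) (V z)) = fun z => cI (Tc (Lz z) (V z)) :=
    funext fun z => hQ _
  rw [h4] at h3
  refine h3.congr_fderiv ?_
  refine ContinuousLinearMap.ext fun dz => ?_
  rw [ContinuousLinearMap.comp_apply, ContinuousLinearMap.comp_apply,
    ContinuousLinearMap.comp_apply, hA, hQ]
  refine congrArg cI (funext fun i => funext fun j => ?_)
  obtain ⟨Om, hOm⟩ : ∃ Om : Fin (m + 1) → Fin (m + 1) → ℝ, Om = fun k l =>
      ∑ i, V' dz k i * V z l i := ⟨_, rfl⟩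
  have hz := ho.self_of_nhds
  have hOV : ∀ k j, ∑ l, Om k l * V z l j = V' dz k j := by
    intro k j
    rw [hOm]
    simp only [Finset.sum_mul]
    rw [Finset.sum_comm]
    calc ∑ i, ∑ l, V' dz k i * V z l i * V z l j = ∑ i, V' dz k i * (∑ l, V z l i * V z l j) := by
          refine Finset.sum_congr rfl fun i _ => ?_
          rw [Finset.mul_sum]
          exact Finset.sum_congr rfl fun l _ => by ring
      _ = V' dz k j := by
          simp only [hz _ _, mul_ite, mul_one, mul_zero, Finset.sum_ite_eq', Finset.mem_univ,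
            if_true]
  have hOs : ∀ k l, Om k l = - Om l k := by
    intro k l
    have h4 : HasFDerivAt (fun z => ∑ i, V z k i * V z l i) _ z :=
      HasFDerivAt.fun_sum fun i (_ : i ∈ Finset.univ) => (hVd k i).mul (hVd l i)
    have h5 : (fun z => ∑ i, V z k i * V z l i) =ᶠ[𝓝 z] fun _ => if k = l then (1 : ℝ) else 0 := by
      filter_upwards [ho] with z' hz'
      exact V_row hz' k l
    have h6 := h4.unique ((hasFDerivAt_const (if k = l then (1 : ℝ) else 0) z).congr_of_eventuallyEq h5)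
    have h7 := DFunLike.congr_fun h6 dz
    simp only [sum_apply, _root_.add_apply, _root_.smul_apply, hW, smul_eq_mul,
      _root_.zero_apply, Finset.sum_add_distrib] at h7
    rw [hOm]
    simp only
    have h8 : ∑ i, V' dz l i * V z k i = ∑ i, V z k i * V' dz l i :=
      Finset.sum_congr rfl fun i _ => mul_comm _ _
    have h9 : ∑ i, V' dz k i * V z l i = ∑ i, V z l i * V' dz k i :=
      Finset.sum_congr rfl fun i _ => mul_comm _ _
    rw [h8, h9]
    linarith
  have hmt : ∀ k l, mt (D (B dz)) k l = (if k = l then Lz dz k else 0) +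
      (Lz z k - Lz z l) * Om k l := by
    intro k l
    have h5 : Lz (D (B dz)) k = Lz dz k := by
      unfold Lz
      refine Fin.cases ?_ (fun k => ?_) k
      · rfl
      · simp only [Fin.cons_succ, hD, hB, Sum.elim_inl]
    unfold mt
    rcases lt_trichotomy k l with h | h | h
    · rw [dif_pos h, if_neg h.ne, hD, hB, hOm]
      simp only [Sum.elim_inr]
      ring
    · subst h
      simp only [lt_irrefl, dite_false, if_true, sub_self, zero_mul, add_zero]
      exact h5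
    · rw [dif_neg h.not_gt, dif_pos h, if_neg h.ne', hOs k l, hD, hB, hOm]
      simp only [Sum.elim_inr]
      ring
  have e1 : ∀ k l, mt (D (B dz)) k l * (V z k i * V z l j) =
      (if k = l then Lz dz k * (V z k i * V z l j) else 0) +
        Lz z k * V z k i * (Om k l * V z l j) + Lz z l * V z l j * (Om l k * V z k i) := by
    intro k l
    rw [hmt, hOs l k]
    split_ifs <;> ring
  have e2 : ∑ k, ∑ l, Lz z l * V z l j * (Om l k * V z k i) =
      ∑ l, Lz z l * V z l j * V' dz l i := by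
    rw [Finset.sum_comm]
    refine Finset.sum_congr rfl fun l _ => ?_
    rw [← Finset.mul_sum, hOV]
  simp only [e1, Finset.sum_add_distrib, e2]
  simp only [Finset.sum_ite_eq, Finset.mem_univ, if_true, ← Finset.mul_sum, hOV]
  simp only [ContinuousLinearMap.coe_pi', sum_apply, _root_.add_apply, _root_.smul_apply, hW, hU,
    smul_eq_mul]
  rw [← Finset.sum_add_distrib, ← Finset.sum_add_distrib, ← Finset.sum_add_distrib]
  exact Finset.sum_congr rfl fun k _ => by ring

end Pool.Agent.L5helper74.LR
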