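import Pool.Agent.L5helper74.LR.Wey2

/-!
# Level repulsion: the volume of the set of symmetric matrices with given eigenvalues
-/

set_option autoImplicit false
set_option linter.unusedSectionVars false

open Set Filter Topology MeasureTheory
open scoped ENNReal

noncomputable section

namespace Pool.Agent.L5helper74.LR

/-- determinant bound -/
lemma det_le {κ : Type} [Fintype κ] (L : (κ → ℝ) →L[ℝ] (κ → ℝ)) {B : ℝ} (hB : 0 ≤ B)
    (h : ∀ x, ‖L x‖ ≤ B * ‖x‖) :
    |LinearMap.det (L : (κ → ℝ) →ₗ[ℝ] (κ → ℝ))| ≤ B ^ Fintype.card κ := by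
  have h1 : L '' Metric.closedBall 0 1 ⊆ Metric.closedBall 0 B := by
    rintro _ ⟨x, hx, rfl⟩
    rw [mem_closedBall_zero_iff] at hx ⊢
    exact (h x).trans (mul_le_of_le_one_right hB hx)
  have h2 := measure_mono (μ := (volume : Measure (κ → ℝ))) h1
  rw [Measure.addHaar_image_continuousLinearMap, Real.volume_pi_closedBall _ zero_le_one,
    Real.volume_pi_closedBall _ hB, mul_one, mul_pow, ← ENNReal.ofReal_mul (abs_nonneg _),
    ENNReal.ofReal_le_ofReal_iff (by positivity), mul_comm] at h2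
  exact le_of_mul_le_mul_left h2 (by positivity)

variable {m : ℕ}

/-- the Vandermonde determinant of `0, y 1, ..., y m` -/
def Vd (m : ℕ) (y : Fin m → ℝ) : ℝ :=
  ∏ q : Off m, |(Fin.cons 0 y : Fin (m + 1) → ℝ) q.1.1 - (Fin.cons 0 y : Fin (m + 1) → ℝ) q.1.2|

lemma det_D {z : Ix m → ℝ} {D : (Ix m → ℝ) →L[ℝ] (Ix m → ℝ)}
    (hD : ∀ u, D u = Sum.elim (fun i => u (Sum.inl i))
        fun q => (Lz z q.1.1 - Lz z q.1.2) * u (Sum.inr q)) :
    |LinearMap.det (D : (Ix m → ℝ) →ₗ[ℝ] (Ix m → ℝ))| = Vd m fun i => z (Sum.inl i) := by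
  have h1 : (D : (Ix m → ℝ) →ₗ[ℝ] (Ix m → ℝ)) = Matrix.toLin' (Matrix.diagonal
      (Sum.elim (fun _ => 1) fun q : Off m => Lz z q.1.1 - Lz z q.1.2)) := by
    refine LinearMap.ext fun u => ?_
    rw [Matrix.toLin'_apply]
    funext q
    rw [Matrix.mulVec_diagonal]
    have h2 := congrFun (hD u) q
    refine h2.trans ?_
    rcases q with q | q
    · simp
    · simp
  rw [h1, LinearMap.det_toLin', Matrix.det_diagonal, Fintype.prod_sum_type]
  simp only [Sum.elim_inl, Finset.prod_const_one, one_mul, Sum.elim_inr]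
  rw [Finset.abs_prod]
  rfl

lemma Ort_mul {n : ℕ} {A U : Fin n → Fin n → ℝ} (hA : Ort A) (hU : Ort U) :
    Ort fun i j => ∑ l, A i l * U l j := by
  intro i k
  calc ∑ j, (∑ l, A j l * U l i) * (∑ l, A j l * U l k)
      = ∑ j, ∑ l, ∑ p, (A j l * A j p) * (U l i * U p k) := by
        refine Finset.sum_congr rfl fun j _ => ?_
        rw [Finset.sum_mul_sum]
        exact Finset.sum_congr rfl fun l _ => Finset.sum_congr rfl fun p _ => by ring
    _ = ∑ l, ∑ p, (∑ j, A j l * A j p) * (U l i * U p k) := by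
        rw [Finset.sum_comm]
        refine Finset.sum_congr rfl fun l _ => ?_
        rw [Finset.sum_comm]
        exact Finset.sum_congr rfl fun p _ => by rw [Finset.sum_mul]
    _ = if i = k then 1 else 0 := by
        simp only [hA _ _, ite_mul, one_mul, zero_mul, Finset.sum_ite_eq, Finset.mem_univ, if_true]
        exact hU i k

lemma Ort_le {n : ℕ} {A : Fin n → Fin n → ℝ} (hA : Ort A) (i j : Fin n) : |A i j| ≤ 1 :=
  V_le hA i j

/-- one chart -/
theorem one_chart (m : ℕ) {s : (Fin (m + 1) → Fin (m + 1) → ℝ) → Fin (m + 1) → Fin (m + 1) → ℝ}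
    {r B : ℝ} (hr : 0 < r)
    (h1 : ∀ X, ‖X‖ < r → DifferentiableAt ℝ s X ∧ ‖fderiv ℝ s X‖ ≤ B)
    (h2 : ∀ X, ‖X‖ < r → (∀ i j, X i j = - X j i) → Ort (s X)) :
    ∃ C : ℝ≥0∞, C ≠ ⊤ ∧ ∀ U : Fin (m + 1) → Fin (m + 1) → ℝ, Ort U →
      ∀ Ω : Set (Fin m → ℝ), MeasurableSet Ω →
      volume ((fun z : Ix m → ℝ => cI (Tc (Lz z) fun i j => ∑ l, s (Xz z) i l * U l j)) ''
        {z | (fun i => z (Sum.inl i)) ∈ Ω ∧ ‖fun q => z (Sum.inr q)‖ ≤ r / 2}) ≤
        C * ∫⁻ y in Ω, ENNReal.ofReal (Vd m y) := by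
  have hB : 0 ≤ B := (norm_nonneg _).trans (h1 0 (by rwa [norm_zero])).2
  obtain ⟨n, hn⟩ : ∃ n : ℝ, n = ((m + 1 : ℕ) : ℝ) := ⟨_, rfl⟩
  have hn0 : 0 ≤ n := by rw [hn]; positivity
  obtain ⟨C₀, hC₀⟩ : ∃ C₀ : ℝ, C₀ = (2 * (n * (n * 1))) ^ Fintype.card (Ix m) *
    (1 + n * (n * B)) ^ Fintype.card (Ix m) := ⟨_, rfl⟩
  have hC₀0 : 0 ≤ C₀ := by rw [hC₀]; positivity
  obtain ⟨vb, hvb⟩ : ∃ vb : ℝ≥0∞, vb = volume (Metric.closedBall (0 : Off m → ℝ) (r / 2)) :=
    ⟨_, rfl⟩
  have hvb0 : vb ≠ ⊤ := by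
    rw [hvb]
    exact (isCompact_closedBall _ _).measure_lt_top.ne
  refine ⟨ENNReal.ofReal C₀ * vb, ENNReal.mul_ne_top ENNReal.ofReal_ne_top hvb0,
    fun U hU Ω hΩ => ?_⟩
  obtain ⟨Xl, hXl⟩ := Xz_lin (m := m)
  obtain ⟨S, hS⟩ : ∃ S : Set (Ix m → ℝ), S = {z | (fun i => z (Sum.inl i)) ∈ Ω ∧
    ‖fun q => z (Sum.inr q)‖ ≤ r / 2} := ⟨_, rfl⟩
  rw [← hS]
  have hSm : MeasurableSet S := by
    rw [hS]
    refine MeasurableSet.inter ?_ ?_
    · exact (measurable_pi_lambda _ fun i => measurable_pi_apply _) hΩ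
    · have hc : Continuous (fun z : Ix m → ℝ => ‖fun q : Off m => z (Sum.inr q)‖) := by fun_prop
      exact measurableSet_le hc.measurable measurable_const
  -- the matrices
  have hV : ∀ z ∈ S, ∃ V' : (Ix m → ℝ) →L[ℝ] (Fin (m + 1) → Fin (m + 1) → ℝ),
      HasFDerivAt (fun z => fun i j => ∑ l, s (Xz z) i l * U l j) V' z ∧
      (∀ u i j, |V' u i j| ≤ n * (B * ‖u‖)) ∧
      ∀ᶠ z' in 𝓝 z, Ort (fun i j => ∑ l, s (Xz z') i l * U l j) := by
    intro z hz
    rw [hS] at hz
    have hXr : ‖Xz z‖ < r := ((Xz_norm z).trans hz.2).trans_lt (by linarith)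
    obtain ⟨hd, hdB⟩ := h1 _ hXr
    have h3 : HasFDerivAt (fun z => s (Xz z)) ((fderiv ℝ s (Xz z)).comp Xl) z := by
      have h4 : HasFDerivAt s (fderiv ℝ s (Xz z)) (Xl z) := by
        rw [hXl]
        exact hd.hasFDerivAt
      have h5 := h4.comp z Xl.hasFDerivAt
      have h6 : (s ∘ Xl) = fun z => s (Xz z) := funext fun z => by
        rw [Function.comp_apply, hXl]
      rwa [h6] at h5
    obtain ⟨R, hR⟩ : ∃ R : (Fin (m + 1) → Fin (m + 1) → ℝ) →L[ℝ]
        (Fin (m + 1) → Fin (m + 1) → ℝ), ∀ A, R A = fun i j => ∑ l, A i l * U l j := by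
      obtain ⟨P, hP⟩ : ∃ P : (Fin (m + 1) → Fin (m + 1) → ℝ) →ₗ[ℝ]
        (Fin (m + 1) → Fin (m + 1) → ℝ), ∀ A, P A = fun i j => ∑ l, A i l * U l j := by
        refine ⟨⟨⟨fun A => fun i j => ∑ l, A i l * U l j, ?_⟩, ?_⟩, fun _ => rfl⟩
        · intro x y
          funext i j
          simp only [Pi.add_apply, add_mul, Finset.sum_add_distrib]
        · intro c x
          funext i j
          simp only [Pi.smul_apply, smul_eq_mul, RingHom.id_apply, mul_assoc, Finset.mul_sum]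
      exact ⟨LinearMap.toContinuousLinearMap P, hP⟩
    refine ⟨R.comp ((fderiv ℝ s (Xz z)).comp Xl), ?_, fun u i j => ?_, ?_⟩
    · have h5 := R.hasFDerivAt.comp z h3
      have h6 : (R ∘ fun z => s (Xz z)) = fun z => fun i j => ∑ l, s (Xz z) i l * U l j :=
        funext fun z => by rw [Function.comp_apply, hR]
      rwa [h6] at h5
    · rw [ContinuousLinearMap.comp_apply, ContinuousLinearMap.comp_apply, hR, hXl]
      refine (Finset.abs_sum_le_sum_abs _ _).trans ?_
      have h7 : ∀ l ∈ (Finset.univ : Finset (Fin (m + 1))),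
          |(fderiv ℝ s (Xz z)) (Xz u) i l * U l j| ≤ B * ‖u‖ := by
        intro l _
        rw [abs_mul]
        have h8 : |(fderiv ℝ s (Xz z)) (Xz u) i l| ≤ B * ‖u‖ := by
          calc |(fderiv ℝ s (Xz z)) (Xz u) i l| ≤ ‖(fderiv ℝ s (Xz z)) (Xz u)‖ := by
                rw [← Real.norm_eq_abs]
                exact (norm_le_pi_norm ((fderiv ℝ s (Xz z)) (Xz u) i) l).trans
                  (norm_le_pi_norm ((fderiv ℝ s (Xz z)) (Xz u)) i)
            _ ≤ ‖fderiv ℝ s (Xz z)‖ * ‖Xz u‖ := ContinuousLinearMap.le_opNorm _ _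
            _ ≤ B * ‖u‖ := by
                refine mul_le_mul hdB ?_ (norm_nonneg _) hB
                refine (pi_norm_le_iff_of_nonneg (norm_nonneg _)).2 fun i => ?_
                exact (pi_norm_le_iff_of_nonneg (norm_nonneg _)).2 fun j => Xz_abs u i j
        exact (mul_le_mul h8 (Ort_le hU l j) (abs_nonneg _) (by positivity)).trans
          (by rw [mul_one])
      refine (Finset.sum_le_sum h7).trans ?_
      simp [hn]
    · have h7 : ∀ᶠ z' in 𝓝 z, ‖Xz z'‖ < r := by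
        have h8 : ContinuousAt (fun z => ‖Xl z‖) z := by fun_prop
        simp only [hXl] at h8
        exact h8.eventually_lt continuousAt_const hXr
      filter_upwards [h7] with z' hz'
      exact Ort_mul (h2 _ hz' (Xz_skew z')) hU
  have hder : ∀ z ∈ S, ∃ F' : (Ix m → ℝ) →L[ℝ] (Ix m → ℝ),
      HasFDerivAt (fun z : Ix m → ℝ => cI (Tc (Lz z) fun i j => ∑ l, s (Xz z) i l * U l j)) F' z ∧
      |F'.det| ≤ C₀ * Vd m fun i => z (Sum.inl i) := by
    intro z hz
    obtain ⟨V', hV1, hV2, hV3⟩ := hV z hz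
    obtain ⟨A, D, Bm, hd, hA, hD, hBm⟩ := Tc_der hV1 hV3
    have ho := hV3.self_of_nhds
    refine ⟨_, hd, ?_⟩
    have h3 : (A.comp (D.comp Bm)).det = LinearMap.det (A : (Ix m → ℝ) →ₗ[ℝ] (Ix m → ℝ)) *
        (LinearMap.det (D : (Ix m → ℝ) →ₗ[ℝ] (Ix m → ℝ)) *
          LinearMap.det (Bm : (Ix m → ℝ) →ₗ[ℝ] (Ix m → ℝ))) := by
      rw [← LinearMap.det_comp, ← LinearMap.det_comp]
      rfl
    rw [h3, abs_mul, abs_mul, det_D hD]
    have h4 : |LinearMap.det (A : (Ix m → ℝ) →ₗ[ℝ] (Ix m → ℝ))| ≤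
        (2 * (n * (n * 1))) ^ Fintype.card (Ix m) := by
      refine det_le A (by positivity) fun u => ?_
      rw [hA]
      refine (cI_norm (c := n * (n * ‖u‖)) fun i j => ?_).trans (by rw [mul_one]; ring_nf; rfl)
      refine (Finset.abs_sum_le_sum_abs _ _).trans ?_
      have h5 : ∀ k ∈ (Finset.univ : Finset (Fin (m + 1))),
          |∑ l, mt u k l * ((∑ l, s (Xz z) k l * U l i) * (∑ l', s (Xz z) l l' * U l' j))| ≤
            n * ‖u‖ := by
        intro k _
        refine (Finset.abs_sum_le_sum_abs _ _).trans ?_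
        have h6 : ∀ l ∈ (Finset.univ : Finset (Fin (m + 1))),
            |mt u k l * ((∑ l, s (Xz z) k l * U l i) * (∑ l', s (Xz z) l l' * U l' j))| ≤
              ‖u‖ := by
          intro l _
          rw [abs_mul, abs_mul]
          calc _ ≤ ‖u‖ * (1 * 1) := mul_le_mul (mt_abs u k l)
                (mul_le_mul (Ort_le ho k i) (Ort_le ho l j) (abs_nonneg _) zero_le_one)
                (by positivity) (norm_nonneg _)
            _ = ‖u‖ := by ring
        refine (Finset.sum_le_sum h6).trans ?_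
        simp [hn]
      refine (Finset.sum_le_sum h5).trans ?_
      simp [hn]
    have h5 : |LinearMap.det (Bm : (Ix m → ℝ) →ₗ[ℝ] (Ix m → ℝ))| ≤
        (1 + n * (n * B)) ^ Fintype.card (Ix m) := by
      refine det_le Bm (by positivity) fun u => ?_
      rw [hBm]
      refine (pi_norm_le_iff_of_nonneg (by positivity)).2 fun q => ?_
      have h6 : 0 ≤ n * (n * B) * ‖u‖ := by positivity
      rcases q with q | q
      · rw [Sum.elim_inl]
        have := norm_le_pi_norm u (Sum.inl q)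
        nlinarith
      · rw [Sum.elim_inr, Real.norm_eq_abs]
        refine (Finset.abs_sum_le_sum_abs _ _).trans ?_
        have h7 : ∀ i ∈ (Finset.univ : Finset (Fin (m + 1))),
            |V' u q.1.1 i * ∑ l, s (Xz z) q.1.2 l * U l i| ≤ n * (B * ‖u‖) := by
          intro i _
          rw [abs_mul]
          exact (mul_le_mul (hV2 u _ _) (Ort_le ho q.1.2 i) (abs_nonneg _)
            (by positivity)).trans (by rw [mul_one])
        refine (Finset.sum_le_sum h7).trans ?_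
        have h8 : ∑ _ : Fin (m + 1), n * (B * ‖u‖) = n * (n * B) * ‖u‖ := by
          simp only [Finset.sum_const, Finset.card_univ, Fintype.card_fin, nsmul_eq_mul]
          rw [hn]
          ring
        rw [h8]
        nlinarith [norm_nonneg u]
    have h6 : 0 ≤ Vd m fun i => z (Sum.inl i) := Finset.prod_nonneg fun _ _ => abs_nonneg _
    calc _ ≤ (2 * (n * (n * 1))) ^ Fintype.card (Ix m) * ((Vd m fun i => z (Sum.inl i)) *
          (1 + n * (n * B)) ^ Fintype.card (Ix m)) := by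
          refine mul_le_mul h4 (mul_le_mul_of_nonneg_left h5 h6) (by positivity) (by positivity)
      _ = _ := by rw [hC₀]; ring
  choose! F' hF' hF'2 using hder
  refine (addHaar_image_le_lintegral_abs_det_fderiv volume hSm
    fun z hz => (hF' z hz).hasFDerivWithinAt).trans ?_
  have hmp := volume_measurePreserving_sumPiEquivProdPi (fun _ : Ix m => ℝ)
  have hSe : S = (MeasurableEquiv.sumPiEquivProdPi (fun _ : Ix m => ℝ)) ⁻¹'
      (Ω ×ˢ Metric.closedBall (0 : Off m → ℝ) (r / 2)) := by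
    rw [hS]
    ext z
    simp only [mem_preimage, mem_prod, mem_closedBall_zero_iff]
    rfl
  have hVm : Measurable (Vd m) := by
    unfold Vd
    refine Finset.measurable_prod _ fun q _ => ?_
    refine Measurable.abs (Measurable.sub ?_ ?_)
    all_goals
      refine Continuous.measurable ?_
      fun_prop
  calc ∫⁻ z in S, ENNReal.ofReal |(F' z).det|
      ≤ ∫⁻ z in S, ENNReal.ofReal C₀ * ENNReal.ofReal (Vd m fun i => z (Sum.inl i)) := by
        refine setLIntegral_mono' hSm fun z hz => ?_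
        rw [← ENNReal.ofReal_mul hC₀0]
        exact ENNReal.ofReal_le_ofReal (hF'2 z hz)
    _ = ∫⁻ z in S, (fun w : (Fin m → ℝ) × (Off m → ℝ) =>
          ENNReal.ofReal C₀ * ENNReal.ofReal (Vd m w.1))
          (MeasurableEquiv.sumPiEquivProdPi (fun _ : Ix m => ℝ) z) := rfl
    _ = ∫⁻ w in Ω ×ˢ Metric.closedBall (0 : Off m → ℝ) (r / 2),
          ENNReal.ofReal C₀ * ENNReal.ofReal (Vd m w.1) := by
        rw [hSe]
        exact hmp.setLIntegral_comp_preimage_emb
          (MeasurableEquiv.sumPiEquivProdPi (fun _ : Ix m => ℝ)).measurableEmbedding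
          (fun w : (Fin m → ℝ) × (Off m → ℝ) => ENNReal.ofReal C₀ * ENNReal.ofReal (Vd m w.1))
          (Ω ×ˢ Metric.closedBall (0 : Off m → ℝ) (r / 2))
    _ = ∫⁻ y in Ω, ∫⁻ _ in Metric.closedBall (0 : Off m → ℝ) (r / 2),
          ENNReal.ofReal C₀ * ENNReal.ofReal (Vd m y) := by
        rw [Measure.volume_eq_prod, ← Measure.prod_restrict, lintegral_prod]
        refine Measurable.aemeasurable ?_
        exact (((hVm.comp measurable_fst).ennreal_ofReal).const_mul _)
    _ = ∫⁻ y in Ω, (ENNReal.ofReal C₀ * vb) * ENNReal.ofReal (Vd m y) := by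
        refine lintegral_congr fun y => ?_
        rw [setLIntegral_const, ← hvb]
        ring
    _ = _ := by rw [lintegral_const_mul _ hVm.ennreal_ofReal]

end Pool.Agent.L5helper74.LR
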