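import Pool.Agent.L5helper74.LR.Wey4

/-!
# Level repulsion: lower bound for the volume of the set of symmetric matrices with given
eigenvalues, preparations
-/

set_option autoImplicit false
set_option linter.unusedSectionVars false

open Set Filter Topology MeasureTheory
open scoped ENNReal

noncomputable section

namespace Pool.Agent.L5helper74.LR

/-- lower bound for determinants -/
lemma det_ge {κ : Type} [Fintype κ] (L : (κ → ℝ) →L[ℝ] (κ → ℝ)) {C : ℝ} (hC : 0 < C)
    (h : ∀ x, ‖x‖ ≤ C * ‖L x‖) :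
    (C ^ Fintype.card κ)⁻¹ ≤ |LinearMap.det (L : (κ → ℝ) →ₗ[ℝ] (κ → ℝ))| := by
  have hinj : Function.Injective (L : (κ → ℝ) →ₗ[ℝ] (κ → ℝ)) := by
    refine (injective_iff_map_eq_zero _).2 fun x hx => ?_
    have h1 := h x
    have h2 : L x = 0 := hx
    rw [h2, norm_zero, mul_zero] at h1
    exact norm_le_zero_iff.1 h1
  obtain ⟨e, he⟩ : ∃ e : (κ → ℝ) ≃ₗ[ℝ] (κ → ℝ), ∀ x, e x = L x :=
    ⟨LinearEquiv.ofInjectiveEndo _ hinj, fun x => rfl⟩
  obtain ⟨R, hR⟩ : ∃ R : (κ → ℝ) →L[ℝ] (κ → ℝ), ∀ y, R y = e.symm y :=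
    ⟨LinearMap.toContinuousLinearMap (e.symm : (κ → ℝ) →ₗ[ℝ] (κ → ℝ)), fun _ => rfl⟩
  have h1 := det_le R hC.le fun y => by
    have h2 := h (R y)
    rw [hR, ← he, LinearEquiv.apply_symm_apply] at h2
    rw [hR]
    exact h2
  have h2 : LinearMap.det (L : (κ → ℝ) →ₗ[ℝ] (κ → ℝ)) *
      LinearMap.det (R : (κ → ℝ) →ₗ[ℝ] (κ → ℝ)) = 1 := by
    rw [← LinearMap.det_comp]
    have h3 : (L : (κ → ℝ) →ₗ[ℝ] (κ → ℝ)) ∘ₗ (R : (κ → ℝ) →ₗ[ℝ] (κ → ℝ)) = LinearMap.id := by
      refine LinearMap.ext fun y => ?_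
      show L (R y) = y
      rw [hR, ← he, LinearEquiv.apply_symm_apply]
    rw [h3, LinearMap.det_id]
  have h3 : |LinearMap.det (L : (κ → ℝ) →ₗ[ℝ] (κ → ℝ))| *
      |LinearMap.det (R : (κ → ℝ) →ₗ[ℝ] (κ → ℝ))| = 1 := by
    rw [← abs_mul, h2, abs_one]
  rw [inv_le_iff_one_le_mul₀ (by positivity), ← h3]
  exact mul_le_mul_of_nonneg_left h1 (abs_nonneg _)

variable {m : ℕ}

lemma mt_symm (u : Ix m → ℝ) (i j : Fin (m + 1)) : mt u i j = mt u j i := by
  unfold mt
  rcases lt_trichotomy i j with h | h | h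
  · rw [dif_pos h, dif_neg h.not_gt, dif_pos h]
  · subst h
    rfl
  · rw [dif_neg h.not_gt, dif_pos h, dif_pos h]

lemma cI_mt (u : Ix m → ℝ) : cI (mt u) = u := by
  funext q
  rcases q with q | q
  · simp only [cI, Sum.elim_inl, mt, lt_irrefl, dite_false, Lz, Fin.cons_succ, Fin.cons_zero,
      sub_zero]
  · simp only [cI, Sum.elim_inr, mt]
    rw [dif_pos q.2]

lemma cI_add (N N' : Fin (m + 1) → Fin (m + 1) → ℝ) :
    cI (fun i j => N i j + N' i j) = fun q => cI N q + cI N' q := by
  funext q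
  rcases q with q | q
  · simp only [cI, Sum.elim_inl]
    ring
  · simp only [cI, Sum.elim_inr]

lemma cI_one' (c : ℝ) : cI (fun i j : Fin (m + 1) => if i = j then c else 0) = 0 := by
  funext q
  rcases q with q | q
  · simp [cI]
  · simp [cI, q.2.ne]

/-- the conjugation is bounded from below -/
lemma A_low {V : Fin (m + 1) → Fin (m + 1) → ℝ} (hV : Ort V) {A : (Ix m → ℝ) → Ix m → ℝ}
    (hA : ∀ u, A u = cI fun i j => ∑ k, ∑ l, mt u k l * (V k i * V l j)) (u : Ix m → ℝ) :
    ‖u‖ ≤ 2 * (((m + 1 : ℕ) : ℝ) * (((m + 1 : ℕ) : ℝ) * ‖A u‖)) := by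
  obtain ⟨N, hN⟩ : ∃ N : Fin (m + 1) → Fin (m + 1) → ℝ, N = fun i j => ∑ k, ∑ l,
      mt u k l * (V k i * V l j) := ⟨_, rfl⟩
  have hAN : A u = cI N := by rw [hA, hN]
  have hr := V_row hV
  have hNs : ∀ i j, N i j = N j i := by
    intro i j
    rw [hN]
    simp only
    rw [Finset.sum_comm]
    exact Finset.sum_congr rfl fun k _ => Finset.sum_congr rfl fun l _ => by
      rw [mt_symm u l k]
      ring
  have h1 : ∀ p q, mt u p q = ∑ i, ∑ j, N i j * (V p i * V q j) := by
    intro p q
    have h2 : ∀ i, ∑ j, N i j * (V p i * V q j) = ∑ k, mt u k q * (V k i * V p i) := by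
      intro i
      rw [hN]
      calc ∑ j, (∑ k, ∑ l, mt u k l * (V k i * V l j)) * (V p i * V q j)
          = ∑ k, ∑ l, mt u k l * (V k i * V p i) * ∑ j, V l j * V q j := by
            simp only [Finset.sum_mul, Finset.mul_sum]
            rw [Finset.sum_comm]
            refine Finset.sum_congr rfl fun k _ => ?_
            rw [Finset.sum_comm]
            exact Finset.sum_congr rfl fun l _ => Finset.sum_congr rfl fun j _ => by ring
        _ = _ := by
            refine Finset.sum_congr rfl fun k _ => ?_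
            simp [hr]
    simp only [h2]
    rw [Finset.sum_comm]
    simp only [← Finset.mul_sum]
    simp [hr]
  have h2 : u = cI fun p q => ∑ i, ∑ j, mt (A u) i j * (V p i * V q j) := by
    have h3 : mt u = fun p q => (if p = q then N 0 0 else 0) +
        ∑ i, ∑ j, mt (A u) i j * (V p i * V q j) := by
      funext p q
      rw [h1 p q, hAN]
      have h4 : ∀ i j, N i j * (V p i * V q j) = (if i = j then N 0 0 * (V p i * V q j) else 0) +
          mt (cI N) i j * (V p i * V q j) := by
        intro i j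
        conv_lhs => rw [mt_cI hNs i j]
        split_ifs <;> ring
      simp only [h4, Finset.sum_add_distrib, Finset.sum_ite_eq, Finset.mem_univ, if_true]
      congr 1
      rw [← Finset.mul_sum, hr]
      simp
    conv_lhs => rw [← cI_mt u, h3]
    rw [cI_add, cI_one']
    funext q
    simp
  have h3 : ‖cI fun p q => ∑ i, ∑ j, mt (A u) i j * (V p i * V q j)‖ ≤
      2 * (((m + 1 : ℕ) : ℝ) * (((m + 1 : ℕ) : ℝ) * ‖A u‖)) := by
    refine cI_norm fun p q => ?_
    refine (Finset.abs_sum_le_sum_abs _ _).trans ?_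
    have h5 : ∀ i ∈ (Finset.univ : Finset (Fin (m + 1))),
        |∑ j, mt (A u) i j * (V p i * V q j)| ≤ ((m + 1 : ℕ) : ℝ) * ‖A u‖ := by
      intro i _
      refine (Finset.abs_sum_le_sum_abs _ _).trans ?_
      have h6 : ∀ j ∈ (Finset.univ : Finset (Fin (m + 1))),
          |mt (A u) i j * (V p i * V q j)| ≤ ‖A u‖ := by
        intro j _
        rw [abs_mul, abs_mul]
        calc _ ≤ ‖A u‖ * (1 * 1) := mul_le_mul (mt_abs _ i j)
              (mul_le_mul (Ort_le hV p i) (Ort_le hV q j) (abs_nonneg _) zero_le_one)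
              (by positivity) (norm_nonneg _)
          _ = ‖A u‖ := by ring
      refine (Finset.sum_le_sum h6).trans ?_
      simp
    refine (Finset.sum_le_sum h5).trans ?_
    simp
  rw [← h2] at h3
  exact h3

/-- injectivity near the identity -/
lemma inj_near {A A' : Fin (m + 1) → Fin (m + 1) → ℝ} (hA : Ort A) (hA' : Ort A')
    (hAn : ∀ i j, |A' i j - A i j| * ((m + 1 : ℕ) : ℝ) ≤ 1 / 2) {L L' : Fin (m + 1) → ℝ}
    (hL0 : L 0 = 0) (hL0' : L' 0 = 0) (hL : Function.Injective L)
    (h : cI (Tc L A) = cI (Tc L' A')) : L = L' ∧ A = A' := by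
  have hr := V_row hA
  have hr' := V_row hA'
  have hTs : ∀ (L : Fin (m + 1) → ℝ) (A : Fin (m + 1) → Fin (m + 1) → ℝ) i j,
      Tc L A i j = Tc L A j i := by
    intro L A i j
    unfold Tc
    exact Finset.sum_congr rfl fun k _ => by ring
  obtain ⟨c, hc⟩ : ∃ c : ℝ, c = Tc L A 0 0 - Tc L' A' 0 0 := ⟨_, rfl⟩
  have h1 : ∀ i j, Tc L A i j = Tc L' A' i j + if i = j then c else 0 := by
    intro i j
    rw [mt_cI (hTs L A) i j, mt_cI (hTs L' A') i j, h, hc]
    split_ifs <;> ring
  obtain ⟨W, hW⟩ : ∃ W : Fin (m + 1) → Fin (m + 1) → ℝ, W = fun p q => ∑ i, A' p i * A q i :=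
    ⟨_, rfl⟩
  have h2 : ∀ p q, L q * W p q = (L' p + c) * W p q := by
    intro p q
    have h3 : ∑ i, ∑ j, A' p i * Tc L A i j * A q j = L q * W p q := by
      have h4 : ∀ i, ∑ j, A' p i * Tc L A i j * A q j = L q * (A' p i * A q i) := by
        intro i
        unfold Tc
        calc ∑ j, A' p i * (∑ k, L k * (A k i * A k j)) * A q j
            = ∑ k, A' p i * L k * A k i * ∑ j, A k j * A q j := by
              simp only [Finset.sum_mul, Finset.mul_sum]
              rw [Finset.sum_comm]
              exact Finset.sum_congr rfl fun k _ => Finset.sum_congr rfl fun j _ => by ring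
          _ = L q * (A' p i * A q i) := by
              simp [hr]
              ring
      simp only [h4, hW, ← Finset.mul_sum]
    have h5 : ∑ i, ∑ j, A' p i * Tc L A i j * A q j = (L' p + c) * W p q := by
      rw [Finset.sum_comm]
      have h4 : ∀ j, ∑ i, A' p i * Tc L A i j * A q j = (L' p + c) * (A' p j * A q j) := by
        intro j
        have h6 : ∑ i, A' p i * Tc L' A' i j = L' p * A' p j := by
          unfold Tc
          calc ∑ i, A' p i * (∑ k, L' k * (A' k i * A' k j))
              = ∑ k, L' k * A' k j * ∑ i, A' p i * A' k i := by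
                simp only [Finset.mul_sum]
                rw [Finset.sum_comm]
                exact Finset.sum_congr rfl fun k _ => Finset.sum_congr rfl fun i _ => by ring
            _ = _ := by simp [hr']
        calc ∑ i, A' p i * Tc L A i j * A q j
            = (∑ i, A' p i * Tc L' A' i j) * A q j +
              (∑ i, A' p i * if i = j then c else 0) * A q j := by
              rw [Finset.sum_mul, Finset.sum_mul, ← Finset.sum_add_distrib]
              exact Finset.sum_congr rfl fun i _ => by rw [h1 i j]; ring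
          _ = _ := by
              rw [h6]
              simp
              ring
      simp only [h4, hW, ← Finset.mul_sum]
    rw [← h3, h5]
  have h3 : ∀ p, 1 / 2 ≤ W p p := by
    intro p
    have h4 : W p p = 1 + ∑ i, (A' p i - A p i) * A p i := by
      have h5 := hr p p
      rw [if_pos rfl] at h5
      rw [hW, ← h5, ← Finset.sum_add_distrib]
      exact Finset.sum_congr rfl fun i _ => by ring
    have h5 : |∑ i, (A' p i - A p i) * A p i| ≤ 1 / 2 := by
      refine (Finset.abs_sum_le_sum_abs _ _).trans ?_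
      have hn : (0 : ℝ) < ((m + 1 : ℕ) : ℝ) := by positivity
      have h6 : ∀ i ∈ (Finset.univ : Finset (Fin (m + 1))),
          |(A' p i - A p i) * A p i| ≤ 1 / 2 / ((m + 1 : ℕ) : ℝ) := by
        intro i _
        rw [abs_mul, le_div_iff₀ hn]
        calc |A' p i - A p i| * |A p i| * ((m + 1 : ℕ) : ℝ)
            = (|A' p i - A p i| * ((m + 1 : ℕ) : ℝ)) * |A p i| := by ring
          _ ≤ 1 / 2 * 1 := mul_le_mul (hAn p i) (Ort_le hA p i) (abs_nonneg _) (by norm_num)
          _ = 1 / 2 := mul_one _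
      refine (Finset.sum_le_sum h6).trans ?_
      rw [Finset.sum_const, Finset.card_univ, Fintype.card_fin, nsmul_eq_mul]
      rw [mul_div_cancel₀ _ hn.ne']
    have := (abs_le.1 h5).1
    rw [h4]
    linarith
  have h4 : ∀ p, L p = L' p + c := by
    intro p
    have h5 := h2 p p
    have h6 : W p p ≠ 0 := by
      have := h3 p
      linarith
    exact mul_right_cancel₀ h6 h5
  have hc0 : c = 0 := by
    have := h4 0
    rw [hL0, hL0'] at this
    linarith
  have h5 : L = L' := by
    funext p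
    rw [h4 p, hc0, add_zero]
  refine ⟨h5, ?_⟩
  have h6 : ∀ p q, p ≠ q → W p q = 0 := by
    intro p q hpq
    have h7 := h2 p q
    rw [← h4 p] at h7
    have h8 : (L q - L p) * W p q = 0 := by linarith
    refine (mul_eq_zero.1 h8).resolve_left ?_
    exact sub_ne_zero.2 fun h9 => hpq (hL h9).symm
  have hWo : Ort W := by
    rw [hW]
    exact Ort_mul hA' (fun i k => V_row hA i k : Ort fun i j => A j i)
  have h7 : ∀ p, W p p = 1 := by
    intro p
    have h8 := V_row hWo p p
    rw [if_pos rfl, Finset.sum_eq_single p (fun q _ hq => by rw [h6 p q hq.symm, mul_zero])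
      (fun h => absurd (Finset.mem_univ _) h)] at h8
    have h9 := h3 p
    nlinarith
  funext p j
  have h8 : ∑ q, W p q * A q j = A' p j := by
    rw [hW]
    calc ∑ q, (∑ i, A' p i * A q i) * A q j = ∑ i, A' p i * ∑ q, A q i * A q j := by
          simp only [Finset.sum_mul, Finset.mul_sum]
          rw [Finset.sum_comm]
          exact Finset.sum_congr rfl fun k _ => Finset.sum_congr rfl fun i _ => by ring
      _ = A' p j := by simp [hA _ _]
  rw [← h8, Finset.sum_eq_single p (fun q _ hq => by rw [h6 p q hq.symm, zero_mul])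
      (fun h => absurd (Finset.mem_univ _) h), h7, one_mul]

end Pool.Agent.L5helper74.LR
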