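import Pool.Agent.L5helper74.LR.Wey5

/-!
# Level repulsion: lower bound for the volume of the set of symmetric matrices with given
eigenvalues
-/

set_option autoImplicit false
set_option linter.unusedSectionVars false

open Set Filter Topology MeasureTheory
open scoped ENNReal

noncomputable section

namespace Pool.Agent.L5helper74.LR

variable {m : ℕ}

lemma Vd_meas (m : ℕ) : Measurable (Vd m) := by
  unfold Vd
  refine Finset.measurable_prod _ fun q _ => ?_
  refine Measurable.abs (Measurable.sub ?_ ?_)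
  all_goals
    refine Continuous.measurable ?_
    fun_prop

lemma S_meas {Ω : Set (Fin m → ℝ)} (hΩ : MeasurableSet Ω) (ρ : ℝ) :
    MeasurableSet {z : Ix m → ℝ | (fun i => z (Sum.inl i)) ∈ Ω ∧ ‖fun q => z (Sum.inr q)‖ ≤ ρ} := by
  refine MeasurableSet.inter ?_ ?_
  · exact (measurable_pi_lambda _ fun i => measurable_pi_apply _) hΩ
  · have hc : Continuous (fun z : Ix m → ℝ => ‖fun q : Off m => z (Sum.inr q)‖) := by fun_prop
    exact measurableSet_le hc.measurable measurable_const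

lemma int_split {Ω : Set (Fin m → ℝ)} (ρ : ℝ) (c : ℝ≥0∞) :
    ∫⁻ z in {z : Ix m → ℝ | (fun i => z (Sum.inl i)) ∈ Ω ∧ ‖fun q => z (Sum.inr q)‖ ≤ ρ},
      c * ENNReal.ofReal (Vd m fun i => z (Sum.inl i)) =
      (c * volume (Metric.closedBall (0 : Off m → ℝ) ρ)) *
        ∫⁻ y in Ω, ENNReal.ofReal (Vd m y) := by
  have hmp := volume_measurePreserving_sumPiEquivProdPi (fun _ : Ix m => ℝ)
  have hSe : {z : Ix m → ℝ | (fun i => z (Sum.inl i)) ∈ Ω ∧ ‖fun q => z (Sum.inr q)‖ ≤ ρ} =
      (MeasurableEquiv.sumPiEquivProdPi (fun _ : Ix m => ℝ)) ⁻¹'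
      (Ω ×ˢ Metric.closedBall (0 : Off m → ℝ) ρ) := by
    ext z
    simp only [mem_preimage, mem_prod, mem_closedBall_zero_iff]
    rfl
  have hVm := Vd_meas m
  calc ∫⁻ z in {z : Ix m → ℝ | (fun i => z (Sum.inl i)) ∈ Ω ∧ ‖fun q => z (Sum.inr q)‖ ≤ ρ},
      c * ENNReal.ofReal (Vd m fun i => z (Sum.inl i))
      = ∫⁻ z in {z : Ix m → ℝ | (fun i => z (Sum.inl i)) ∈ Ω ∧ ‖fun q => z (Sum.inr q)‖ ≤ ρ},
          (fun w : (Fin m → ℝ) × (Off m → ℝ) => c * ENNReal.ofReal (Vd m w.1))
          (MeasurableEquiv.sumPiEquivProdPi (fun _ : Ix m => ℝ) z) := rfl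
    _ = ∫⁻ w in Ω ×ˢ Metric.closedBall (0 : Off m → ℝ) ρ,
          c * ENNReal.ofReal (Vd m w.1) := by
        rw [hSe]
        exact hmp.setLIntegral_comp_preimage_emb
          (MeasurableEquiv.sumPiEquivProdPi (fun _ : Ix m => ℝ)).measurableEmbedding
          (fun w : (Fin m → ℝ) × (Off m → ℝ) => c * ENNReal.ofReal (Vd m w.1))
          (Ω ×ˢ Metric.closedBall (0 : Off m → ℝ) ρ)
    _ = ∫⁻ y in Ω, ∫⁻ _ in Metric.closedBall (0 : Off m → ℝ) ρ,
          c * ENNReal.ofReal (Vd m y) := by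
        rw [Measure.volume_eq_prod, ← Measure.prod_restrict, lintegral_prod]
        refine Measurable.aemeasurable ?_
        exact (((hVm.comp measurable_fst).ennreal_ofReal).const_mul _)
    _ = ∫⁻ y in Ω, (c * volume (Metric.closedBall (0 : Off m → ℝ) ρ)) *
          ENNReal.ofReal (Vd m y) := by
        refine lintegral_congr fun y => ?_
        rw [setLIntegral_const]
        ring
    _ = _ := by rw [lintegral_const_mul _ hVm.ennreal_ofReal]

theorem weyl_low (m : ℕ) : ∃ c : ℝ≥0∞, c ≠ 0 ∧ ∀ Ω : Set (Fin m → ℝ), MeasurableSet Ω →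
    (∀ y ∈ Ω, Function.Injective (Fin.cons 0 y : Fin (m + 1) → ℝ)) →
    c * ∫⁻ y in Ω, ENNReal.ofReal (Vd m y) ≤
      volume {u : Ix m → ℝ | ∃ y ∈ Ω, ∃ V, Ort V ∧ u = cI (Tc (Fin.cons 0 y) V)} := by
  obtain ⟨s, r, B, δ, hr, hδ, h1, h2, -, hG, hs0⟩ := chart (m + 1)
  obtain ⟨n, hn⟩ : ∃ n : ℝ, n = ((m + 1 : ℕ) : ℝ) := ⟨_, rfl⟩
  have hn0 : 0 < n := by rw [hn]; positivity
  have hsc : ContinuousAt s 0 := (h1 0 (by rwa [norm_zero])).1.continuousAt
  obtain ⟨r₁, hr₁, hr₁s⟩ : ∃ r₁ : ℝ, 0 < r₁ ∧ ∀ X, ‖X‖ < r₁ → ‖s X - I1‖ < 1 / (4 * n) := by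
    have h3 := Metric.continuousAt_iff.1 hsc (1 / (4 * n)) (by positivity)
    obtain ⟨r₁, hr₁, h4⟩ := h3
    refine ⟨r₁, hr₁, fun X hX => ?_⟩
    have := h4 (x := X) (by rwa [dist_zero_right])
    rwa [hs0, dist_eq_norm] at this
  obtain ⟨ρ, hρ⟩ : ∃ ρ : ℝ, ρ = min r r₁ / 2 := ⟨_, rfl⟩
  have hρ0 : 0 < ρ := by
    rw [hρ]
    have := lt_min hr hr₁
    positivity
  have hρr : ρ < r := by
    rw [hρ]
    have h3 := lt_min hr hr₁
    have h4 := min_le_left r r₁
    linarith
  have hρr₁ : ρ < r₁ := by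
    rw [hρ]
    have h3 := lt_min hr hr₁
    have h4 := min_le_right r r₁
    linarith
  obtain ⟨c₁, hc₁⟩ : ∃ c₁ : ℝ, c₁ = ((2 * (n * n)) ^ Fintype.card (Ix m))⁻¹ *
    ((1 + 2 * n) ^ Fintype.card (Ix m))⁻¹ := ⟨_, rfl⟩
  have hc₁0 : 0 < c₁ := by rw [hc₁]; positivity
  refine ⟨ENNReal.ofReal c₁ * volume (Metric.closedBall (0 : Off m → ℝ) ρ), ?_,
    fun Ω hΩ hinjΩ => ?_⟩
  · exact mul_ne_zero (by simpa using hc₁0) (Metric.measure_closedBall_pos _ _ hρ0).ne'
  obtain ⟨Xl, hXl⟩ := Xz_lin (m := m)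
  obtain ⟨S, hS⟩ : ∃ S : Set (Ix m → ℝ), S = {z | (fun i => z (Sum.inl i)) ∈ Ω ∧
    ‖fun q => z (Sum.inr q)‖ ≤ ρ} := ⟨_, rfl⟩
  have hSm : MeasurableSet S := by
    rw [hS]
    exact S_meas hΩ ρ
  have hXS : ∀ z ∈ S, ‖Xz z‖ ≤ ρ := by
    intro z hz
    rw [hS] at hz
    exact (Xz_norm z).trans hz.2
  have hder : ∀ z ∈ S, ∃ F' : (Ix m → ℝ) →L[ℝ] (Ix m → ℝ),
      HasFDerivAt (fun z : Ix m → ℝ => cI (Tc (Lz z) (s (Xz z)))) F' z ∧
      (c₁ * Vd m fun i => z (Sum.inl i)) ≤ |F'.det| := by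
    intro z hz
    have hXr : ‖Xz z‖ < r := (hXS z hz).trans_lt hρr
    obtain ⟨V', hV1⟩ : ∃ V' : (Ix m → ℝ) →L[ℝ] (Fin (m + 1) → Fin (m + 1) → ℝ),
        HasFDerivAt (fun z => s (Xz z)) V' z := by
      refine ⟨(fderiv ℝ s (Xz z)).comp Xl, ?_⟩
      have h4 : HasFDerivAt s (fderiv ℝ s (Xz z)) (Xl z) := by
        rw [hXl]
        exact (h1 _ hXr).1.hasFDerivAt
      have h5 := h4.comp z Xl.hasFDerivAt
      have h6 : (s ∘ Xl) = fun z => s (Xz z) := funext fun z => by
        rw [Function.comp_apply, hXl]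
      rwa [h6] at h5
    have h7 : ∀ᶠ z' in 𝓝 z, ‖Xz z'‖ < r := by
      have h8 : ContinuousAt (fun z => ‖Xl z‖) z := by fun_prop
      simp only [hXl] at h8
      exact h8.eventually_lt continuousAt_const hXr
    have hV3 : ∀ᶠ z' in 𝓝 z, Ort (s (Xz z')) :=
      h7.mono fun z' hz' => h2 _ hz' (Xz_skew z')
    obtain ⟨A, D, Bm, hd, hA, hD, hBm⟩ := Tc_der hV1 hV3
    have ho := hV3.self_of_nhds
    refine ⟨_, hd, ?_⟩
    have h3 : (A.comp (D.comp Bm)).det = LinearMap.det (A : (Ix m → ℝ) →ₗ[ℝ] (Ix m → ℝ)) *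
        (LinearMap.det (D : (Ix m → ℝ) →ₗ[ℝ] (Ix m → ℝ)) *
          LinearMap.det (Bm : (Ix m → ℝ) →ₗ[ℝ] (Ix m → ℝ))) := by
      rw [← LinearMap.det_comp, ← LinearMap.det_comp]
      rfl
    rw [h3, abs_mul, abs_mul, det_D hD]
    have h4 := det_ge A (C := 2 * (n * n)) (by positivity) fun u => by
      have := A_low ho hA u
      rw [← hn] at this
      calc ‖u‖ ≤ _ := this
        _ = _ := by ring
    have h5 := det_ge Bm (C := 1 + 2 * n) (by positivity) fun u => by
      have hr2 := V_row ho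
      obtain ⟨W, hW⟩ : ∃ W : Fin (m + 1) → Fin (m + 1) → ((Ix m → ℝ) →L[ℝ] ℝ),
          ∀ i j u, W i j u = V' u i j :=
        ⟨fun i j => ((ContinuousLinearMap.proj (R := ℝ) (φ := fun _ : Fin (m + 1) => ℝ) j).comp
          (ContinuousLinearMap.proj (R := ℝ)
            (φ := fun _ : Fin (m + 1) => Fin (m + 1) → ℝ) i)).comp V', fun _ _ _ => rfl⟩
      have hVd : ∀ i j, HasFDerivAt (fun z => s (Xz z) i j) (W i j) z := fun i j =>
        (hasFDerivAt_pi'.1 (hasFDerivAt_pi'.1 hV1 i) j).congr_fderiv (by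
          refine ContinuousLinearMap.ext fun u => ?_
          rw [hW]
          rfl)
      -- skewness of the rotation
      obtain ⟨Om, hOm⟩ : ∃ Om : Fin (m + 1) → Fin (m + 1) → ℝ, Om = fun k l =>
          ∑ i, V' u k i * s (Xz z) l i := ⟨_, rfl⟩
      have hOV : ∀ k j, ∑ l, Om k l * s (Xz z) l j = V' u k j := by
        intro k j
        rw [hOm]
        simp only [Finset.sum_mul]
        rw [Finset.sum_comm]
        calc ∑ i, ∑ l, V' u k i * s (Xz z) l i * s (Xz z) l j =
              ∑ i, V' u k i * (∑ l, s (Xz z) l i * s (Xz z) l j) := by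
              refine Finset.sum_congr rfl fun i _ => ?_
              rw [Finset.mul_sum]
              exact Finset.sum_congr rfl fun l _ => by ring
          _ = V' u k j := by
              simp only [ho _ _, mul_ite, mul_one, mul_zero, Finset.sum_ite_eq', Finset.mem_univ,
                if_true]
      have hOs : ∀ k l, Om k l = - Om l k := by
        intro k l
        have h4 : HasFDerivAt (fun z => ∑ i, s (Xz z) k i * s (Xz z) l i) _ z :=
          HasFDerivAt.fun_sum fun i (_ : i ∈ Finset.univ) => (hVd k i).mul (hVd l i)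
        have h5 : (fun z => ∑ i, s (Xz z) k i * s (Xz z) l i) =ᶠ[𝓝 z]
            fun _ => if k = l then (1 : ℝ) else 0 := by
          filter_upwards [hV3] with z' hz'
          exact V_row hz' k l
        have h6 := h4.unique
          ((hasFDerivAt_const (if k = l then (1 : ℝ) else 0) z).congr_of_eventuallyEq h5)
        have h7 := DFunLike.congr_fun h6 u
        simp only [sum_apply, _root_.add_apply, _root_.smul_apply, hW, smul_eq_mul,
          _root_.zero_apply, Finset.sum_add_distrib] at h7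
        rw [hOm]
        simp only
        have h8 : ∑ i, V' u l i * s (Xz z) k i = ∑ i, s (Xz z) k i * V' u l i :=
          Finset.sum_congr rfl fun i _ => mul_comm _ _
        have h9 : ∑ i, V' u k i * s (Xz z) l i = ∑ i, s (Xz z) l i * V' u k i :=
          Finset.sum_congr rfl fun i _ => mul_comm _ _
        rw [h8, h9]
        linarith
      have hOB : ∀ k l, |Om k l| ≤ ‖Bm u‖ := by
        have h8 : ∀ k l, k < l → |Om k l| ≤ ‖Bm u‖ := by
          intro k l hkl
          have h9 : Bm u (Sum.inr ⟨(k, l), hkl⟩) = Om k l := by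
            rw [hBm, hOm]
            rfl
          rw [← h9]
          exact norm_le_pi_norm (Bm u) _
        intro k l
        rcases lt_trichotomy k l with h | h | h
        · exact h8 k l h
        · subst h
          have := hOs k k
          have h9 : Om k k = 0 := by linarith
          rw [h9, abs_zero]
          exact norm_nonneg _
        · rw [hOs, abs_neg]
          exact h8 l k h
      have hVB : ∀ i j, |V' u i j| ≤ n * ‖Bm u‖ := by
        intro i j
        rw [← hOV]
        refine (Finset.abs_sum_le_sum_abs _ _).trans ?_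
        have h8 : ∀ l ∈ (Finset.univ : Finset (Fin (m + 1))),
            |Om i l * s (Xz z) l j| ≤ ‖Bm u‖ := by
          intro l _
          rw [abs_mul]
          exact (mul_le_mul (hOB i l) (Ort_le ho l j) (abs_nonneg _) (norm_nonneg _)).trans
            (by rw [mul_one])
        refine (Finset.sum_le_sum h8).trans ?_
        simp [hn]
      have hX : ∀ i j, Xz u i j = V' u i j - V' u j i := by
        intro i j
        have h8 : HasFDerivAt (fun z => s (Xz z) i j - s (Xz z) j i) _ z := (hVd i j).sub (hVd j i)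
        obtain ⟨Y, hY⟩ : ∃ Y : (Ix m → ℝ) →L[ℝ] ℝ, ∀ u, Y u = Xz u i j :=
          ⟨((ContinuousLinearMap.proj (R := ℝ) (φ := fun _ : Fin (m + 1) => ℝ) j).comp
            (ContinuousLinearMap.proj (R := ℝ)
              (φ := fun _ : Fin (m + 1) => Fin (m + 1) → ℝ) i)).comp Xl, fun u => by
                rw [← hXl]
                rfl⟩
        have h9 : HasFDerivAt (fun z => Xz z i j) Y z := by
          have h10 := Y.hasFDerivAt (x := z)
          have h11 : (Y : (Ix m → ℝ) → ℝ) = fun z => Xz z i j := funext hY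
          rwa [h11] at h10
        have h10 : (fun z => s (Xz z) i j - s (Xz z) j i) =ᶠ[𝓝 z] fun z => Xz z i j := by
          filter_upwards [h7] with z' hz'
          have h11 := h2 _ hz' (Xz_skew z')
          rw [← Gm_ort h11, hG _ hz']
        have h11 := h8.unique (h9.congr_of_eventuallyEq h10)
        have h12 := DFunLike.congr_fun h11 u
        rw [_root_.sub_apply, hW, hW, hY] at h12
        exact h12.symm
      refine (pi_norm_le_iff_of_nonneg (by positivity)).2 fun q => ?_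
      rcases q with q | q
      · have h8 : Bm u (Sum.inl q) = u (Sum.inl q) := by rw [hBm]; rfl
        rw [← h8]
        have h9 := norm_le_pi_norm (Bm u) (Sum.inl q)
        have h10 : 0 ≤ 2 * n * ‖Bm u‖ := by positivity
        nlinarith
      · have h8 : u (Sum.inr q) = Xz u q.1.1 q.1.2 := by
          unfold Xz
          rw [dif_pos q.2]
        rw [h8, hX, Real.norm_eq_abs]
        refine (abs_sub _ _).trans ?_
        have h9 := hVB q.1.1 q.1.2
        have h10 := hVB q.1.2 q.1.1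
        have h11 := norm_nonneg (Bm u)
        nlinarith
    have h6 : 0 ≤ Vd m fun i => z (Sum.inl i) := Finset.prod_nonneg fun _ _ => abs_nonneg _
    calc (c₁ * Vd m fun i => z (Sum.inl i)) = ((2 * (n * n)) ^ Fintype.card (Ix m))⁻¹ *
          ((Vd m fun i => z (Sum.inl i)) * ((1 + 2 * n) ^ Fintype.card (Ix m))⁻¹) := by
          rw [hc₁]
          ring
      _ ≤ _ := mul_le_mul h4 (mul_le_mul_of_nonneg_left h5 h6) (by positivity) (abs_nonneg _)
  choose! F' hF' hF'2 using hder
  have hinj : InjOn (fun z : Ix m → ℝ => cI (Tc (Lz z) (s (Xz z)))) S := by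
    intro z hz z' hz' he
    have hzX := hXS z hz
    have hzX' := hXS z' hz'
    have h3 := hr₁s _ (hzX.trans_lt hρr₁)
    have h4 := hr₁s _ (hzX'.trans_lt hρr₁)
    have hLi : Function.Injective (Lz z) := by
      rw [hS] at hz
      exact hinjΩ _ hz.1
    obtain ⟨h5, h6⟩ := inj_near (h2 _ (hzX.trans_lt hρr) (Xz_skew z))
      (h2 _ (hzX'.trans_lt hρr) (Xz_skew z')) (fun i j => by
        have h7 : |s (Xz z') i j - s (Xz z) i j| ≤ ‖s (Xz z') - s (Xz z)‖ := by
          rw [← Real.norm_eq_abs]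
          exact (norm_le_pi_norm ((s (Xz z') - s (Xz z)) i) j).trans
            (norm_le_pi_norm (s (Xz z') - s (Xz z)) i)
        have h8 : ‖s (Xz z') - s (Xz z)‖ ≤ 1 / (4 * n) + 1 / (4 * n) := by
          have h9 : s (Xz z') - s (Xz z) = (s (Xz z') - I1) - (s (Xz z) - I1) := by abel
          rw [h9]
          exact (norm_sub_le _ _).trans (add_le_add h4.le h3.le)
        rw [← hn]
        calc |s (Xz z') i j - s (Xz z) i j| * n ≤ (1 / (4 * n) + 1 / (4 * n)) * n :=
              mul_le_mul_of_nonneg_right (h7.trans h8) hn0.le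
          _ = 1 / 2 := by field_simp; norm_num) (L := Lz z) (L' := Lz z')
      (by simp [Lz]) (by simp [Lz]) hLi he
    have h7 : Xz z = Xz z' := by
      rw [← hG _ (hzX.trans_lt hρr), ← hG _ (hzX'.trans_lt hρr), h6]
    funext q
    rcases q with q | q
    · have := congrFun h5 q.succ
      simpa [Lz] using this
    · have := congrFun (congrFun h7 q.1.1) q.1.2
      unfold Xz at this
      rwa [dif_pos q.2, dif_pos q.2] at this
  have himg := lintegral_abs_det_fderiv_eq_addHaar_image volume hSm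
    (fun z hz => (hF' z hz).hasFDerivWithinAt) hinj
  calc ENNReal.ofReal c₁ * volume (Metric.closedBall (0 : Off m → ℝ) ρ) *
        ∫⁻ y in Ω, ENNReal.ofReal (Vd m y)
      = ∫⁻ z in S, ENNReal.ofReal c₁ * ENNReal.ofReal (Vd m fun i => z (Sum.inl i)) := by
        rw [hS, int_split]
    _ ≤ ∫⁻ z in S, ENNReal.ofReal |(F' z).det| := by
        refine setLIntegral_mono' hSm fun z hz => ?_
        rw [← ENNReal.ofReal_mul hc₁0.le]
        exact ENNReal.ofReal_le_ofReal (hF'2 z hz)
    _ = volume ((fun z : Ix m → ℝ => cI (Tc (Lz z) (s (Xz z)))) '' S) := himg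
    _ ≤ _ := by
        refine measure_mono ?_
        rintro _ ⟨z, hz, rfl⟩
        refine ⟨fun i => z (Sum.inl i), ?_, s (Xz z),
          h2 _ ((hXS z hz).trans_lt hρr) (Xz_skew z), rfl⟩
        rw [hS] at hz
        exact hz.1

end Pool.Agent.L5helper74.LR
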